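import Pool.Agent.H80.PZ.Defs

/-!
[H80 PZ BDV]  Two points of one class: the bilinear form is divisible by (almost) `z⁴`.

`B_lab`: definitions (`lab0`, `Lab.B`, `lam`).
`B_dvd`: `γ = ζ ζ₀*`, `γ' = ζ' ζ₀*`, `P = γ γ'`, `δ = c ζ ζ' = mul3 c (mul3 ζ ζ')`, `n₀ = nrm3 ζ₀`.
`n₀² δ = (c ζ₀²) ζ₀*² ζ ζ' = (m² r₀ - m² s₀ T) P`, so modulo `M` we have `2 n₀² δ_i = m² r₀ (2 P_i) = 0` for `i = 1, 2`;
`canN` (twice) gives `M ∣ 2 m⁴ δ_i`.  `M₁ = M / gcd(M, 2 m⁴)` divides `δ₁, δ₂`, `M ≤ M₁ · 2 m⁴`.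
`δ² = (c ζ²)(c ζ'²)`, its coordinate 2: `δ₁² + 2 δ₀ δ₂ - A δ₂² = m⁴ s s'`, divisible by `z⁴`; so `M₁² ∣ 2 δ₀ δ₂`.
`h = gcd(M₁, δ₀)` divides `δ₀, δ₁, δ₂`, so `nrm3 δ = nrm3 c · nrm3 ζ · nrm3 ζ' = m⁴ g nrm3 ζ nrm3 ζ'`, and by `cang`, `canN` (twice) `h ∣ m¹⁰`.
`Q = M₁² / gcd(M₁², 2 δ₀)` divides `δ₂`; `gcd(M₁², 2 δ₀) ≤ 2 gcd(M₁, δ₀)² ≤ 2 m²⁰`.
So `M² ≤ M₁² · 4 m⁸ ≤ Q · 8 m²⁸`; `Q ∣ M₁² ∣ z⁴`.
-/

set_option autoImplicit false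

namespace Pool.Agent.H80.PZ

open Pool.Agent.H12.EH

theorem B_lab (A B : ℤ) (ρ : Fin 3 → ℂ) (c ζ ζ' : Fin 3 → ℤ) (m : ℕ) :
    (lab0 A B ρ c m).B ζ ζ' = mul3 A B c (mul3 A B ζ ζ') 2 := by
  simp [Lab.B, lab0, dotProduct, Matrix.mulVec, Fin.sum_univ_three, lam, mul3]
  ring

namespace Bdv

/-- the identity for `n₀² δ` -/
theorem id1 (A B : ℤ) (c ζ ζ' ζ₀ : Fin 3 → ℤ) (m : ℕ) (r₀ s₀ : ℤ)
    (h : mul3 A B c (mul3 A B ζ₀ ζ₀) = ![(m : ℤ) ^ 2 * r₀, -((m : ℤ) ^ 2 * s₀), 0])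
    (P δ : Fin 3 → ℤ)
    (hP : P = mul3 A B (mul3 A B ζ (adj3 A B ζ₀)) (mul3 A B ζ' (adj3 A B ζ₀)))
    (hδ : δ = mul3 A B c (mul3 A B ζ ζ')) :
    nrm3 A B ζ₀ * (nrm3 A B ζ₀ * δ 1) =
      (m : ℤ) ^ 2 * r₀ * P 1 - (m : ℤ) ^ 2 * s₀ * (P 0 - A * P 2) ∧
    nrm3 A B ζ₀ * (nrm3 A B ζ₀ * δ 2) = (m : ℤ) ^ 2 * r₀ * P 2 - (m : ℤ) ^ 2 * s₀ * P 1 := by
  have hA : Std.Associative (mul3 A B) := ⟨fun a b c => mul3_assoc A B a b c⟩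
  have hC : Std.Commutative (mul3 A B) := ⟨fun a b => mul3_comm A B a b⟩
  have h1 : mul3 A B (mul3 A B c (mul3 A B ζ₀ ζ₀))
      (mul3 A B (mul3 A B ζ (adj3 A B ζ₀)) (mul3 A B ζ' (adj3 A B ζ₀))) =
      mul3 A B (mul3 A B ζ₀ (adj3 A B ζ₀)) (mul3 A B (mul3 A B ζ₀ (adj3 A B ζ₀))
        (mul3 A B c (mul3 A B ζ ζ'))) := by
    ac_rfl
  rw [h, ← hP, ← hδ, mul3_adj3] at h1
  have e1 := congrFun h1 1
  have e2 := congrFun h1 2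
  simp only [mul3, Matrix.cons_val_zero, Matrix.cons_val_one, Matrix.cons_val] at e1 e2
  constructor
  · linear_combination -e1
  · linear_combination -e2

/-- the identity for `δ²` -/
theorem id2 (A B : ℤ) (c ζ ζ' : Fin 3 → ℤ) (m : ℕ) (r s r' s' : ℤ)
    (h : mul3 A B c (mul3 A B ζ ζ) = ![(m : ℤ) ^ 2 * r, -((m : ℤ) ^ 2 * s), 0])
    (h' : mul3 A B c (mul3 A B ζ' ζ') = ![(m : ℤ) ^ 2 * r', -((m : ℤ) ^ 2 * s'), 0])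
    (δ : Fin 3 → ℤ) (hδ : δ = mul3 A B c (mul3 A B ζ ζ')) :
    2 * δ 0 * δ 2 = (m : ℤ) ^ 4 * (s * s') - δ 1 ^ 2 + A * δ 2 ^ 2 := by
  have hA : Std.Associative (mul3 A B) := ⟨fun a b c => mul3_assoc A B a b c⟩
  have hC : Std.Commutative (mul3 A B) := ⟨fun a b => mul3_comm A B a b⟩
  have h1 : mul3 A B (mul3 A B c (mul3 A B ζ ζ')) (mul3 A B c (mul3 A B ζ ζ')) =
      mul3 A B (mul3 A B c (mul3 A B ζ ζ)) (mul3 A B c (mul3 A B ζ' ζ')) := by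
    ac_rfl
  rw [h, h', ← hδ] at h1
  have e2 := congrFun h1 2
  simp only [mul3, Matrix.cons_val_zero, Matrix.cons_val_one, Matrix.cons_val] at e2
  linear_combination e2

theorem dvd_nrm3 (A B : ℤ) (δ : Fin 3 → ℤ) (h : ℤ) (h0 : h ∣ δ 0) (h1 : h ∣ δ 1) (h2 : h ∣ δ 2) :
    h ∣ nrm3 A B δ := by
  have e : nrm3 A B δ = δ 0 * adj3 A B δ 0 - B * (δ 1 * adj3 A B δ 2 + δ 2 * adj3 A B δ 1) := by
    unfold nrm3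
    simp only [mul3, Matrix.cons_val_zero]
  rw [e]
  exact dvd_sub (h0.mul_right _) (((h1.mul_right _).add (h2.mul_right _)).mul_left _)

end Bdv

theorem B_dvd {A B : ℤ} {c : Fin 3 → ℤ} {m g z : ℕ} {r s r' s' r₀ s₀ : ℤ} {ζ ζ' ζ₀ : Fin 3 → ℤ} (hm : 0 < m)
    (hg : 0 < g) (hz : 0 < z) (h : Pz A B c m g z r s ζ) (h' : Pz A B c m g z r' s' ζ')
    (h₀ : Pz A B c m g z r₀ s₀ ζ₀) {M : ℕ} (hM : M ∣ z ^ 2)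
    (h1 : (M : ℤ) ∣ 2 * mul3 A B (mul3 A B ζ (adj3 A B ζ₀)) (mul3 A B ζ' (adj3 A B ζ₀)) 1)
    (h2 : (M : ℤ) ∣ 2 * mul3 A B (mul3 A B ζ (adj3 A B ζ₀)) (mul3 A B ζ' (adj3 A B ζ₀)) 2) :
    ∃ Q : ℕ, Q ∣ z ^ 4 ∧ (Q : ℤ) ∣ mul3 A B c (mul3 A B ζ ζ') 2 ∧ M ^ 2 ≤ Q * (8 * m ^ 40) := by
  obtain ⟨P, hP⟩ : ∃ P, P = mul3 A B (mul3 A B ζ (adj3 A B ζ₀)) (mul3 A B ζ' (adj3 A B ζ₀)) :=
    ⟨_, rfl⟩
  obtain ⟨δ, hδ⟩ : ∃ δ, δ = mul3 A B c (mul3 A B ζ ζ') := ⟨_, rfl⟩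
  rw [← hP] at h1 h2
  rw [← hδ]
  obtain ⟨i1, i2⟩ := Bdv.id1 A B c ζ ζ' ζ₀ m r₀ s₀ h₀.eq P δ hP hδ
  have hMz : (M : ℤ) ∣ (z : ℤ) ^ 2 := by exact_mod_cast hM
  have hMs : (M : ℤ) ∣ s₀ := hMz.trans h₀.dvd
  have hMpos : 0 < M := Nat.pos_of_dvd_of_pos hM (by positivity)
  -- `M ∣ 2 m⁴ δ_i`
  have key : ∀ x : ℤ, (M : ℤ) ∣ 2 * (nrm3 A B ζ₀ * (nrm3 A B ζ₀ * x)) →
      (M : ℤ) ∣ ((2 * m ^ 4 : ℕ) : ℤ) * x := by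
    intro x hx
    have e1 : (M : ℤ) ∣ (2 * nrm3 A B ζ₀ * x) * nrm3 A B ζ₀ := by
      refine hx.trans (dvd_of_eq ?_)
      ring
    have e2 := h₀.canN hm hMz e1
    have e3 : (M : ℤ) ∣ (2 * (m : ℤ) ^ 2 * x) * nrm3 A B ζ₀ := by
      refine e2.trans (dvd_of_eq ?_)
      ring
    have e4 := h₀.canN hm hMz e3
    refine e4.trans (dvd_of_eq ?_)
    push_cast
    ring
  have k1 : (M : ℤ) ∣ ((2 * m ^ 4 : ℕ) : ℤ) * δ 1 := by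
    apply key
    rw [i1]
    have e : 2 * ((m : ℤ) ^ 2 * r₀ * P 1 - (m : ℤ) ^ 2 * s₀ * (P 0 - A * P 2)) =
        (2 * P 1) * ((m : ℤ) ^ 2 * r₀) - s₀ * (2 * (m : ℤ) ^ 2 * (P 0 - A * P 2)) := by ring
    rw [e]
    exact dvd_sub (h1.mul_right _) (hMs.mul_right _)
  have k2 : (M : ℤ) ∣ ((2 * m ^ 4 : ℕ) : ℤ) * δ 2 := by
    apply key
    rw [i2]
    have e : 2 * ((m : ℤ) ^ 2 * r₀ * P 2 - (m : ℤ) ^ 2 * s₀ * P 1) =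
        (2 * P 2) * ((m : ℤ) ^ 2 * r₀) - s₀ * (2 * (m : ℤ) ^ 2 * P 1) := by ring
    rw [e]
    exact dvd_sub (h2.mul_right _) (hMs.mul_right _)
  -- `M₁`
  obtain ⟨G, hG⟩ : ∃ G : ℕ, G = Nat.gcd M (2 * m ^ 4) := ⟨_, rfl⟩
  have hGM : G ∣ M := hG ▸ Nat.gcd_dvd_left _ _
  have hG2 : G ∣ 2 * m ^ 4 := hG ▸ Nat.gcd_dvd_right _ _
  have hGpos : 0 < G := hG ▸ Nat.gcd_pos_of_pos_left _ hMpos
  obtain ⟨M₁, hM₁⟩ := hGM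
  have hM₁pos : 0 < M₁ := by
    rcases Nat.eq_zero_or_pos M₁ with h0 | h0
    · rw [h0, mul_zero] at hM₁
      omega
    · exact h0
  have hM₁M : M₁ ∣ M := ⟨G, by rw [hM₁, mul_comm]⟩
  have hM₁d : ∀ x : ℤ, (M : ℤ) ∣ ((2 * m ^ 4 : ℕ) : ℤ) * x → (M₁ : ℤ) ∣ x := by
    intro x hx
    have e1 : M ∣ (2 * m ^ 4) * x.natAbs := by
      have := Int.natAbs_dvd_natAbs.2 hx
      rwa [Int.natAbs_natCast, Int.natAbs_mul, Int.natAbs_natCast] at this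
    obtain ⟨L, hL⟩ := hG2
    have hcop : Nat.Coprime M₁ L := by
      have e2 : Nat.gcd (G * M₁) (G * L) = G := by rw [← hM₁, ← hL, ← hG]
      rw [Nat.gcd_mul_left] at e2
      exact Nat.eq_of_mul_eq_mul_left hGpos (by rw [e2, mul_one])
    rw [hM₁, hL, mul_assoc] at e1
    have e3 := Nat.dvd_of_mul_dvd_mul_left hGpos e1
    exact Int.natCast_dvd.2 (hcop.dvd_of_dvd_mul_left e3)
  have d1 : (M₁ : ℤ) ∣ δ 1 := hM₁d _ k1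
  have d2 : (M₁ : ℤ) ∣ δ 2 := hM₁d _ k2
  have hMle : M ≤ M₁ * (2 * m ^ 4) := by
    rw [hM₁, mul_comm]
    exact Nat.mul_le_mul_left _ (Nat.le_of_dvd (by positivity) hG2)
  have hM₁z : (M₁ : ℤ) ∣ (z : ℤ) ^ 2 := by
    have : M₁ ∣ z ^ 2 := hM₁M.trans hM
    exact_mod_cast this
  -- `M₁² ∣ 2 δ₀ δ₂`
  have i3 := Bdv.id2 A B c ζ ζ' m r s r' s' h.eq h'.eq δ hδ
  have d3 : ((M₁ : ℤ)) ^ 2 ∣ 2 * δ 0 * δ 2 := by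
    rw [i3]
    have hss : ((M₁ : ℤ)) ^ 2 ∣ s * s' := by
      rw [pow_two]
      exact mul_dvd_mul (hM₁z.trans h.dvd) (hM₁z.trans h'.dvd)
    exact ((hss.mul_left _).sub (pow_dvd_pow_of_dvd d1 2)).add ((pow_dvd_pow_of_dvd d2 2).mul_left _)
  -- the common divisor
  obtain ⟨e, he⟩ : ∃ e : ℕ, e = Nat.gcd M₁ (δ 0).natAbs := ⟨_, rfl⟩
  have heM : e ∣ M₁ := he ▸ Nat.gcd_dvd_left _ _
  have he0 : (e : ℤ) ∣ δ 0 := Int.natCast_dvd.2 (he ▸ Nat.gcd_dvd_right _ _)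
  have heM' : (e : ℤ) ∣ (M₁ : ℤ) := by exact_mod_cast heM
  have hez : (e : ℤ) ∣ (z : ℤ) ^ 2 := heM'.trans hM₁z
  have hem : e ∣ m ^ 10 := by
    have n1 := Bdv.dvd_nrm3 A B δ e he0 (heM'.trans d1) (heM'.trans d2)
    rw [hδ, nrm3_mul, nrm3_mul, h.nrm] at n1
    have n2 : (e : ℤ) ∣ ((m : ℤ) ^ 4 * (nrm3 A B ζ * nrm3 A B ζ')) * g := by
      refine n1.trans (dvd_of_eq ?_)
      ring
    have n3 := h.cang hm hez n2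
    have n4 : (e : ℤ) ∣ ((m : ℤ) ^ 6 * nrm3 A B ζ') * nrm3 A B ζ := by
      refine n3.trans (dvd_of_eq ?_)
      ring
    have n5 := h.canN hm hez n4
    have n6 : (e : ℤ) ∣ ((m : ℤ) ^ 8) * nrm3 A B ζ' := by
      refine n5.trans (dvd_of_eq ?_)
      ring
    have n7 := h'.canN hm hez n6
    have n8 : (e : ℤ) ∣ (m : ℤ) ^ 10 := by
      refine n7.trans (dvd_of_eq ?_)
      ring
    exact_mod_cast n8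
  have hele : e ≤ m ^ 10 := Nat.le_of_dvd (by positivity) hem
  -- `Q`
  obtain ⟨D, hD⟩ : ∃ D : ℕ, D = Nat.gcd (M₁ ^ 2) (2 * (δ 0).natAbs) := ⟨_, rfl⟩
  have hDpos : 0 < D := hD ▸ Nat.gcd_pos_of_pos_left _ (by positivity)
  have hDM : D ∣ M₁ ^ 2 := hD ▸ Nat.gcd_dvd_left _ _
  have hD2 : D ∣ 2 * (δ 0).natAbs := hD ▸ Nat.gcd_dvd_right _ _
  have hDle : D ≤ 2 * (m ^ 10) ^ 2 := by
    have q1 : D ∣ Nat.gcd (M₁ ^ 2) 2 * Nat.gcd (M₁ ^ 2) (δ 0).natAbs :=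
      hD ▸ Nat.gcd_mul_right_dvd_mul_gcd _ _ _
    have q2 : Nat.gcd (M₁ ^ 2) (δ 0).natAbs ∣ e ^ 2 := by
      rw [he]
      have q3 : Nat.gcd (M₁ ^ 2) (δ 0).natAbs ∣ Nat.gcd (M₁ ^ 2) ((δ 0).natAbs ^ 2) :=
        Nat.gcd_dvd_gcd_of_dvd_right _ (dvd_pow_self _ (by norm_num))
      refine q3.trans (dvd_of_eq ?_)
      exact Nat.pow_gcd_pow ..
    have q4 : D ∣ 2 * e ^ 2 := q1.trans (mul_dvd_mul (Nat.gcd_dvd_right _ _) q2)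
    have hepos : 0 < e := he ▸ Nat.gcd_pos_of_pos_left _ hM₁pos
    refine (Nat.le_of_dvd (by positivity) q4).trans ?_
    exact Nat.mul_le_mul_left _ (Nat.pow_le_pow_left hele 2)
  obtain ⟨Q, hQ⟩ := hDM
  refine ⟨Q, ?_, ?_, ?_⟩
  · have q1 : Q ∣ M₁ ^ 2 := ⟨D, by rw [hQ, mul_comm]⟩
    have q2 : M₁ ^ 2 ∣ (z ^ 2) ^ 2 := pow_dvd_pow_of_dvd (hM₁M.trans hM) 2
    rw [← pow_mul] at q2
    exact q1.trans q2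
  · obtain ⟨L, hL⟩ := hD2
    have hcop : Nat.Coprime Q L := by
      have e2 : Nat.gcd (D * Q) (D * L) = D := by rw [← hQ, ← hL, ← hD]
      rw [Nat.gcd_mul_left] at e2
      exact Nat.eq_of_mul_eq_mul_left hDpos (by rw [e2, mul_one])
    have e1 : M₁ ^ 2 ∣ (2 * (δ 0).natAbs) * (δ 2).natAbs := by
      have := Int.natAbs_dvd_natAbs.2 d3
      rwa [Int.natAbs_pow, Int.natAbs_natCast, Int.natAbs_mul, Int.natAbs_mul] at this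
    rw [hQ, hL, mul_assoc] at e1
    have e3 := Nat.dvd_of_mul_dvd_mul_left hDpos e1
    exact Int.natCast_dvd.2 (hcop.dvd_of_dvd_mul_left e3)
  · have hm1 : 1 ≤ m := hm
    calc M ^ 2 ≤ (M₁ * (2 * m ^ 4)) ^ 2 := Nat.pow_le_pow_left hMle 2
      _ = (D * Q) * (4 * m ^ 8) := by rw [← hQ]; ring
      _ ≤ ((2 * (m ^ 10) ^ 2) * Q) * (4 * m ^ 8) :=
          Nat.mul_le_mul_right _ (Nat.mul_le_mul_right _ hDle)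
      _ = Q * (8 * m ^ 28) := by ring
      _ ≤ Q * (8 * m ^ 40) := by
          refine Nat.mul_le_mul_left _ (Nat.mul_le_mul_left _ ?_)
          exact Nat.pow_le_pow_right hm (by norm_num)

end Pool.Agent.H80.PZ
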