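import Pool.Agent.H80.PZ.Defs

/-!
[H80 PZ CLE]  Every `γ` with `γ²` rational modulo `N` is in a class.  Elementary integer arithmetic.

`simp [mul3]`: `(γ²)₁ = 2 γ₀ γ₁ - 2 A γ₁ γ₂ - B γ₂²`, `(γ²)₂ = γ₁² + 2 γ₀ γ₂ - A γ₂²`.
If `γ₁ = γ₂ = 0`: `e = N`, `t = 0`, `Rr N N = 1` (`N / N = 1`); `1 ≤ b` by `hb 1`.
Otherwise `E = Int.gcd (γ 1) (γ 2) > 0`, `γ₁ = E u₁`, `γ₂ = E u₂`, `IsCoprime u₁ u₂`; `e = Nat.gcd N E`, `N = e N₁`, `E = e E₁`,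
`gcd(N₁, E₁) = 1` (`Nat.coprime_div_gcd_div_gcd`).
(i) `gcd(N₁, e) ≤ b`: `N ∣ (γ²)₁ = E (2 γ₀ u₁ - E (2 A u₁ u₂ + B u₂²))`, so (cancel `e`, then `E₁`) `N₁ ∣ 2 γ₀ u₁ - E (..)`; in the same way
`N₁ ∣ 2 γ₀ u₂ + E (u₁² - A u₂²)`.  So `h = gcd(N₁, e)` (which divides `E`) divides `2 γ₀ u₁`, `2 γ₀ u₂`, so `2 γ₀`; and `h ∣ e ∣ γ₁, γ₂`, `h ∣ N`: `hb h`.
(ii) `u₁ (γ²)₂ - u₂ (γ²)₁ = E² Gf A B u₁ u₂` (`Gf A B u₁ u₂ = u₁³ + A u₁ u₂² + B u₂³`), so `e N₁ ∣ e² E₁² Gf`, `N₁ ∣ e Gf` and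
`R = Rr N e = N₁ / gcd(N₁, e)` divides `Gf A B u₁ u₂` (`N₁/h ∣ (e/h) Gf`, `gcd(N₁/h, e/h) = 1`).
(iii) `R` is coprime to `u₂` (`Gf = u₁³ + u₂ (..)`, `u₁, u₂` coprime).  With `v u₂ ≡ 1 (mod R)` let `t = (u₁ v) % R` (as a natural number, `R > 0`):
`R ∣ u₁ - t u₂`, so `R ∣ γ₁ - t γ₂`, and `u₂³ f(t) ≡ Gf ≡ 0`, so `R ∣ f(t)`.
(iv) `R ∣ N₁ ∣ N ∣ (γ²)₂` and `γ₁² ≡ t² γ₂²`, so `R ∣ γ₂ ((t² - A) γ₂ + 2 γ₀)`; `γ₂ = e E₁ u₂`, `R` coprime to `E₁` and `u₂`, so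
`R ∣ e ((t² - A) γ₂ + 2 γ₀)` and `R / gcd(R, e)` divides the last factor.
-/

set_option autoImplicit false

namespace Pool.Agent.H80.PZ

open Pool.Agent.H12.EH

theorem cl_ex (A B : ℤ) {N b : ℕ} (hN : 0 < N) (γ : Fin 3 → ℤ) (h1 : (N : ℤ) ∣ mul3 A B γ γ 1)
    (h2 : (N : ℤ) ∣ mul3 A B γ γ 2)
    (hb : ∀ h : ℕ, h ∣ N → (h : ℤ) ∣ 2 * γ 0 → (h : ℤ) ∣ γ 1 → (h : ℤ) ∣ γ 2 → h ≤ b) :
    ∃ e t : ℕ, Cl A B N b e t γ := by
  have hP1 : mul3 A B γ γ 1 = 2 * γ 0 * γ 1 - 2 * A * γ 1 * γ 2 - B * γ 2 ^ 2 := by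
    simp [mul3]
    ring
  have hP2 : mul3 A B γ γ 2 = 2 * γ 0 * γ 2 + γ 1 ^ 2 - A * γ 2 ^ 2 := by
    simp [mul3]
    ring
  rw [hP1] at h1
  rw [hP2] at h2
  by_cases h0 : γ 1 = 0 ∧ γ 2 = 0
  · obtain ⟨e1, e2⟩ := h0
    have hR : Rr N N = 1 := by
      unfold Rr
      rw [Nat.div_self hN]
      simp
    refine ⟨N, 0, dvd_rfl, by rw [e1]; exact dvd_zero _, by rw [e2]; exact dvd_zero _, ?_, ?_, ?_,
      ?_, ?_⟩
    · rw [Nat.div_self hN, Nat.gcd_one_left]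
      exact hb 1 (one_dvd _) (by simp) (by simp) (by simp)
    · rw [hR]
      norm_num
    · rw [hR]
      simp
    · rw [hR]
      simp
    · rw [hR]
      simp
  obtain ⟨E, hE⟩ : ∃ E, E = Int.gcd (γ 1) (γ 2) := ⟨_, rfl⟩
  have hEpos : 0 < E := by
    rw [hE]
    apply Nat.pos_of_ne_zero
    intro h
    exact h0 (Int.gcd_eq_zero_iff.1 h)
  obtain ⟨u1, hu1⟩ : (E : ℤ) ∣ γ 1 := by
    rw [hE]
    exact Int.gcd_dvd_left _ _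
  obtain ⟨u2, hu2⟩ : (E : ℤ) ∣ γ 2 := by
    rw [hE]
    exact Int.gcd_dvd_right _ _
  have hEZ : (E : ℤ) ≠ 0 := by exact_mod_cast hEpos.ne'
  have hcop : IsCoprime u1 u2 := by
    have hbz := Int.gcd_eq_gcd_ab (γ 1) (γ 2)
    rw [← hE] at hbz
    refine ⟨Int.gcdA (γ 1) (γ 2), Int.gcdB (γ 1) (γ 2), ?_⟩
    apply mul_left_cancel₀ hEZ
    linear_combination (-1 : ℤ) * hbz - (Int.gcdA (γ 1) (γ 2)) * hu1 - (Int.gcdB (γ 1) (γ 2)) * hu2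
  obtain ⟨e, he⟩ : ∃ e, e = Nat.gcd N E := ⟨_, rfl⟩
  have hepos : 0 < e := by
    rw [he]
    exact Nat.gcd_pos_of_pos_left _ hN
  obtain ⟨N1, hN1⟩ : e ∣ N := by
    rw [he]
    exact Nat.gcd_dvd_left _ _
  obtain ⟨E1, hE1⟩ : e ∣ E := by
    rw [he]
    exact Nat.gcd_dvd_right _ _
  have hc1 : Nat.Coprime N1 E1 := by
    have h3 := Nat.coprime_div_gcd_div_gcd (m := N) (n := E) (by rw [← he]; exact hepos)
    rw [← he] at h3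
    rwa [hN1, hE1, Nat.mul_div_cancel_left _ hepos, Nat.mul_div_cancel_left _ hepos] at h3
  obtain ⟨h, hh⟩ : ∃ h, h = Nat.gcd N1 e := ⟨_, rfl⟩
  have hhpos : 0 < h := by
    rw [hh]
    exact Nat.gcd_pos_of_pos_right _ hepos
  obtain ⟨R, hR⟩ : h ∣ N1 := by
    rw [hh]
    exact Nat.gcd_dvd_left _ _
  obtain ⟨e', he'⟩ : h ∣ e := by
    rw [hh]
    exact Nat.gcd_dvd_right _ _
  have hc2 : Nat.Coprime R e' := by
    have h3 := Nat.coprime_div_gcd_div_gcd (m := N1) (n := e) (by rw [← hh]; exact hhpos)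
    rw [← hh] at h3
    rwa [hR, he', Nat.mul_div_cancel_left _ hhpos, Nat.mul_div_cancel_left _ hhpos] at h3
  have hNe : N / e = N1 := by
    rw [hN1, Nat.mul_div_cancel_left _ hepos]
  have hRr : Rr N e = R := by
    unfold Rr
    rw [hNe, ← hh, hR, Nat.mul_div_cancel_left _ hhpos]
  have hN1pos : 0 < N1 := by
    apply Nat.pos_of_ne_zero
    intro h3
    rw [h3, mul_zero] at hN1
    omega
  have hRpos : 0 < R := by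
    apply Nat.pos_of_ne_zero
    intro h3
    rw [h3, mul_zero] at hR
    omega
  have zN : (N : ℤ) = e * N1 := by exact_mod_cast hN1
  have zE : (E : ℤ) = e * E1 := by exact_mod_cast hE1
  have zR : (N1 : ℤ) = h * R := by exact_mod_cast hR
  have ze : (e : ℤ) = h * e' := by exact_mod_cast he'
  have hez : (e : ℤ) ≠ 0 := by exact_mod_cast hepos.ne'
  have hhz : (h : ℤ) ≠ 0 := by exact_mod_cast hhpos.ne'
  have hRz : (0 : ℤ) < R := by exact_mod_cast hRpos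
  have hX : ∀ X : ℤ, (N : ℤ) ∣ (E : ℤ) * X → (N1 : ℤ) ∣ X := by
    intro X hX
    rw [zN, zE, mul_assoc] at hX
    have h4 := (mul_dvd_mul_iff_left hez).1 hX
    exact (Nat.isCoprime_iff_coprime.2 hc1).dvd_of_dvd_mul_left h4
  have hX1 : (N1 : ℤ) ∣ 2 * γ 0 * u1 - E * (2 * A * u1 * u2 + B * u2 ^ 2) := by
    apply hX
    have h3 : (E : ℤ) * (2 * γ 0 * u1 - E * (2 * A * u1 * u2 + B * u2 ^ 2)) =
        2 * γ 0 * γ 1 - 2 * A * γ 1 * γ 2 - B * γ 2 ^ 2 := by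
      rw [hu1, hu2]
      ring
    rw [h3]
    exact h1
  have hX2 : (N1 : ℤ) ∣ 2 * γ 0 * u2 + E * (u1 ^ 2 - A * u2 ^ 2) := by
    apply hX
    have h3 : (E : ℤ) * (2 * γ 0 * u2 + E * (u1 ^ 2 - A * u2 ^ 2)) =
        2 * γ 0 * γ 2 + γ 1 ^ 2 - A * γ 2 ^ 2 := by
      rw [hu1, hu2]
      ring
    rw [h3]
    exact h2
  have hhN1 : (h : ℤ) ∣ N1 := ⟨R, zR⟩
  have hhe : (h : ℤ) ∣ e := ⟨e', ze⟩
  have heE : (e : ℤ) ∣ E := ⟨E1, zE⟩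
  have he1 : (e : ℤ) ∣ γ 1 := by
    rw [hu1]
    exact heE.mul_right _
  have he2 : (e : ℤ) ∣ γ 2 := by
    rw [hu2]
    exact heE.mul_right _
  -- (i)
  have hhb : h ≤ b := by
    refine hb h ?_ ?_ (hhe.trans he1) (hhe.trans he2)
    · rw [hN1]
      exact Dvd.dvd.mul_right ⟨e', he'⟩ _
    · have a1 : (h : ℤ) ∣ 2 * γ 0 * u1 := by
        have a2 : 2 * γ 0 * u1 = (2 * γ 0 * u1 - E * (2 * A * u1 * u2 + B * u2 ^ 2)) +
            E * (2 * A * u1 * u2 + B * u2 ^ 2) := by ring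
        rw [a2]
        exact dvd_add (hhN1.trans hX1) ((hhe.trans heE).mul_right _)
      have a3 : (h : ℤ) ∣ 2 * γ 0 * u2 := by
        have a2 : 2 * γ 0 * u2 = (2 * γ 0 * u2 + E * (u1 ^ 2 - A * u2 ^ 2)) -
            E * (u1 ^ 2 - A * u2 ^ 2) := by ring
        rw [a2]
        exact dvd_sub (hhN1.trans hX2) ((hhe.trans heE).mul_right _)
      obtain ⟨x, y, hxy⟩ := hcop
      have a4 : 2 * γ 0 = x * (2 * γ 0 * u1) + y * (2 * γ 0 * u2) := by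
        linear_combination (-(2 * γ 0)) * hxy
      rw [a4]
      exact dvd_add (a1.mul_left _) (a3.mul_left _)
  -- (ii)
  have hRN1 : (R : ℤ) ∣ N1 := ⟨h, by rw [zR]; ring⟩
  have hG : (R : ℤ) ∣ Gf A B u1 u2 := by
    have a1 : (N1 : ℤ) ∣ E1 * (e * Gf A B u1 u2) := by
      have a2 : (E1 : ℤ) * (e * Gf A B u1 u2) =
          u1 * (2 * γ 0 * u2 + E * (u1 ^ 2 - A * u2 ^ 2)) -
            u2 * (2 * γ 0 * u1 - E * (2 * A * u1 * u2 + B * u2 ^ 2)) := by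
        unfold Gf
        rw [zE]
        ring
      rw [a2]
      exact dvd_sub (hX2.mul_left _) (hX1.mul_left _)
    have a3 := (Nat.isCoprime_iff_coprime.2 hc1).dvd_of_dvd_mul_left a1
    rw [zR, ze, mul_assoc] at a3
    have a4 := (mul_dvd_mul_iff_left hhz).1 a3
    exact (Nat.isCoprime_iff_coprime.2 hc2).dvd_of_dvd_mul_left a4
  -- (iii)
  have hRu : IsCoprime (R : ℤ) u2 := by
    have a1 : IsCoprime u2 (Gf A B u1 u2) := Gf_cop hcop (n := 1) (by rw [pow_one])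
    exact (a1.symm).of_isCoprime_of_dvd_left hG
  obtain ⟨w, v, hwv⟩ := hRu
  have hm0 : 0 ≤ (u1 * v) % (R : ℤ) := Int.emod_nonneg _ hRz.ne'
  have hm1 : (u1 * v) % (R : ℤ) < R := Int.emod_lt_of_pos _ hRz
  obtain ⟨t, ht⟩ := Int.eq_ofNat_of_zero_le hm0
  have htR : t < R := by
    rw [ht] at hm1
    exact_mod_cast hm1
  have hdt : (R : ℤ) ∣ u1 - t * u2 := by
    have a1 := Int.emod_add_mul_ediv (u1 * v) (R : ℤ)
    rw [ht] at a1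
    refine ⟨u1 * w + (u1 * v / (R : ℤ)) * u2, ?_⟩
    linear_combination (-u1) * hwv - u2 * a1
  obtain ⟨d, hd⟩ := hdt
  have hRu' : IsCoprime (R : ℤ) u2 := ⟨w, v, hwv⟩
  have hft : (R : ℤ) ∣ (t : ℤ) ^ 3 + A * t + B := by
    have a1 : (R : ℤ) ∣ u2 ^ 3 * ((t : ℤ) ^ 3 + A * t + B) := by
      have a2 : u2 ^ 3 * ((t : ℤ) ^ 3 + A * t + B) = Gf A B u1 u2 -
          R * (d * ((t * u2) ^ 2 + t * u2 * u1 + u1 ^ 2 + A * u2 ^ 2)) := by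
        unfold Gf
        linear_combination (-((t * u2) ^ 2 + t * u2 * u1 + u1 ^ 2 + A * u2 ^ 2)) * hd
      rw [a2]
      exact dvd_sub hG (dvd_mul_right _ _)
    exact (hRu'.pow_right (n := 3)).dvd_of_dvd_mul_left a1
  have hlast : (R : ℤ) ∣ ((t : ℤ) ^ 2 - A) * γ 2 + 2 * γ 0 := by
    have a1 : (R : ℤ) ∣ u2 * (((t : ℤ) ^ 2 - A) * γ 2 + 2 * γ 0) := by
      have a2 : u2 * (((t : ℤ) ^ 2 - A) * γ 2 + 2 * γ 0) =
          (2 * γ 0 * u2 + E * (u1 ^ 2 - A * u2 ^ 2)) - R * (d * E * (u1 + t * u2)) := by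
        rw [hu2]
        linear_combination (-(E * (u1 + t * u2))) * hd
      rw [a2]
      exact dvd_sub (hRN1.trans hX2) (dvd_mul_right _ _)
    exact hRu'.dvd_of_dvd_mul_left a1
  refine ⟨e, t, ⟨N1, hN1⟩, he1, he2, ?_, ?_, ?_, ?_, ?_⟩
  · rw [hNe, ← hh]
    exact hhb
  · rw [hRr]
    exact htR
  · rw [hRr]
    exact hft
  · rw [hRr, hu1, hu2]
    refine ⟨E * d, ?_⟩
    linear_combination (E : ℤ) * hd
  · rw [hRr]
    refine dvd_trans ?_ hlast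
    exact_mod_cast Nat.div_dvd_of_dvd (Nat.gcd_dvd_left R e)

end Pool.Agent.H80.PZ
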