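import Pool.Agent.H80.PZ.Defs
import Pool.Agent.H12.EH.Rts

/-!
[H80 PZ CLP]  Two elements of one class; the number of classes.

`cl_pair`: `N₁ = N / e`, `R = Rr N e`, `R₁ = R / gcd(R, e)`, `M = Nat.lcm R₁ e`.  `R₁ ∣ R ∣ N₁ ∣ N`, `e ∣ N`, so `M ∣ N`.
`N = e N₁`, `N₁ = R gcd(N₁, e) ≤ R b`, `R = R₁ gcd(R, e) ≤ R₁ b` (`gcd(R, e) ∣ gcd(N₁, e)`), `e R₁ = M gcd(R₁, e) ≤ M b`: `N ≤ M b³`.
`e` divides `(γ γ')₁` and `(γ γ')₂` (every term has a factor `γ₁, γ₂, γ'₁` or `γ'₂`).  Modulo `R₁`: `γ₁ ≡ t γ₂`, `2 γ₀ ≡ (A - t²) γ₂`, the same for `γ'`;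
`2 (γ γ')₂ = 2 γ₀ γ'₂ + 2 γ₁ γ'₁ + 2 γ₂ γ'₀ - 2 A γ₂ γ'₂ ≡ 0` and
`2 (γ γ')₁ = 2 γ₀ γ'₁ + 2 γ₁ γ'₀ - 2 A (γ₁ γ'₂ + γ₂ γ'₁) - 2 B γ₂ γ'₂ ≡ - 2 γ₂ γ'₂ (t³ + A t + B) ≡ 0`.
(Write the congruences as equations `γ₁ = t γ₂ + R₁ k` etc. and `ring`, or `Int.ModEq`, or `dvd` with explicit combinations.)
`lcm ∣`: `Int.natCast_dvd`, `Nat.lcm_dvd`.
`cl_card`: `rts` (Pool/Agent/H12/EH/Rts.lean) for the modulus `Rr N e > 0`, a divisor of `N`, so `τ(Rr N e) ≤ τ(N)`; the sum has `τ(N)` terms.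
-/

set_option autoImplicit false

namespace Pool.Agent.H80.PZ

open Pool.Agent.H12.EH

private theorem clp_rr {N e : ℕ} (hN : 0 < N) (he : e ∣ N) : 0 < Rr N e ∧ Rr N e ∣ N ∧
    N = e * (Nat.gcd (N / e) e * Rr N e) := by
  have h1 : N = e * (N / e) := (Nat.mul_div_cancel' he).symm
  have h2 : 0 < N / e := by
    rcases Nat.eq_zero_or_pos (N / e) with h0 | h0
    · rw [h0, mul_zero] at h1
      omega
    · exact h0
  have h3 : Nat.gcd (N / e) e ∣ N / e := Nat.gcd_dvd_left _ _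
  have h4 : N / e = Nat.gcd (N / e) e * Rr N e := by
    unfold Rr
    exact (Nat.mul_div_cancel' h3).symm
  refine ⟨?_, ?_, ?_⟩
  · rcases Nat.eq_zero_or_pos (Rr N e) with h0 | h0
    · rw [h0, mul_zero] at h4
      omega
    · exact h0
  · have h5 : Rr N e ∣ N / e := Dvd.intro_left _ h4.symm
    exact h5.trans (Nat.div_dvd_of_dvd he)
  · rw [← h4]
    exact h1

private theorem clp_lcm {a e : ℕ} {X : ℤ} (h1 : (a : ℤ) ∣ X) (h2 : (e : ℤ) ∣ X) :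
    ((Nat.lcm a e : ℕ) : ℤ) ∣ X := by
  rw [Int.natCast_dvd] at h1 h2 ⊢
  exact Nat.lcm_dvd h1 h2

theorem cl_pair {A B : ℤ} {N b e t : ℕ} (hN : 0 < N) {γ γ' : Fin 3 → ℤ} (h : Cl A B N b e t γ)
    (h' : Cl A B N b e t γ') :
    ∃ M : ℕ, M ∣ N ∧ N ≤ M * b ^ 3 ∧ (M : ℤ) ∣ 2 * mul3 A B γ γ' 1 ∧ (M : ℤ) ∣ 2 * mul3 A B γ γ' 2 := by
  obtain ⟨he, h1, h2, hb, -, hf, hu, hv⟩ := h
  obtain ⟨-, h1', h2', -, -, -, hu', hv'⟩ := h'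
  obtain ⟨hR0, hRN, hNR⟩ := clp_rr hN he
  obtain ⟨R, hR⟩ : ∃ R, R = Rr N e := ⟨_, rfl⟩
  obtain ⟨G, hG⟩ : ∃ G, G = Nat.gcd (N / e) e := ⟨_, rfl⟩
  rw [← hR] at hf hu hv hu' hv' hR0 hRN hNR
  rw [← hG] at hb hNR
  obtain ⟨g, hg⟩ : ∃ g, g = Nat.gcd R e := ⟨_, rfl⟩
  obtain ⟨R₁, hR₁⟩ : ∃ R₁, R₁ = R / g := ⟨_, rfl⟩
  rw [← hg, ← hR₁] at hv hv'
  have hgR : R = g * R₁ := by
    rw [hR₁, hg]
    exact (Nat.mul_div_cancel' (Nat.gcd_dvd_left _ _)).symm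
  have he0 : 0 < e := Nat.pos_of_dvd_of_pos he hN
  have hG0 : 0 < G := by
    rw [hG]
    exact Nat.gcd_pos_of_pos_right _ he0
  have hRNe : R ∣ N / e := by
    have h4 : N / e = G * R := by
      rw [hNR]
      exact Nat.mul_div_cancel_left _ he0
    exact Dvd.intro_left _ h4.symm
  have hR₁R : R₁ ∣ R := Dvd.intro_left _ hgR.symm
  have hgb : g ≤ b := by
    refine le_trans (Nat.le_of_dvd hG0 ?_) hb
    rw [hg, hG]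
    exact Nat.dvd_gcd ((Nat.gcd_dvd_left _ _).trans hRNe) (Nat.gcd_dvd_right _ _)
  have hgb' : Nat.gcd R₁ e ≤ b := by
    refine le_trans (Nat.le_of_dvd hG0 ?_) hb
    rw [hG]
    exact Nat.dvd_gcd ((Nat.gcd_dvd_left _ _).trans (hR₁R.trans hRNe)) (Nat.gcd_dvd_right _ _)
  have hR₁z : (R₁ : ℤ) ∣ (R : ℤ) := by exact_mod_cast hR₁R
  replace hf := hR₁z.trans hf
  replace hu := hR₁z.trans hu
  replace hu' := hR₁z.trans hu'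
  refine ⟨Nat.lcm R₁ e, Nat.lcm_dvd (hR₁R.trans hRN) he, ?_, ?_, ?_⟩
  · have h5 : N = (Nat.gcd R₁ e * Nat.lcm R₁ e) * (G * g) := by
      rw [Nat.gcd_mul_lcm]
      conv_lhs => rw [hNR, hgR]
      ring
    calc N = (Nat.gcd R₁ e * Nat.lcm R₁ e) * (G * g) := h5
      _ ≤ (b * Nat.lcm R₁ e) * (b * b) :=
        Nat.mul_le_mul (Nat.mul_le_mul_right _ hgb') (Nat.mul_le_mul hb hgb)
      _ = Nat.lcm R₁ e * b ^ 3 := by ring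
  · apply clp_lcm
    · have e1 : 2 * mul3 A B γ γ' 1 = γ' 1 * (((t : ℤ) ^ 2 - A) * γ 2 + 2 * γ 0) +
          γ 1 * (((t : ℤ) ^ 2 - A) * γ' 2 + 2 * γ' 0) -
          ((t : ℤ) ^ 2 + A) * (γ 2 * (γ' 1 - t * γ' 2) + γ' 2 * (γ 1 - t * γ 2)) -
          2 * γ 2 * γ' 2 * ((t : ℤ) ^ 3 + A * t + B) := by
        simp [mul3]
        ring
      rw [e1]
      exact dvd_sub (dvd_sub (dvd_add (hv.mul_left _) (hv'.mul_left _))
        ((dvd_add (hu'.mul_left _) (hu.mul_left _)).mul_left _)) (hf.mul_left _)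
    · have e1 : 2 * mul3 A B γ γ' 1 = (2 * γ 0) * γ' 1 + (2 * γ' 0) * γ 1 -
          (2 * A * γ' 2) * γ 1 - (2 * A * γ 2) * γ' 1 - (2 * B * γ' 2) * γ 2 := by
        simp [mul3]
        ring
      rw [e1]
      exact dvd_sub (dvd_sub (dvd_sub (dvd_add (h1'.mul_left _) (h1.mul_left _)) (h1.mul_left _))
        (h1'.mul_left _)) (h2.mul_left _)
  · apply clp_lcm
    · have e1 : 2 * mul3 A B γ γ' 2 = γ' 2 * (((t : ℤ) ^ 2 - A) * γ 2 + 2 * γ 0) +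
          γ 2 * (((t : ℤ) ^ 2 - A) * γ' 2 + 2 * γ' 0) +
          2 * γ' 1 * (γ 1 - t * γ 2) + 2 * t * γ 2 * (γ' 1 - t * γ' 2) := by
        simp [mul3]
        ring
      rw [e1]
      exact dvd_add (dvd_add (dvd_add (hv.mul_left _) (hv'.mul_left _)) (hu.mul_left _)) (hu'.mul_left _)
    · have e1 : 2 * mul3 A B γ γ' 2 = (2 * γ 0) * γ' 2 + (2 * γ' 1) * γ 1 + (2 * γ' 0) * γ 2 -
          (2 * A * γ' 2) * γ 2 := by
        simp [mul3]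
        ring
      rw [e1]
      exact dvd_sub (dvd_add (dvd_add (h2'.mul_left _) (h1.mul_left _)) (h2.mul_left _)) (h2.mul_left _)

theorem cl_card (A B : ℤ) (hD : 4 * A ^ 3 + 27 * B ^ 2 ≠ 0) : ∃ K : ℕ, ∀ N : ℕ, 0 < N →
    ∑ e ∈ N.divisors, ((Finset.range (Rr N e)).filter
      (fun t : ℕ => ((Rr N e : ℕ) : ℤ) ∣ (t : ℤ) ^ 3 + A * t + B)).card ≤ K * N.divisors.card ^ 3 := by
  obtain ⟨K, -, hK⟩ := rts A B hD
  refine ⟨K, fun N hN => ?_⟩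
  have h1 : ∀ e ∈ N.divisors, ((Finset.range (Rr N e)).filter
      (fun t : ℕ => ((Rr N e : ℕ) : ℤ) ∣ (t : ℤ) ^ 3 + A * t + B)).card ≤ K * N.divisors.card ^ 2 := by
    intro e he
    obtain ⟨h2, h3, -⟩ := clp_rr hN (Nat.dvd_of_mem_divisors he)
    refine (hK (Rr N e) h2).trans (Nat.mul_le_mul_left _ (Nat.pow_le_pow_left ?_ 2))
    exact Finset.card_le_card (Nat.divisors_subset_of_dvd hN.ne' h3)
  calc ∑ e ∈ N.divisors, ((Finset.range (Rr N e)).filter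
      (fun t : ℕ => ((Rr N e : ℕ) : ℤ) ∣ (t : ℤ) ^ 3 + A * t + B)).card
      ≤ ∑ e ∈ N.divisors, K * N.divisors.card ^ 2 := Finset.sum_le_sum h1
    _ = K * N.divisors.card ^ 3 := by
      rw [Finset.sum_const, smul_eq_mul]
      ring

end Pool.Agent.H80.PZ
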