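import Pool.Agent.H12.EH.Main
import Pool.Agent.H80.PT.Mv
import Pool.Agent.H80.PS.Zero

/-!
[H80 PZ CRD]  From the count of pairs to the count of twists, exponent `3/2`.

`SumB`: the conclusion of `sumz`, `sumz1`.  `S3`: the `d` with a pair of height at most `K Y²`, `Y ≤ K a^(3/2) X^(-ε)`, `a` the label of `s`.
`card3`: as `card0` in Pool/Agent/H80/PS/Zero.lean (copy its private lemmas `inj`, `lg`, `Gf_ne`): `1 ≤ a ≤ d ≤ X`; `dya2` for `a`, class `M ≤ a ≤ 2 M`; `Y ≤ K (2M)^(3/2) X^(-ε)`,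
`H = K (K (2M)^(3/2) X^(-ε))² = 8 K³ M³ X^(-2ε)`; if the class is not empty then `1 ≤ s ≤ K Y² ≤ H`.  `SumB` with `ε / 16` (or smaller) and `P = M`:
`X / M √(H / M) = X √(8 K³) X^(-ε)`, `√X ≤ X^(1 - ε)` (`ε ≤ 1/4`), `(H X)^(ε') ≤ (8 K³ X⁴)^(ε')`.  (No case distinction is needed.)
-/

set_option autoImplicit false

namespace Pool.Agent.H80.PZ

open Pool.Agent.H12.EH Pool.Agent.H80.PT

/-- the count of pairs -/
def SumB (A B : ℤ) : Prop := ∀ ε : ℝ, 0 < ε → ∃ C : ℝ, 0 < C ∧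
    ∀ H X P : ℝ, 1 ≤ H → 1 ≤ X → 1 ≤ P → ∀ T : Finset (ℤ × ℤ),
    (∀ p ∈ T, IsCoprime p.1 p.2 ∧ 0 < p.2 ∧ |(p.1 : ℝ)| ≤ H ∧ (p.2 : ℝ) ≤ H ∧ Gf A B p.1 p.2 ≠ 0 ∧
      ∃ a g y w : ℕ, Squarefree g ∧ 0 < y ∧ 0 < w ∧ p.2 = a * y ^ 2 ∧ Gf A B p.1 p.2 = g * w ^ 2 ∧ P ≤ a ∧
        (a : ℝ) * g ≤ X) →
    (T.card : ℝ) ≤ C * (H * X) ^ ε * (X / P * √(H / P) + √X)

/-- the `d` with a pair of height at most `K Y²`, `Y ≤ K a^(3/2) X^(-ε)` -/
def S3 (A B : ℤ) (K X ε : ℝ) : Set ℕ :=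
  {d | ∃ (Y : ℝ) (r s : ℤ) (a g y w : ℕ), d ∈ low A B X Y ∧ Tw A B (K * Y ^ 2) d r s ∧
    Squarefree g ∧ 0 < y ∧ 0 < w ∧ s = a * y ^ 2 ∧ Gf A B r s = g * w ^ 2 ∧ a * g = d ∧ 0 < Y ∧
    Y ≤ K * (a : ℝ) ^ (3 / 2 : ℝ) * X ^ (-ε)}

theorem S3_fin (A B : ℤ) (K X ε : ℝ) : (S3 A B K X ε).Finite := by
  refine (Set.finite_Iic ⌊X⌋₊).subset ?_
  rintro d ⟨Y, r, s, a, g, y, w, hlow, -⟩
  exact Nat.le_floor hlow.1

private theorem inj {A B : ℤ} (Z : Finset ℕ) {R : ℤ × ℤ → Prop} (h : ∀ d ∈ Z, Squarefree d ∧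
    ∃ p : ℤ × ℤ, R p ∧ ∃ w : ℤ, w ≠ 0 ∧ p.2 * Gf A B p.1 p.2 = d * w ^ 2) :
    ∃ T : Finset (ℤ × ℤ), (∀ p ∈ T, R p) ∧ (Z.card : ℝ) ≤ T.card := by
  classical
  have key : ∀ d ∈ Z, ∃ p : ℤ × ℤ, R p ∧ ∃ w : ℤ, w ≠ 0 ∧ p.2 * Gf A B p.1 p.2 = d * w ^ 2 := fun d hd => (h d hd).2
  choose! f hf w hw0 hw using key
  refine ⟨Z.image f, ?_, ?_⟩
  · intro p hp
    rw [Finset.mem_image] at hp
    obtain ⟨d, hd, rfl⟩ := hp
    exact hf d hd
  · have h1 : (Z.image f).card = Z.card := by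
      apply Finset.card_image_of_injOn
      intro d hd d' hd' hdd
      have hd := Finset.mem_coe.mp hd
      have hd' := Finset.mem_coe.mp hd'
      have g1 := hw d hd
      have g2 := hw d' hd'
      rw [hdd, g2] at g1
      apply sqf_unique (h d hd).1 (h d' hd').1 (Int.natAbs_ne_zero.mpr (hw0 d' hd')) (a := (w d).natAbs)
      have h3 : (d : ℤ) * (w d) ^ 2 = d' * (w d') ^ 2 := g1.symm
      have h4 := congrArg Int.natAbs h3
      rw [Int.natAbs_mul, Int.natAbs_mul, Int.natAbs_pow, Int.natAbs_pow, Int.natAbs_natCast, Int.natAbs_natCast] at h4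
      exact h4
    rw [h1]

private theorem lg {K : ℝ} (hK : 1 ≤ K) (ε : ℝ) (hε : 0 < ε) : ∃ C : ℝ, 0 < C ∧ ∀ X : ℝ, 1 ≤ X →
    ((Nat.log 2 ⌊K * X⌋₊ : ℕ) : ℝ) + 1 ≤ C * X ^ ε := by
  obtain ⟨C, hC, h⟩ := log_pow_le 1 ε hε
  refine ⟨2 * C * K ^ ε, by positivity, ?_⟩
  intro X hX
  have hK0 : 0 < K := by linarith
  have hX0 : 0 < X := by linarith
  have hKX : 1 ≤ K * X := one_le_mul_of_one_le_of_one_le hK hX
  have h1 := h (K * X) hKX
  rw [pow_one, Real.mul_rpow hK0.le hX0.le] at h1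
  have hfl : 1 ≤ ⌊K * X⌋₊ := Nat.le_floor (by simpa using hKX)
  have h2 : (2 : ℝ) ^ (Nat.log 2 ⌊K * X⌋₊) ≤ K * X := by
    have e1 : 2 ^ (Nat.log 2 ⌊K * X⌋₊) ≤ ⌊K * X⌋₊ := Nat.pow_log_le_self 2 (by omega)
    have e2 : ((2 ^ (Nat.log 2 ⌊K * X⌋₊) : ℕ) : ℝ) ≤ (⌊K * X⌋₊ : ℝ) := by exact_mod_cast e1
    push_cast at e2
    exact e2.trans (Nat.floor_le (by linarith))
  have e1 : ((Nat.log 2 ⌊K * X⌋₊ : ℕ) : ℝ) * Real.log 2 ≤ Real.log (K * X) := by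
    rw [← Real.log_pow]
    exact Real.log_le_log (by positivity) h2
  have e2 : (1 / 2 : ℝ) ≤ Real.log 2 := by
    have := Real.log_two_gt_d9
    linarith
  have e3 : ((Nat.log 2 ⌊K * X⌋₊ : ℕ) : ℝ) * (1 / 2) ≤ ((Nat.log 2 ⌊K * X⌋₊ : ℕ) : ℝ) * Real.log 2 :=
    mul_le_mul_of_nonneg_left e2 (Nat.cast_nonneg _)
  calc ((Nat.log 2 ⌊K * X⌋₊ : ℕ) : ℝ) + 1 ≤ 2 * (Real.log (K * X) + 1) := by linarith
    _ ≤ 2 * (C * (K ^ ε * X ^ ε)) := by linarith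
    _ = _ := by ring

private theorem Gf_ne {A B : ℤ} {d : ℕ} (hd : Squarefree d) {r s w : ℤ} (hw : w ≠ 0) (h : s * Gf A B r s = d * w ^ 2) :
    Gf A B r s ≠ 0 := by
  intro h0
  rw [h0, mul_zero] at h
  have h7 : (d : ℤ) ≠ 0 := by exact_mod_cast hd.ne_zero
  exact (mul_ne_zero h7 (pow_ne_zero 2 hw)) h.symm

theorem card3 {A B : ℤ} (hS : SumB A B) {K : ℝ} (hK : 1 ≤ K) (ε : ℝ) (hε : 0 < ε) (hε4 : ε ≤ 1 / 4) :
    ∃ C : ℝ, 0 < C ∧ ∀ X : ℝ, 1 ≤ X → ((S3 A B K X ε).ncard : ℝ) ≤ C * X ^ (1 - ε / 8) := by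
  classical
  obtain ⟨C1, hC1, h1⟩ := hS (ε / 16) (by positivity)
  obtain ⟨C2, hC2, h2⟩ := lg (le_refl (1 : ℝ)) (ε / 8) (by positivity)
  have hK0 : 0 < K := by linarith
  obtain ⟨Q, hQ⟩ : ∃ Q : ℝ, Q = 8 * K ^ 3 := ⟨_, rfl⟩
  have hQ0 : 0 < Q := by rw [hQ]; positivity
  refine ⟨C2 * (C1 * Q ^ (ε / 16) * (√Q + 1)), by positivity, ?_⟩
  intro X hX
  have hX0 : 0 < X := by linarith
  have hXn : 0 < X ^ (-ε) := Real.rpow_pos_of_pos hX0 _
  obtain ⟨T, hT⟩ : ∃ T : Finset ℕ, T = (S3_fin A B K X ε).toFinset := ⟨_, rfl⟩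
  have hcard : ((S3 A B K X ε).ncard : ℝ) = T.card := by
    rw [hT, Set.ncard_eq_toFinset_card _ (S3_fin A B K X ε)]
  have hmem : ∀ d ∈ T, d ∈ S3 A B K X ε := by
    intro d hd
    rw [hT, Set.Finite.mem_toFinset] at hd
    exact hd
  rw [hcard]
  choose! Y r s a g y z hlow hTw hg hy hz hs hG had hY0 hYb using hmem
  have hapos : ∀ d ∈ T, 1 ≤ a d ∧ (a d : ℝ) ≤ X := by
    intro d hd
    have h5 := had d hd
    have h6 : d ≠ 0 := (hlow d hd).2.1.ne_zero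
    have h7 : a d ≠ 0 := by
      intro h0
      rw [h0, zero_mul] at h5
      exact h6 h5.symm
    refine ⟨Nat.one_le_iff_ne_zero.mpr h7, le_trans ?_ (hlow d hd).1⟩
    have h8 : a d ≤ d := Nat.le_of_dvd (Nat.pos_of_ne_zero h6) (Dvd.intro _ h5)
    exact_mod_cast h8
  have hM0 : 0 ≤ (C1 * Q ^ (ε / 16) * (√Q + 1)) * X ^ (1 - ε / 4) := by positivity
  have hdy := dya2 T (fun d => a d) ⌊1 * X⌋₊ ((C1 * Q ^ (ε / 16) * (√Q + 1)) * X ^ (1 - ε / 4)) hM0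
    (by
      intro d hd
      exact ⟨(hapos d hd).1, Nat.le_floor (by rw [one_mul]; exact (hapos d hd).2)⟩)
    (by
      intro k hk T' hT' hk2
      rcases T'.eq_empty_or_nonempty with hTe | ⟨d0, hd0⟩
      · rw [hTe, Finset.card_empty, Nat.cast_zero]
        exact hM0
      obtain ⟨M, hM⟩ : ∃ M : ℝ, M = (2 : ℝ) ^ k := ⟨_, rfl⟩
      have hM1 : 1 ≤ M := by rw [hM]; exact one_le_pow₀ (by norm_num)
      have hMp : 0 < M := by linarith
      have hMa : ∀ d ∈ T', M ≤ (a d : ℝ) ∧ (a d : ℝ) ≤ 2 * M := by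
        intro d hd
        rw [hM]
        exact ⟨by exact_mod_cast (hk2 d hd).1, by exact_mod_cast (hk2 d hd).2⟩
      have hMX : M ≤ X := (hMa d0 hd0).1.trans (hapos d0 (hT' hd0)).2
      have hYM : ∀ d ∈ T', Y d ≤ K * (2 * M) ^ (3 / 2 : ℝ) * X ^ (-ε) := by
        intro d hd
        have e1 := hYb d (hT' hd)
        refine e1.trans (mul_le_mul_of_nonneg_right ?_ hXn.le)
        refine mul_le_mul_of_nonneg_left ?_ hK0.le
        exact Real.rpow_le_rpow (Nat.cast_nonneg _) (hMa d hd).2 (by norm_num)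
      obtain ⟨H, hH⟩ : ∃ H : ℝ, H = Q * (M ^ 3 * X ^ (-(2 * ε))) := ⟨_, rfl⟩
      have hYH : ∀ d ∈ T', K * Y d ^ 2 ≤ H := by
        intro d hd
        have e1 : Y d ^ 2 ≤ K ^ 2 * (2 * M) ^ 3 * X ^ (-(2 * ε)) := by
          calc Y d ^ 2 ≤ (K * (2 * M) ^ (3 / 2 : ℝ) * X ^ (-ε)) ^ 2 :=
                pow_le_pow_left₀ (hY0 d (hT' hd)).le (hYM d hd) 2
            _ = K ^ 2 * (2 * M) ^ 3 * X ^ (-(2 * ε)) := by
              have g0 : ((2 * M) ^ (3 / 2 : ℝ)) ^ 2 = (2 * M) ^ 3 := by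
                rw [← Real.rpow_natCast, ← Real.rpow_mul (by positivity), ← Real.rpow_natCast (2 * M) 3]
                congr 1
                norm_num
              have g2 : (X ^ (-ε)) ^ 2 = X ^ (-(2 * ε)) := by
                rw [← Real.rpow_natCast, ← Real.rpow_mul hX0.le]
                congr 1
                push_cast
                ring
              rw [mul_pow, mul_pow, g0, g2]
        calc K * Y d ^ 2 ≤ K * (K ^ 2 * (2 * M) ^ 3 * X ^ (-(2 * ε))) := mul_le_mul_of_nonneg_left e1 hK0.le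
          _ = H := by rw [hH, hQ]; ring
      have hH1 : 1 ≤ H := by
        obtain ⟨t1, t2, t3, t4, -⟩ := hTw d0 (hT' hd0)
        have e2 : (1 : ℝ) ≤ (s d0 : ℝ) := by exact_mod_cast t2
        exact e2.trans (t4.trans (hYH d0 hd0))
      obtain ⟨TT, hTT, hTc⟩ := inj (A := A) (B := B) T' (R := fun p => IsCoprime p.1 p.2 ∧ 0 < p.2 ∧
        |(p.1 : ℝ)| ≤ H ∧ (p.2 : ℝ) ≤ H ∧ Gf A B p.1 p.2 ≠ 0 ∧
        ∃ a g y w : ℕ, Squarefree g ∧ 0 < y ∧ 0 < w ∧ p.2 = a * y ^ 2 ∧ Gf A B p.1 p.2 = g * w ^ 2 ∧ M ≤ a ∧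
        (a : ℝ) * g ≤ X) (by
          intro d hd
          have hdT := hT' hd
          obtain ⟨t1, t2, t3, t4, w, hw, t5⟩ := hTw d hdT
          have hsq : Squarefree d := (hlow d hdT).2.1
          have hHd := hYH d hd
          refine ⟨hsq, (r d, s d), ⟨t1, t2, t3.trans hHd, t4.trans hHd, Gf_ne hsq hw t5, a d, g d, y d, z d, hg d hdT,
            hy d hdT, hz d hdT, hs d hdT, hG d hdT, (hMa d hd).1, ?_⟩, w, hw, t5⟩
          have e1 : (a d : ℝ) * (g d : ℝ) = (d : ℝ) := by exact_mod_cast had d hdT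
          rw [e1]
          exact (hlow d hdT).1)
      have h4 := h1 H X M hH1 hX hM1 TT hTT
      refine hTc.trans (h4.trans ?_)
      have hXe : 0 < X ^ (1 - ε) := Real.rpow_pos_of_pos hX0 _
      have g1 : X / M * √(H / M) = √Q * X ^ (1 - ε) := by
        have e1 : H / M = Q * (M * X ^ (-ε)) ^ 2 := by
          have e2 : (X ^ (-ε)) ^ 2 = X ^ (-(2 * ε)) := by
            rw [← Real.rpow_natCast, ← Real.rpow_mul hX0.le]
            congr 1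
            push_cast
            ring
          rw [mul_pow, e2, hH]
          field_simp
        have e3 : X * X ^ (-ε) = X ^ (1 - ε) := by
          rw [sub_eq_add_neg, Real.rpow_add hX0, Real.rpow_one]
        rw [e1, Real.sqrt_mul hQ0.le, Real.sqrt_sq (by positivity), ← e3]
        field_simp
      have g2 : √X ≤ X ^ (1 - ε) := by
        rw [Real.sqrt_eq_rpow]
        exact Real.rpow_le_rpow_of_exponent_le hX (by linarith)
      have g4 : (H * X) ^ (ε / 16) ≤ Q ^ (ε / 16) * X ^ (ε / 4) := by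
        have e1 : H * X ≤ Q * X ^ 4 := by
          have e2 : M ^ 3 ≤ X ^ 3 := pow_le_pow_left₀ hMp.le hMX 3
          have e3 : X ^ (-(2 * ε)) ≤ 1 := Real.rpow_le_one_of_one_le_of_nonpos hX (by linarith)
          have e4 : M ^ 3 * X ^ (-(2 * ε)) ≤ X ^ 3 * 1 := mul_le_mul e2 e3 (by positivity) (by positivity)
          rw [hH]
          calc Q * (M ^ 3 * X ^ (-(2 * ε))) * X ≤ Q * (X ^ 3 * 1) * X :=
                mul_le_mul_of_nonneg_right (mul_le_mul_of_nonneg_left e4 hQ0.le) hX0.le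
            _ = Q * X ^ 4 := by ring
        refine (Real.rpow_le_rpow (by positivity) e1 (by positivity)).trans (le_of_eq ?_)
        rw [Real.mul_rpow hQ0.le (by positivity), ← Real.rpow_natCast X 4, ← Real.rpow_mul hX0.le]
        congr 2
        push_cast
        ring
      have g5 : 0 ≤ X / M * √(H / M) + √X := by positivity
      calc C1 * (H * X) ^ (ε / 16) * (X / M * √(H / M) + √X)
          ≤ C1 * (Q ^ (ε / 16) * X ^ (ε / 4)) * ((√Q + 1) * X ^ (1 - ε)) := by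
            refine mul_le_mul (mul_le_mul_of_nonneg_left g4 hC1.le) ?_ g5 (by positivity)
            rw [g1]
            linarith
        _ = C1 * Q ^ (ε / 16) * (√Q + 1) * X ^ (ε / 4 + (1 - ε)) := by
            rw [Real.rpow_add hX0 (ε / 4)]
            ring
        _ ≤ C1 * Q ^ (ε / 16) * (√Q + 1) * X ^ (1 - ε / 4) := by
            refine mul_le_mul_of_nonneg_left ?_ (by positivity)
            exact Real.rpow_le_rpow_of_exponent_le hX (by linarith))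
  refine hdy.trans ?_
  calc ((Nat.log 2 ⌊1 * X⌋₊ : ℕ) + 1 : ℝ) * ((C1 * Q ^ (ε / 16) * (√Q + 1)) * X ^ (1 - ε / 4))
      ≤ (C2 * X ^ (ε / 8)) * ((C1 * Q ^ (ε / 16) * (√Q + 1)) * X ^ (1 - ε / 4)) :=
        mul_le_mul_of_nonneg_right (h2 X hX) hM0
    _ = C2 * (C1 * Q ^ (ε / 16) * (√Q + 1)) * X ^ (ε / 8 + (1 - ε / 4)) := by
        rw [Real.rpow_add hX0 (ε / 8)]
        ring
    _ = C2 * (C1 * Q ^ (ε / 16) * (√Q + 1)) * X ^ (1 - ε / 8) := by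
        congr 2
        ring

end Pool.Agent.H80.PZ
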