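import Pool.Agent.H12.EH.Acnt0

/-!
# Twists with a large prime factor without root (MP_c60b8d_nt): definitions

`Pz`: `ζ` is the point with label `(c, m)` above `(r, s)`, and `z² ∣ s`.
`Rr N e`, `Cl`: the classes `(e, t)` modulo `N` of the elements `γ` of the cubic order with `γ²` rational modulo `N`.
-/

set_option autoImplicit false

namespace Pool.Agent.H80.PZ

open Pool.Agent.H12.EH

/-- `ζ` is the point with label `(c, m)` above the pair `(r, s)`, `z² ∣ s` -/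
structure Pz (A B : ℤ) (c : Fin 3 → ℤ) (m g z : ℕ) (r s : ℤ) (ζ : Fin 3 → ℤ) : Prop where
  cop : IsCoprime r s
  dvd : (z : ℤ) ^ 2 ∣ s
  eq : mul3 A B c (mul3 A B ζ ζ) = ![(m : ℤ) ^ 2 * r, -((m : ℤ) ^ 2 * s), 0]
  nrm : nrm3 A B c = (m : ℤ) ^ 4 * g

/-- the modulus of the root in the class `e` -/
def Rr (N e : ℕ) : ℕ := (N / e) / Nat.gcd (N / e) e

/-- `γ` is in the class `(e, t)` modulo `N` -/
def Cl (A B : ℤ) (N b e t : ℕ) (γ : Fin 3 → ℤ) : Prop :=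
  e ∣ N ∧ (e : ℤ) ∣ γ 1 ∧ (e : ℤ) ∣ γ 2 ∧ Nat.gcd (N / e) e ≤ b ∧ t < Rr N e ∧
    ((Rr N e : ℕ) : ℤ) ∣ (t : ℤ) ^ 3 + A * t + B ∧ ((Rr N e : ℕ) : ℤ) ∣ γ 1 - t * γ 2 ∧
    ((Rr N e / Nat.gcd (Rr N e) e : ℕ) : ℤ) ∣ ((t : ℤ) ^ 2 - A) * γ 2 + 2 * γ 0

theorem nrm3_lin (A B a b : ℤ) : nrm3 A B ![a, -b, 0] = Gf A B a b := by
  simp [nrm3, mul3, adj3, Gf]
  ring

theorem Pz.gnrm {A B : ℤ} {c : Fin 3 → ℤ} {m g z : ℕ} {r s : ℤ} {ζ : Fin 3 → ℤ} (hm : 0 < m)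
    (h : Pz A B c m g z r s ζ) : (g : ℤ) * nrm3 A B ζ ^ 2 = (m : ℤ) ^ 2 * Gf A B r s := by
  have h1 := congrArg (nrm3 A B) h.eq
  rw [nrm3_mul, nrm3_mul, nrm3_lin, h.nrm] at h1
  have h2 : Gf A B ((m : ℤ) ^ 2 * r) ((m : ℤ) ^ 2 * s) = (m : ℤ) ^ 6 * Gf A B r s := by
    unfold Gf
    ring
  rw [h2] at h1
  have hm0 : ((m : ℤ) ^ 4) ≠ 0 := by positivity
  apply mul_left_cancel₀ hm0
  linear_combination h1

theorem Gf_cop {A B r s : ℤ} (h : IsCoprime r s) {k : ℤ} {n : ℕ} (hk : k ∣ s ^ n) : IsCoprime k (Gf A B r s) := by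
  have h1 : IsCoprime (Gf A B r s) s := by
    have h2 : IsCoprime (r ^ 3) s := h.pow_left
    have h3 : Gf A B r s = r ^ 3 + s * (A * r * s + B * s ^ 2) := by
      unfold Gf
      ring
    rw [h3]
    exact IsCoprime.add_mul_left_left h2 _
  exact (h1.symm.pow_left (m := n)).of_isCoprime_of_dvd_left hk

/-- a divisor of a power of `z` is coprime to `Gf` -/
theorem Pz.copG {A B : ℤ} {c : Fin 3 → ℤ} {m g z : ℕ} {r s : ℤ} {ζ : Fin 3 → ℤ}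
    (h : Pz A B c m g z r s ζ) {k : ℤ} {n : ℕ} (hk : k ∣ (z : ℤ) ^ n) : IsCoprime k (Gf A B r s) := by
  apply Gf_cop h.cop (n := n)
  refine hk.trans ?_
  apply pow_dvd_pow_of_dvd
  exact (dvd_pow_self _ (by norm_num)).trans h.dvd

/-- cancel the norm of `ζ` -/
theorem Pz.canN {A B : ℤ} {c : Fin 3 → ℤ} {m g z : ℕ} {r s : ℤ} {ζ : Fin 3 → ℤ} (hm : 0 < m)
    (h : Pz A B c m g z r s ζ) {k : ℤ} {n : ℕ} (hk : k ∣ (z : ℤ) ^ n) {X : ℤ} (hX : k ∣ X * nrm3 A B ζ) :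
    k ∣ X * (m : ℤ) ^ 2 := by
  have h1 : k ∣ (X * (m : ℤ) ^ 2) * Gf A B r s := by
    have h2 : (X * (m : ℤ) ^ 2) * Gf A B r s = (X * nrm3 A B ζ) * (g * nrm3 A B ζ) := by
      linear_combination (-X) * h.gnrm hm
    rw [h2]
    exact hX.mul_right _
  exact (h.copG hk).dvd_of_dvd_mul_right h1

/-- cancel `g` -/
theorem Pz.cang {A B : ℤ} {c : Fin 3 → ℤ} {m g z : ℕ} {r s : ℤ} {ζ : Fin 3 → ℤ} (hm : 0 < m)
    (h : Pz A B c m g z r s ζ) {k : ℤ} {n : ℕ} (hk : k ∣ (z : ℤ) ^ n) {X : ℤ} (hX : k ∣ X * g) :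
    k ∣ X * (m : ℤ) ^ 2 := by
  have h1 : k ∣ (X * (m : ℤ) ^ 2) * Gf A B r s := by
    have h2 : (X * (m : ℤ) ^ 2) * Gf A B r s = (X * g) * nrm3 A B ζ ^ 2 := by
      linear_combination (-X) * h.gnrm hm
    rw [h2]
    exact hX.mul_right _
  exact (h.copG hk).dvd_of_dvd_mul_right h1

end Pool.Agent.H80.PZ
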