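import Pool.Agent.H80.PZ.Defs
import Pool.Agent.H12.EH.Alg2

/-!
[H80 PZ EMB]  One rational root `e`: elements of the cubic order from a number and an element of the quadratic order.

`emb A e x μ` is `Δ x` at `T = e` and `Δ μ` modulo `q(T) = T² + e T + e² + A`, `Δ = 3 e² + A`.
-/

set_option autoImplicit false

namespace Pool.Agent.H80.PZ

open Pool.Agent.H12.EH

/-- the element with the components `Δ x` and `Δ μ` -/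
def emb (A e x : ℤ) (μ : Fin 2 → ℤ) : Fin 3 → ℤ :=
  ![(3 * e ^ 2 + A) * μ 0 + (x - μ 0 - μ 1 * e) * (e ^ 2 + A),
    (3 * e ^ 2 + A) * μ 1 + (x - μ 0 - μ 1 * e) * e, x - μ 0 - μ 1 * e]

theorem mul3_sm (A B k l : ℤ) (c d : Fin 3 → ℤ) (i : Fin 3) :
    mul3 A B (fun j => k * c j) (fun j => l * d j) i = k * l * mul3 A B c d i := by
  fin_cases i <;> simp [mul3] <;> ring

theorem nrm3_sm (A B k : ℤ) (c : Fin 3 → ℤ) : nrm3 A B (fun j => k * c j) = k ^ 3 * nrm3 A B c := by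
  simp [nrm3, mul3, adj3]
  ring

theorem emb_mul {A B e : ℤ} (he : e ^ 3 + A * e + B = 0) (x x' : ℤ) (μ μ' : Fin 2 → ℤ) (i : Fin 3) :
    mul3 A B (emb A e x μ) (emb A e x' μ') i = (3 * e ^ 2 + A) * emb A e (x * x') (mul2 A e μ μ') i := by
  have hB : B = -e ^ 3 - A * e := by linear_combination he
  subst hB
  fin_cases i <;> simp [mul3, mul2, emb] <;> ring

theorem emb_nrm {A B e : ℤ} (he : e ^ 3 + A * e + B = 0) (x : ℤ) (μ : Fin 2 → ℤ) :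
    nrm3 A B (emb A e x μ) = (3 * e ^ 2 + A) ^ 3 * (x * nrm2 A e μ) := by
  have hB : B = -e ^ 3 - A * e := by linear_combination he
  subst hB
  simp [mul3, nrm3, adj3, nrm2, emb]
  ring

theorem emb_lin (A e r s : ℤ) (i : Fin 3) :
    emb A e (r - e * s) ![r, -s] i = (3 * e ^ 2 + A) * ![r, -s, 0] i := by
  fin_cases i
  · show (3 * e ^ 2 + A) * r + (r - e * s - r - -s * e) * (e ^ 2 + A) = (3 * e ^ 2 + A) * r
    ring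
  · show (3 * e ^ 2 + A) * -s + (r - e * s - r - -s * e) * e = (3 * e ^ 2 + A) * -s
    ring
  · show r - e * s - r - -s * e = (3 * e ^ 2 + A) * 0
    ring

theorem emb_sm (A e k x : ℤ) (μ : Fin 2 → ℤ) (i : Fin 3) :
    emb A e (k * x) (fun j => k * μ j) i = k * emb A e x μ i := by
  fin_cases i <;> simp [emb] <;> ring

theorem pz_emb {A B e : ℤ} (he : e ^ 3 + A * e + B = 0) {r s a1 a2 y1 : ℤ} {μ ζ : Fin 2 → ℤ} {m h g z : ℕ}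
    (hc : IsCoprime r s) (hz : (z : ℤ) ^ 2 ∣ s) (h1 : r - e * s = a1 * y1 ^ 2)
    (h2 : mul2 A e μ (mul2 A e ζ ζ) = ![(m : ℤ) ^ 2 * r, -((m : ℤ) ^ 2 * s)])
    (h3 : nrm2 A e μ = (m : ℤ) ^ 2 * a2) (h4 : a1 * a2 = g * (h : ℤ) ^ 2) :
    Pz A B (fun i => ((h : ℤ) ^ 2 * (3 * e ^ 2 + A) ^ 3) * emb A e (a1 * (m : ℤ) ^ 2) μ i)
      (h ^ 2 * (3 * e ^ 2 + A).natAbs ^ 3 * m) g z r s (fun i => (h : ℤ) * emb A e y1 ζ i) := by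
  obtain ⟨D, hD⟩ : ∃ D : ℤ, D = 3 * e ^ 2 + A := ⟨_, rfl⟩
  have hDa : ((D.natAbs : ℕ) : ℤ) ^ 2 = D ^ 2 := Int.natAbs_sq D
  have hm2 : (((h ^ 2 * D.natAbs ^ 3 * m : ℕ)) : ℤ) ^ 2 = (h : ℤ) ^ 4 * D ^ 6 * (m : ℤ) ^ 2 := by
    rw [Nat.cast_mul, Nat.cast_mul, Nat.cast_pow, Nat.cast_pow]
    calc ((h : ℤ) ^ 2 * ((D.natAbs : ℕ) : ℤ) ^ 3 * m) ^ 2
        = (h : ℤ) ^ 4 * (((D.natAbs : ℕ) : ℤ) ^ 2) ^ 3 * (m : ℤ) ^ 2 := by ring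
      _ = _ := by rw [hDa]; ring
  rw [← hD]
  refine ⟨hc, hz, ?_, ?_⟩
  · funext i
    have e1 : mul3 A B (fun i => (h : ℤ) * emb A e y1 ζ i) (fun i => (h : ℤ) * emb A e y1 ζ i) =
        fun i => ((h : ℤ) ^ 2 * D) * emb A e (y1 * y1) (mul2 A e ζ ζ) i := by
      funext i
      rw [mul3_sm, emb_mul he, ← hD]
      ring
    rw [e1, mul3_sm, emb_mul he, h2, ← hD]
    have e2 : a1 * (m : ℤ) ^ 2 * (y1 * y1) = (m : ℤ) ^ 2 * (r - e * s) := by rw [h1]; ring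
    have e3 : (![(m : ℤ) ^ 2 * r, -((m : ℤ) ^ 2 * s)] : Fin 2 → ℤ) = fun j => (m : ℤ) ^ 2 * ![r, -s] j := by
      funext j
      fin_cases j <;> simp
    rw [e2, e3, emb_sm, emb_lin, ← hD]
    have e4 : (![(((h ^ 2 * D.natAbs ^ 3 * m : ℕ)) : ℤ) ^ 2 * r, -((((h ^ 2 * D.natAbs ^ 3 * m : ℕ)) : ℤ) ^ 2 * s), 0] : Fin 3 → ℤ) i =
        ((((h ^ 2 * D.natAbs ^ 3 * m : ℕ)) : ℤ) ^ 2) * ![r, -s, 0] i := by
      fin_cases i <;> simp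
    rw [e4, hm2]
    ring
  · rw [nrm3_sm, emb_nrm he, h3, ← hD]
    have e1 : (((h ^ 2 * D.natAbs ^ 3 * m : ℕ)) : ℤ) ^ 4 = ((h : ℤ) ^ 4 * D ^ 6 * (m : ℤ) ^ 2) ^ 2 := by
      rw [← hm2]
      ring
    rw [e1]
    linear_combination ((h : ℤ) ^ 6 * D ^ 12 * (m : ℤ) ^ 4) * h4

end Pool.Agent.H80.PZ
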