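import Pool.Agent.H80.PZ.Defs

/-!
[H80 PZ SQD]  `γ = ζ ζ₀*` has a square which is rational modulo (almost) `z²`.

`ζ₀* = adj3 ζ₀`, `n₀ = nrm3 ζ₀`, `ζ₀ ζ₀* = n₀` (`mul3_adj3`), `N = z²`.  As `z² ∣ s, s₀`: `c ζ² ≡ m² r`, `c ζ₀² ≡ m² r₀ (mod z²)` (coordinates).
`c γ² = (c ζ²) ζ₀*² ≡ m² r ζ₀*²`, `c n₀² = (c ζ₀²) ζ₀*² ≡ m² r₀ ζ₀*²`, so `r₀ c γ² ≡ r n₀² c`; multiply by `c*`: `nrm3 c · r₀ γ² ≡ nrm3 c · r n₀²`, so for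
`i = 1, 2` `z² ∣ nrm3 c · r₀ (γ²)_i = m⁴ g r₀ (γ²)_i`; `r₀` is coprime to `z²` (`h₀.cop`, `h₀.dvd`), `cang`: `z² ∣ m⁴ m² (γ²)_i`.
(Exact form: with `P = mul3 (adj3 c) (mul3 c (mul3 γ γ))`, `P i = nrm3 c (γ²)_i`, and `c ζ² = m² r - m² s T`, the difference
`m² r₀ · c γ² - ... ` is `z²` times an element; compute with `mul3_comm, mul3_assoc` and the linear maps; `![a, -b, 0] x = a x - b T x`.)
`k ∣ G m⁶` with `k = z²` gives `k / gcd(k, m⁶) ∣ G` (`Nat.Coprime`, `Nat.div_mul_cancel`).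
Second part: `h ∣ 2 γ₀, γ₁, γ₂` gives `h ∣ nrm3 (2 γ)`, more simply `h ∣ 8 nrm3 γ` (`nrm3 γ` is a cubic form in `γ₀, γ₁, γ₂`: `8 nrm3 γ` is a polynomial in
`2 γ₀, γ₁, γ₂` without constant term), `nrm3 γ = nrm3 ζ · nrm3 ζ₀* = nrm3 ζ · nrm3 ζ₀²` (`nrm3_mul`, `ring`), and three times `canN`
(`k = h ∣ z²`): `h ∣ 8 m⁶`, so `h ≤ 8 m⁶`.
-/

set_option autoImplicit false

namespace Pool.Agent.H80.PZ

open Pool.Agent.H12.EH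

private theorem canc (A B : ℤ) (c X : Fin 3 → ℤ) (i : Fin 3) :
    mul3 A B (adj3 A B c) (mul3 A B c X) i = nrm3 A B c * X i := by
  have h1 : mul3 A B (adj3 A B c) (mul3 A B c X) = mul3 A B ![nrm3 A B c, 0, 0] X := by
    rw [← mul3_adj3, ← mul3_assoc, mul3_comm A B (adj3 A B c) c]
  rw [h1]
  generalize nrm3 A B c = n
  fin_cases i <;> simp [mul3]

private theorem nrm3_adj (A B : ℤ) (c : Fin 3 → ℤ) : nrm3 A B (adj3 A B c) = nrm3 A B c ^ 2 := by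
  simp [nrm3, mul3, adj3]
  ring

private theorem rearr (A B : ℤ) (c x w : Fin 3 → ℤ) :
    mul3 A B c (mul3 A B (mul3 A B x w) (mul3 A B x w)) =
      mul3 A B (mul3 A B c (mul3 A B x x)) (mul3 A B w w) := by
  have h1 : mul3 A B (mul3 A B x w) (mul3 A B x w) = mul3 A B (mul3 A B x x) (mul3 A B w w) := by
    rw [mul3_assoc, ← mul3_assoc A B w x w, mul3_comm A B w x, mul3_assoc A B x w w, ← mul3_assoc]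
  rw [h1, ← mul3_assoc]

theorem sq_dvd {A B : ℤ} {c : Fin 3 → ℤ} {m g z : ℕ} {r s r₀ s₀ : ℤ} {ζ ζ₀ : Fin 3 → ℤ} (hm : 0 < m)
    (hg : 0 < g) (hz : 0 < z) (h : Pz A B c m g z r s ζ) (h₀ : Pz A B c m g z r₀ s₀ ζ₀) :
    ∀ i : Fin 3, i ≠ 0 → ((z ^ 2 / Nat.gcd (z ^ 2) (m ^ 6) : ℕ) : ℤ) ∣
      mul3 A B (mul3 A B ζ (adj3 A B ζ₀)) (mul3 A B ζ (adj3 A B ζ₀)) i := by
  intro i hi
  set W := mul3 A B (adj3 A B ζ₀) (adj3 A B ζ₀) with hW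
  set γ := mul3 A B ζ (adj3 A B ζ₀) with hγ
  obtain ⟨s', hs'⟩ := h.dvd
  obtain ⟨t', ht'⟩ := h₀.dvd
  have e1 : nrm3 A B c * mul3 A B γ γ i =
      mul3 A B (adj3 A B c) (mul3 A B ![(m : ℤ) ^ 2 * r, -((m : ℤ) ^ 2 * s), 0] W) i := by
    rw [← canc A B c (mul3 A B γ γ) i, hγ, rearr, h.eq]
  have e2 : 0 = mul3 A B (adj3 A B c) (mul3 A B ![(m : ℤ) ^ 2 * r₀, -((m : ℤ) ^ 2 * s₀), 0] W) i := by
    rw [← h₀.eq, hW, ← rearr A B c ζ₀ (adj3 A B ζ₀), canc, mul3_adj3]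
    have h0 : mul3 A B ![nrm3 A B ζ₀, 0, 0] ![nrm3 A B ζ₀, 0, 0] i = 0 := by
      fin_cases i
      · exact absurd rfl hi
      · simp [mul3]
      · simp [mul3]
    rw [h0, mul_zero]
  have e3 : r₀ * mul3 A B (adj3 A B c) (mul3 A B ![(m : ℤ) ^ 2 * r, -((m : ℤ) ^ 2 * s), 0] W) i -
      r * mul3 A B (adj3 A B c) (mul3 A B ![(m : ℤ) ^ 2 * r₀, -((m : ℤ) ^ 2 * s₀), 0] W) i =
      (m : ℤ) ^ 2 * (r * s₀ - r₀ * s) * mul3 A B (adj3 A B c) (mul3 A B ![0, 1, 0] W) i := by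
    generalize adj3 A B c = C
    generalize W = V
    fin_cases i <;> simp [mul3] <;> ring
  have e4 : (z : ℤ) ^ 2 ∣ ((m : ℤ) ^ 4 * mul3 A B γ γ i * g) * r₀ := by
    refine ⟨(m : ℤ) ^ 2 * (r * t' - r₀ * s') * mul3 A B (adj3 A B c) (mul3 A B ![0, 1, 0] W) i, ?_⟩
    have e5 : ((m : ℤ) ^ 4 * mul3 A B γ γ i * g) * r₀ = r₀ * (nrm3 A B c * mul3 A B γ γ i) := by
      rw [h.nrm]
      ring
    rw [e5, e1]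
    have e6 := e3
    rw [← e2, mul_zero, sub_zero] at e6
    rw [e6, hs', ht']
    ring
  have e7 : IsCoprime ((z : ℤ) ^ 2) r₀ := (h₀.cop.symm).of_isCoprime_of_dvd_left h₀.dvd
  have e8 := h.cang hm (dvd_refl _) (e7.dvd_of_dvd_mul_right e4)
  -- divide by the gcd
  have e9 : ((z ^ 2 : ℕ) : ℤ) ∣ mul3 A B γ γ i * ((m ^ 6 : ℕ) : ℤ) := by
    push_cast
    have e10 : mul3 A B γ γ i * (m : ℤ) ^ 6 = (m : ℤ) ^ 4 * mul3 A B γ γ i * (m : ℤ) ^ 2 := by ring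
    rw [e10]
    exact e8
  have hz2 : 0 < Nat.gcd (z ^ 2) (m ^ 6) := Nat.gcd_pos_of_pos_left _ (by positivity)
  have e11 : Nat.Coprime (z ^ 2 / Nat.gcd (z ^ 2) (m ^ 6)) (m ^ 6 / Nat.gcd (z ^ 2) (m ^ 6)) :=
    Nat.coprime_div_gcd_div_gcd hz2
  obtain ⟨q, hq⟩ := e9
  have e12 : ((z ^ 2 : ℕ) : ℤ) = ((z ^ 2 / Nat.gcd (z ^ 2) (m ^ 6) : ℕ) : ℤ) * (Nat.gcd (z ^ 2) (m ^ 6) : ℕ) := by
    exact_mod_cast (Nat.div_mul_cancel (Nat.gcd_dvd_left (z ^ 2) (m ^ 6))).symm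
  have e13 : ((m ^ 6 : ℕ) : ℤ) = ((m ^ 6 / Nat.gcd (z ^ 2) (m ^ 6) : ℕ) : ℤ) * (Nat.gcd (z ^ 2) (m ^ 6) : ℕ) := by
    exact_mod_cast (Nat.div_mul_cancel (Nat.gcd_dvd_right (z ^ 2) (m ^ 6))).symm
  rw [e12, e13] at hq
  have e14 : ((Nat.gcd (z ^ 2) (m ^ 6) : ℕ) : ℤ) ≠ 0 := by exact_mod_cast hz2.ne'
  have e15 : mul3 A B γ γ i * ((m ^ 6 / Nat.gcd (z ^ 2) (m ^ 6) : ℕ) : ℤ) =
      ((z ^ 2 / Nat.gcd (z ^ 2) (m ^ 6) : ℕ) : ℤ) * q := by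
    apply mul_right_cancel₀ e14
    linear_combination hq
  exact (Nat.isCoprime_iff_coprime.mpr e11).dvd_of_dvd_mul_right ⟨q, e15⟩

theorem sq_bd {A B : ℤ} {c : Fin 3 → ℤ} {m g z : ℕ} {r s r₀ s₀ : ℤ} {ζ ζ₀ : Fin 3 → ℤ} (hm : 0 < m)
    (hz : 0 < z) (h : Pz A B c m g z r s ζ) (h₀ : Pz A B c m g z r₀ s₀ ζ₀) (k : ℕ) (hk : k ∣ z ^ 2)
    (k0 : (k : ℤ) ∣ 2 * mul3 A B ζ (adj3 A B ζ₀) 0) (k1 : (k : ℤ) ∣ mul3 A B ζ (adj3 A B ζ₀) 1)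
    (k2 : (k : ℤ) ∣ mul3 A B ζ (adj3 A B ζ₀) 2) : k ≤ 8 * m ^ 6 := by
  have hkz : (k : ℤ) ∣ (z : ℤ) ^ 2 := by exact_mod_cast hk
  have e1 : (k : ℤ) ∣ 8 * nrm3 A B (mul3 A B ζ (adj3 A B ζ₀)) := by
    generalize mul3 A B ζ (adj3 A B ζ₀) = γ at k0 k1 k2
    obtain ⟨u, hu⟩ := k0
    obtain ⟨v, hv⟩ := k1
    obtain ⟨w, hw⟩ := k2
    have e2 : 8 * nrm3 A B γ = nrm3 A B ![2 * γ 0, 2 * γ 1, 2 * γ 2] := by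
      simp [nrm3, mul3, adj3]
      ring
    rw [e2, hu, hv, hw]
    have e3 : nrm3 A B ![(k : ℤ) * u, 2 * (k * v), 2 * (k * w)] = (k : ℤ) * (k ^ 2 * nrm3 A B ![u, 2 * v, 2 * w]) := by
      simp [nrm3, mul3, adj3]
      ring
    rw [e3]
    exact dvd_mul_right _ _
  rw [nrm3_mul, nrm3_adj] at e1
  have e2 : (k : ℤ) ∣ (8 * nrm3 A B ζ₀ ^ 2) * nrm3 A B ζ := by
    have : (8 * nrm3 A B ζ₀ ^ 2) * nrm3 A B ζ = 8 * (nrm3 A B ζ * nrm3 A B ζ₀ ^ 2) := by ring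
    rw [this]
    exact e1
  have e3 := h.canN hm hkz e2
  have e4 : (k : ℤ) ∣ (8 * nrm3 A B ζ₀ * (m : ℤ) ^ 2) * nrm3 A B ζ₀ := by
    have : (8 * nrm3 A B ζ₀ * (m : ℤ) ^ 2) * nrm3 A B ζ₀ = 8 * nrm3 A B ζ₀ ^ 2 * (m : ℤ) ^ 2 := by ring
    rw [this]
    exact e3
  have e5 := h₀.canN hm hkz e4
  have e6 : (k : ℤ) ∣ (8 * (m : ℤ) ^ 4) * nrm3 A B ζ₀ := by
    have : (8 * (m : ℤ) ^ 4) * nrm3 A B ζ₀ = 8 * nrm3 A B ζ₀ * (m : ℤ) ^ 2 * (m : ℤ) ^ 2 := by ring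
    rw [this]
    exact e5
  have e7 := h₀.canN hm hkz e6
  have e8 : k ∣ 8 * m ^ 6 := by
    have e9 : (k : ℤ) ∣ ((8 * m ^ 6 : ℕ) : ℤ) := by
      have : ((8 * m ^ 6 : ℕ) : ℤ) = 8 * (m : ℤ) ^ 4 * (m : ℤ) ^ 2 := by
        push_cast
        ring
      rw [this]
      exact e7
    exact_mod_cast e9
  exact Nat.le_of_dvd (by positivity) e8

end Pool.Agent.H80.PZ
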