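import Pool.Agent.H80.PZ.ClE
import Pool.Agent.H80.PZ.ClP
import Pool.Agent.H80.PZ.Sqd
import Pool.Agent.H80.PZ.Bdv
import Pool.Agent.H92.DivBound

/-!
[H80 PZ KAP]  The classes of the points with one label and one `z`.

`T = ∅`: any `κ`.  Choose `ζ p` (`choose!`), a base point `p₀ ∈ T`, `ζ₀ = ζ p₀`, `γ p = mul3 (ζ p) (adj3 ζ₀)`, `N = z² / gcd(z², m⁶)`, `b = 8 m⁶`.
`sq_dvd`, `sq_bd` (`N ∣ z²`) and `cl_ex` give `e p, t p` with `Cl A B N b (e p) (t p) (γ p)`.  `g'` = `acnt0_part` (Pool/Agent/H12/EH/Acnt0.lean).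
`κ p` = (signs of `Re, Im` of `u (ζ p) v`, `v : Fin 3` (64 values); `Nat.gcd g' |B(ζ₀, ζ p)|`; `e p`; `t p`), exactly as in `Lab.lcnt`
(Pool/Agent/H12/EH/Lcnt.lean).  The image is in `univ ×ˢ g'.divisors ×ˢ (N.divisors.sigma (..))`: at most `64 τ(g') K τ(N)³` (`cl_card`),
`τ(N) ≤ τ(z²)`, `H5.W.divisor_bound` with `ε` and `ε / 6`.
Two different points `p, p'` of one class: `cl_pair` gives `M ∣ N ∣ z²`, `N ≤ M b³`, `M ∣ 2 (γ γ')_i`; `B_dvd` gives `Q ∣ z⁴`, `Q ∣ B(ζ, ζ')`, `M² ≤ 8 m⁴⁰ Q`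
(`B_lab`); `g' ∣ B(ζ, ζ')` by `Lab.cls` exactly as in `lcnt` (`lab0_ok`, `lab0_det`, `lab0_ne`, `lab0_pt`, as in `acnt0_label`); `gcd(Q, g') = 1`: a prime
`q ∣ Q ∣ z⁴` and `q ∣ g' ∣ g`, `q ∤ m`: `cang` with `X = 1`, `k = q`: `q ∣ m²`.  So `Q g' ∣ B`, `B ≠ 0` (`Lab.B_ne`, `cross_ne`), `Q g' ≤ |B|`, and
`z² ≤ N m⁶`, `g ≤ 2 m g'`: `G z⁴ ≤ 2 m g' m¹² N² ≤ 2 m¹³ g' b⁶ M² ≤ 16 m⁵³ b⁶ g' Q ≤ C |B|`, `m ≤ C₁`.
-/

set_option autoImplicit false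

namespace Pool.Agent.H80.PZ

open Pool.Agent.H12.EH

theorem kap {A B : ℤ} (hD : 4 * A ^ 3 + 27 * B ^ 2 ≠ 0) {ρ : Fin 3 → ℂ} (hρ : Roots A B ρ) {C₁ : ℝ}
    (hC₁ : 1 ≤ C₁) (ε : ℝ) (hε : 0 < ε) : ∃ C : ℝ, 0 < C ∧
    ∀ (G : ℝ), 1 ≤ G → ∀ (c : Fin 3 → ℤ) (m g z : ℕ), 0 < m → (m : ℝ) ≤ C₁ → 0 < z → Squarefree g →
    G ≤ g → (g : ℝ) ≤ 2 * G → ∀ T : Finset (ℤ × ℤ),
    (∀ p ∈ T, 0 < p.2 ∧ ∃ ζ : Fin 3 → ℤ, Pz A B c m g z p.1 p.2 ζ) →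
    ∃ (ι : Type) (_ : DecidableEq ι) (κ : ℤ × ℤ → ι), ((T.image κ).card : ℝ) ≤ C * G ^ ε * (z : ℝ) ^ ε ∧
      ∀ p ∈ T, ∀ p' ∈ T, p ≠ p' → κ p = κ p' → ∃ ζ ζ' : Fin 3 → ℤ,
        (lab0 A B ρ c m).Pt p.1 p.2 ζ ∧ (lab0 A B ρ c m).Pt p'.1 p'.2 ζ' ∧
        (∀ v, 0 ≤ ((lab0 A B ρ c m).u ζ v * (starRingEnd ℂ) ((lab0 A B ρ c m).u ζ' v)).re) ∧
        G * (z : ℝ) ^ 4 ≤ C * |(((lab0 A B ρ c m).B ζ ζ' : ℤ) : ℝ)| := by
  classical
  obtain ⟨K, hK⟩ := cl_card A B hD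
  obtain ⟨C2, hC2, hdiv2⟩ := Pool.Agent.H5.W.divisor_bound ε hε
  obtain ⟨C3, hC3, hdiv3⟩ := Pool.Agent.H5.W.divisor_bound (ε / 6) (by positivity)
  have hC0 : 0 < C₁ := by linarith
  obtain ⟨K1, hK1⟩ : ∃ K1 : ℝ, K1 = 64 * (C2 * 2 ^ ε) * ((K : ℝ) + 1) * C3 ^ 3 := ⟨_, rfl⟩
  obtain ⟨K2, hK2⟩ : ∃ K2 : ℝ, K2 = 2 * 8 ^ 7 * C₁ ^ 89 := ⟨_, rfl⟩
  have hK10 : 0 < K1 := by rw [hK1]; positivity
  have hK20 : 0 < K2 := by rw [hK2]; positivity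
  refine ⟨K1 + K2, by positivity, ?_⟩
  intro G hG c m g z hm hmC hz hgs hgG hgG2 T hT
  have hG0 : 0 < G := by linarith
  have hgR : (0 : ℝ) < g := by linarith
  have hg0 : 0 < g := by exact_mod_cast hgR
  have hzR : (0 : ℝ) < (z : ℝ) := by exact_mod_cast hz
  have hmR : (0 : ℝ) < (m : ℝ) := by exact_mod_cast hm
  rcases T.eq_empty_or_nonempty with hTe | ⟨p₀, hp₀⟩
  · refine ⟨Unit, inferInstance, fun _ => (), ?_, ?_⟩
    · rw [hTe, Finset.image_empty, Finset.card_empty, Nat.cast_zero]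
      positivity
    · intro p hp
      rw [hTe] at hp
      exact absurd hp (Finset.notMem_empty _)
  have hex : ∀ p ∈ T, ∃ ζ : Fin 3 → ℤ, Pz A B c m g z p.1 p.2 ζ := fun p hp => (hT p hp).2
  choose! ζ hζ using hex
  obtain ⟨g', hg'0, hg's, hg'2, hg'd, hg'l, hg'q⟩ := acnt0_part hgs hg0 hm
  have hg'R : (0 : ℝ) < g' := by exact_mod_cast hg'0
  obtain ⟨N, hN⟩ : ∃ N : ℕ, N = z ^ 2 / Nat.gcd (z ^ 2) (m ^ 6) := ⟨_, rfl⟩
  have hNz : N ∣ z ^ 2 := by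
    rw [hN]
    exact Nat.div_dvd_of_dvd (Nat.gcd_dvd_left _ _)
  have hz2 : 0 < z ^ 2 := by positivity
  have hN0 : 0 < N := Nat.pos_of_dvd_of_pos hNz hz2
  have hNm : z ^ 2 ≤ N * m ^ 6 := by
    have h1 : N * Nat.gcd (z ^ 2) (m ^ 6) = z ^ 2 := by
      rw [hN]
      exact Nat.div_mul_cancel (Nat.gcd_dvd_left _ _)
    calc z ^ 2 = N * Nat.gcd (z ^ 2) (m ^ 6) := h1.symm
      _ ≤ N * m ^ 6 := Nat.mul_le_mul_left _ (Nat.gcd_le_right _ (by positivity))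
  -- the elements γ and their classes
  have hcl : ∀ p ∈ T, ∃ et : ℕ × ℕ,
      Cl A B N (8 * m ^ 6) et.1 et.2 (mul3 A B (ζ p) (adj3 A B (ζ p₀))) := by
    intro p hp
    have h1 := sq_dvd hm hg0 hz (hζ p hp) (hζ p₀ hp₀)
    rw [← hN] at h1
    obtain ⟨e, t, h⟩ := cl_ex A B hN0 (mul3 A B (ζ p) (adj3 A B (ζ p₀))) (b := 8 * m ^ 6)
      (h1 1 (by decide)) (h1 2 (by decide))
      (fun k hk k0 k1 k2 => sq_bd hm hz (hζ p hp) (hζ p₀ hp₀) k (hk.trans hNz) k0 k1 k2)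
    exact ⟨(e, t), h⟩
  choose! et het using hcl
  obtain ⟨κ, hκ⟩ : ∃ κ : ℤ × ℤ → (Fin 3 → Bool × Bool) × (ℕ × (Σ _ : ℕ, ℕ)), κ = fun p =>
      (fun v => (decide (0 ≤ ((lab0 A B ρ c m).u (ζ p) v).re), decide (0 ≤ ((lab0 A B ρ c m).u (ζ p) v).im)),
        (Nat.gcd g' ((lab0 A B ρ c m).B (ζ p₀) (ζ p)).natAbs, ⟨(et p).1, (et p).2⟩)) := ⟨_, rfl⟩
  obtain ⟨V, hV⟩ : ∃ V : Finset (Σ _ : ℕ, ℕ), V = N.divisors.sigma (fun e => (Finset.range (Rr N e)).filter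
      (fun t : ℕ => ((Rr N e : ℕ) : ℤ) ∣ (t : ℤ) ^ 3 + A * t + B)) := ⟨_, rfl⟩
  obtain ⟨U, hU⟩ : ∃ U : Finset ((Fin 3 → Bool × Bool) × (ℕ × (Σ _ : ℕ, ℕ))),
      U = (Finset.univ : Finset (Fin 3 → Bool × Bool)) ×ˢ (g'.divisors ×ˢ V) := ⟨_, rfl⟩
  have hVc : (V.card : ℝ) ≤ ((K : ℝ) + 1) * (N.divisors.card : ℝ) ^ 3 := by
    have h1 := hK N hN0
    have h2 : V.card ≤ K * N.divisors.card ^ 3 := by
      rw [hV, Finset.card_sigma]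
      exact h1
    have h3 : (V.card : ℝ) ≤ (K : ℝ) * (N.divisors.card : ℝ) ^ 3 := by exact_mod_cast h2
    have h4 : (0 : ℝ) ≤ (N.divisors.card : ℝ) ^ 3 := by positivity
    linarith
  have hUc : (U.card : ℝ) = 64 * (g'.divisors.card * V.card) := by
    rw [hU, Finset.card_product, Finset.card_product, Finset.card_univ]
    simp
  have hmap : T.image κ ⊆ U := by
    intro x hx
    obtain ⟨p, hp, rfl⟩ := Finset.mem_image.1 hx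
    obtain ⟨c1, c2, c3, c4, c5, c6, c7, c8⟩ := het p hp
    rw [hU, hκ, Finset.mem_product, Finset.mem_product, hV, Finset.mem_sigma, Finset.mem_filter, Finset.mem_range]
    refine ⟨Finset.mem_univ _, Nat.mem_divisors.2 ⟨Nat.gcd_dvd_left _ _, hg'0.ne'⟩,
      Nat.mem_divisors.2 ⟨c1, hN0.ne'⟩, c5, c6⟩
  refine ⟨_, inferInstance, κ, ?_, ?_⟩
  · have h1 : ((T.image κ).card : ℝ) ≤ U.card := by exact_mod_cast Finset.card_le_card hmap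
    rw [hUc] at h1
    have hg'le : (g' : ℝ) ≤ 2 * G := by
      have h1 : g' ≤ g := Nat.le_of_dvd hg0 hg'd
      have h2 : (g' : ℝ) ≤ g := by exact_mod_cast h1
      linarith
    have htau : (g'.divisors.card : ℝ) ≤ C2 * 2 ^ ε * G ^ ε := by
      refine (hdiv2 g' hg'0).trans ?_
      rw [mul_assoc, ← Real.mul_rpow (by norm_num) hG0.le]
      exact mul_le_mul_of_nonneg_left (Real.rpow_le_rpow hg'R.le hg'le hε.le) hC2.le
    have htauN : (N.divisors.card : ℝ) ^ 3 ≤ C3 ^ 3 * (z : ℝ) ^ ε := by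
      have e1 : (N.divisors.card : ℝ) ≤ ((z ^ 2).divisors.card : ℝ) := by
        exact_mod_cast Finset.card_le_card (Nat.divisors_subset_of_dvd hz2.ne' hNz)
      have e2 := hdiv3 (z ^ 2) (Nat.one_le_iff_ne_zero.mpr hz2.ne')
      have e3 : (((z ^ 2 : ℕ) : ℝ) ^ (ε / 6)) ^ 3 = (z : ℝ) ^ ε := by
        push_cast
        rw [← Real.rpow_natCast (z : ℝ) 2, ← Real.rpow_mul hzR.le, ← Real.rpow_natCast _ 3,
          ← Real.rpow_mul hzR.le]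
        congr 1
        push_cast
        ring
      calc (N.divisors.card : ℝ) ^ 3 ≤ (C3 * ((z ^ 2 : ℕ) : ℝ) ^ (ε / 6)) ^ 3 :=
            pow_le_pow_left₀ (Nat.cast_nonneg _) (e1.trans e2) 3
        _ = C3 ^ 3 * (z : ℝ) ^ ε := by rw [mul_pow, e3]
    have hGe : 0 ≤ G ^ ε * (z : ℝ) ^ ε := by positivity
    calc ((T.image κ).card : ℝ) ≤ 64 * (g'.divisors.card * V.card) := h1
      _ ≤ 64 * ((C2 * 2 ^ ε * G ^ ε) * (((K : ℝ) + 1) * (C3 ^ 3 * (z : ℝ) ^ ε))) := by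
          refine mul_le_mul_of_nonneg_left ?_ (by norm_num)
          refine mul_le_mul htau (hVc.trans ?_) (Nat.cast_nonneg _) (by positivity)
          exact mul_le_mul_of_nonneg_left htauN (by positivity)
      _ = K1 * (G ^ ε * (z : ℝ) ^ ε) := by rw [hK1]; ring
      _ ≤ (K1 + K2) * (G ^ ε * (z : ℝ) ^ ε) := mul_le_mul_of_nonneg_right (by linarith) hGe
      _ = (K1 + K2) * G ^ ε * (z : ℝ) ^ ε := by ring
  · intro p hp p' hp' hne hpp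
    have hnc : nrm3 A B c ≠ 0 := by
      rw [(hζ p₀ hp₀).nrm]
      positivity
    have hok := lab0_ok hρ hnc hm
    rw [hκ] at hpp
    have hsg := congrArg Prod.fst hpp
    have hr := congrArg Prod.snd hpp
    have hgc : Nat.gcd g' ((lab0 A B ρ c m).B (ζ p₀) (ζ p)).natAbs =
        Nat.gcd g' ((lab0 A B ρ c m).B (ζ p₀) (ζ p')).natAbs := congrArg Prod.fst hr
    have het2 : (⟨(et p).1, (et p).2⟩ : Σ _ : ℕ, ℕ) = ⟨(et p').1, (et p').2⟩ := congrArg Prod.snd hr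
    have he1 : (et p).1 = (et p').1 := congrArg Sigma.fst het2
    have he2 : (et p).2 = (et p').2 := by
      have := congrArg (fun x : Σ _ : ℕ, ℕ => x.2) het2
      exact this
    have k1 := het p hp
    have k2 := het p' hp'
    rw [← he1, ← he2] at k2
    obtain ⟨M, hMN, hNM, hM1, hM2⟩ := cl_pair hN0 k1 k2
    obtain ⟨Q, hQz, hQB, hMQ⟩ := B_dvd hm hg0 hz (hζ p hp) (hζ p' hp') (hζ p₀ hp₀) (hMN.trans hNz) hM1 hM2
    have hpt := lab0_pt hρ (hζ p hp).eq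
    have hpt' := lab0_pt hρ (hζ p' hp').eq
    have hpt0 := lab0_pt hρ (hζ p₀ hp₀).eq
    have hdvd : (g' : ℤ) ∣ (lab0 A B ρ c m).B (ζ p) (ζ p') := by
      refine Lab.cls hok hg's hg'2 ?_ (Lab.B_self hok hpt0) (Lab.B_self hok hpt) (Lab.B_self hok hpt') ?_ hgc
      · intro q hq hqg
        rw [lab0_det, (hζ p₀ hp₀).nrm, dvd_neg]
        have h1 : (q : ℤ) ∣ (g : ℤ) := by exact_mod_cast hqg.trans hg'd
        exact Dvd.dvd.mul_left h1 _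
      · intro q hq hqg
        exact lab0_ne ρ (hζ p₀ hp₀).cop (hζ p₀ hp₀).eq hq (hg'q q hq hqg)
    have hQB' : (Q : ℤ) ∣ (lab0 A B ρ c m).B (ζ p) (ζ p') := by
      rw [B_lab]
      exact hQB
    have hcop : Nat.Coprime Q g' := by
      refine Nat.coprime_of_dvd ?_
      intro q hq hqQ hqg
      have h1 : (q : ℤ) ∣ (z : ℤ) ^ 4 := by exact_mod_cast hqQ.trans hQz
      have h2 : (q : ℤ) ∣ 1 * (g : ℤ) := by
        rw [one_mul]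
        exact_mod_cast hqg.trans hg'd
      have h3 := (hζ p hp).cang hm h1 h2
      rw [one_mul] at h3
      have h4 : q ∣ m ^ 2 := by exact_mod_cast h3
      exact hg'q q hq hqg (hq.dvd_of_dvd_pow h4)
    have hprod : (Q : ℤ) * (g' : ℤ) ∣ (lab0 A B ρ c m).B (ζ p) (ζ p') :=
      IsCoprime.mul_dvd (Nat.isCoprime_iff_coprime.mpr hcop) hQB' hdvd
    have hBne : (lab0 A B ρ c m).B (ζ p) (ζ p') ≠ 0 :=
      Lab.B_ne hok hpt hpt' (cross_ne (hζ p hp).cop (hζ p' hp').cop (hT p hp).1 (hT p' hp').1 hne)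
    have hle : (Q : ℝ) * g' ≤ |(((lab0 A B ρ c m).B (ζ p) (ζ p') : ℤ) : ℝ)| := by
      have h1 : (Q : ℤ) * g' ≤ |(lab0 A B ρ c m).B (ζ p) (ζ p')| :=
        Int.le_of_dvd (abs_pos.2 hBne) ((dvd_abs _ _).2 hprod)
      exact_mod_cast h1
    refine ⟨ζ p, ζ p', hpt, hpt', ?_, ?_⟩
    · intro v
      have h1 := congrFun hsg v
      have h2 := congrArg Prod.fst h1
      have h3 := congrArg Prod.snd h1
      dsimp only at h2 h3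
      rw [Complex.mul_re, Complex.conj_re, Complex.conj_im]
      have h4 := Lab.lcnt_sign h2
      have h5 := Lab.lcnt_sign h3
      linarith
    · -- the sizes
      have n1 : z ^ 4 ≤ 8 ^ 7 * m ^ 88 * Q := by
        calc z ^ 4 = (z ^ 2) ^ 2 := by ring
          _ ≤ (N * m ^ 6) ^ 2 := Nat.pow_le_pow_left hNm 2
          _ ≤ (M * (8 * m ^ 6) ^ 3 * m ^ 6) ^ 2 := Nat.pow_le_pow_left (Nat.mul_le_mul_right _ hNM) 2
          _ = M ^ 2 * ((8 * m ^ 6) ^ 3 * m ^ 6) ^ 2 := by ring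
          _ ≤ (Q * (8 * m ^ 40)) * ((8 * m ^ 6) ^ 3 * m ^ 6) ^ 2 := Nat.mul_le_mul_right _ hMQ
          _ = 8 ^ 7 * m ^ 88 * Q := by ring
      have n2 : (z : ℝ) ^ 4 ≤ 8 ^ 7 * (m : ℝ) ^ 88 * Q := by exact_mod_cast n1
      have n3 : G ≤ 2 * m * g' := by
        have h1 : (g : ℝ) ≤ 2 * m * g' := by exact_mod_cast hg'l
        linarith
      have n4 : (m : ℝ) ^ 89 ≤ C₁ ^ 89 := pow_le_pow_left₀ hmR.le hmC 89
      have hQ0 : (0 : ℝ) ≤ (Q : ℝ) := Nat.cast_nonneg _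
      have hB0 : 0 ≤ |(((lab0 A B ρ c m).B (ζ p) (ζ p') : ℤ) : ℝ)| := abs_nonneg _
      calc G * (z : ℝ) ^ 4 ≤ (2 * m * g') * (8 ^ 7 * (m : ℝ) ^ 88 * Q) :=
            mul_le_mul n3 n2 (by positivity) (by positivity)
        _ = 2 * 8 ^ 7 * (m : ℝ) ^ 89 * (Q * g') := by ring
        _ ≤ 2 * 8 ^ 7 * C₁ ^ 89 * (Q * g') := by
            refine mul_le_mul_of_nonneg_right ?_ (by positivity)
            linarith
        _ ≤ K2 * |(((lab0 A B ρ c m).B (ζ p) (ζ p') : ℤ) : ℝ)| := by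
            rw [hK2]
            exact mul_le_mul_of_nonneg_left hle (by positivity)
        _ ≤ (K1 + K2) * |(((lab0 A B ρ c m).B (ζ p) (ζ p') : ℤ) : ℝ)| :=
            mul_le_mul_of_nonneg_right (by linarith) hB0

end Pool.Agent.H80.PZ
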