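import Pool.Agent.H80.PZ.Szz
import Pool.Agent.H80.PZ.Emb
import Pool.Agent.H12.EH.Acnt1
import Pool.Agent.H12.EH.Fac
import Pool.Agent.H12.EH.Red

/-!
[H80 PZ LB1]  One rational root: the sum over the labels.

As `acnt1` (Pool/Agent/H12/EH/Acnt1.lean) with `szz` for `acnt1_fib`.  `e³ + A e + B = 0` (`hρ.root 0`), `Δ = |3 e² + A| > 0` (`Fac_ne`).
For `p = (r, s) ∈ T`: `(r - e s) Qf = Gf = g w² > 0` (`gf_qf`), `sqf_dec`: `r - e s = a₁ y₁²`, `Qf = a₂ y₂²`, `a₁, a₂` squarefree.  `h = Int.gcd a₁ a₂` divides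
`gcd(r - e s, Qf)`, so `Δ` (`Fac_gcd1`), `h ≤ Δ`; `a₁ a₂ = h² · (a₁ / h)(a₂ / h)` with a squarefree positive last product, so `a₁ a₂ = g h²` (`sqf_unique`, H12/EH/Red.lean).
`lab2` applied to `Qf = a₂ y₂²`: `ζ, c, m`, `nrm2 c = m² a₂`, `|c_i| ≤ C₁ |a₂|^(1/2)`.  `pz_emb` (Emb.lean, proved) gives `Pz` with the label
`c' = (h² (3e²+A)³) • emb A e (a₁ m²) c`, `m' = h² Δ³ m ≤ Δ⁵ C₁`, the number `g` and `z`.  The label `(c', m')` and `g` are functions of `(a₁, c, m, h, g)`; `g = |a₁ a₂| / h²`,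
`a₂ = nrm2 c / m²`.  Labels `(a₁, c, m)` in `acnt1L C₁ L` with `L = G Δ²` (`|a₁ a₂| = g h² ≤ 2 G Δ²`, exactly as in `acnt1`), at most `C L (1 + log 2L)` (`acnt1L_card`,
`acnt1_log`), and `h ∈ [1, Δ]`.  For each one `szz` (constant `C₁' = Δ⁵ C₁ ≥ 1`; the set may be filtered by the label; `g` is the same for all its points): `C G^ε' U^ε' (√U + √(R/G))`.
-/

set_option autoImplicit false

namespace Pool.Agent.H80.PZ

open Pool.Agent.H12.EH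

/-- the two squarefree parts -/
private theorem lb1_dec {A B e : ℤ} (he : e ^ 3 + A * e + B = 0) (hδ : 3 * e ^ 2 + A ≠ 0) {r s : ℤ}
    (hrs : IsCoprime r s) {g w : ℕ} (hg : Squarefree g) (hw : 0 < w)
    (hG : Gf A B r s = g * (w : ℤ) ^ 2) : ∃ (a1 y1 a2 y2 : ℤ) (h : ℕ), Squarefree a1 ∧
      Squarefree a2 ∧ 0 < y1 ∧ 0 < y2 ∧ r - e * s = a1 * y1 ^ 2 ∧ Qf A e r s = a2 * y2 ^ 2 ∧
      a1 * a2 = g * (h : ℤ) ^ 2 ∧ 0 < h ∧ h ≤ (3 * e ^ 2 + A).natAbs := by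
  have hgw : (0 : ℤ) < g * (w : ℤ) ^ 2 := by
    have h1 : 0 < g := Nat.pos_of_ne_zero hg.ne_zero
    positivity
  rw [gf_qf he] at hG
  have hG0 : (r - e * s) * Qf A e r s ≠ 0 := by
    rw [hG]
    exact hgw.ne'
  have h1 := left_ne_zero_of_mul hG0
  have h2 := right_ne_zero_of_mul hG0
  obtain ⟨a1, y1, ha1, hy1, e1⟩ := sqf_dec _ h1
  obtain ⟨a2, y2, ha2, hy2, e2⟩ := sqf_dec _ h2
  have hpos : 0 < Int.gcd a1 a2 := Int.gcd_pos_of_ne_zero_left _ ha1.ne_zero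
  obtain ⟨b1, b2, hb, hb1, hb2⟩ := Int.exists_gcd_one hpos
  obtain ⟨h, hh⟩ : ∃ h : ℕ, h = Int.gcd a1 a2 := ⟨_, rfl⟩
  have hdv : h ∣ (3 * e ^ 2 + A).natAbs := by
    refine dvd_trans ?_ (Fac_gcd1 (A := A) (e := e) hrs)
    rw [← Int.natCast_dvd_natCast, hh]
    refine Int.dvd_coe_gcd ((Int.gcd_dvd_left a1 a2).trans ?_) ((Int.gcd_dvd_right a1 a2).trans ?_)
    · rw [e1]
      exact Dvd.intro _ rfl
    · rw [e2]
      exact Dvd.intro _ rfl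
  rw [← hh] at hb1 hb2 hpos
  refine ⟨a1, y1, a2, y2, h, ha1, ha2, hy1, hy2, e1, e2, ?_, hpos,
    Nat.le_of_dvd (Int.natAbs_pos.2 hδ) hdv⟩
  have hsq : Squarefree (b1.natAbs * b2.natAbs) := by
    have hc : Nat.Coprime b1.natAbs b2.natAbs := hb
    rw [Nat.squarefree_mul hc, Int.squarefree_natAbs, Int.squarefree_natAbs]
    exact ⟨ha1.squarefree_of_dvd ⟨_, hb1⟩, ha2.squarefree_of_dvd ⟨_, hb2⟩⟩
  have hkey : b1 * b2 * ((h : ℤ) * y1 * y2) ^ 2 = g * (w : ℤ) ^ 2 := by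
    rw [← hG, e1, e2, hb1, hb2]
    ring
  have hbpos : 0 < b1 * b2 := by
    by_contra hcon
    rw [not_lt] at hcon
    have : b1 * b2 * ((h : ℤ) * y1 * y2) ^ 2 ≤ 0 :=
      mul_nonpos_of_nonpos_of_nonneg hcon (sq_nonneg _)
    rw [hkey] at this
    exact absurd this (not_le.2 hgw)
  have hnat : (b1.natAbs * b2.natAbs) * (h * y1.natAbs * y2.natAbs) ^ 2 = g * w ^ 2 := by
    have h3 := congrArg Int.natAbs hkey
    simpa only [Int.natAbs_mul, Int.natAbs_pow, Int.natAbs_natCast] using h3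
  have hge := sqf_unique hsq hg hw.ne' hnat
  have hb12 : b1 * b2 = g := by
    rw [← hge, ← Int.natAbs_mul, Int.natAbs_of_nonneg hbpos.le]
  rw [hb1, hb2, ← hb12]
  ring

theorem lbz1 {A B : ℤ} (hD : 4 * A ^ 3 + 27 * B ^ 2 ≠ 0) {ρ : Fin 3 → ℂ} (hρ : Roots A B ρ) {e : ℤ}
    (he : ρ 0 = e) (hirr : ∀ x : ℚ, x ^ 2 + e * x + (e ^ 2 + A) ≠ 0) (ε : ℝ) (hε : 0 < ε) : ∃ C : ℝ, 0 < C ∧
    ∀ (v : Fin 3) (S lam G R U : ℝ), 0 < S → 0 < lam → 1 ≤ G → 0 < R → 1 ≤ U → ∀ T : Finset (ℤ × ℤ),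
    (∀ p ∈ T, IsCoprime p.1 p.2 ∧ 0 < p.2 ∧ Fib ρ v S lam p.1 p.2 ∧ ∃ g w z : ℕ, Squarefree g ∧ 0 < w ∧
      0 < z ∧ G ≤ g ∧ (g : ℝ) ≤ 2 * G ∧ Gf A B p.1 p.2 = g * w ^ 2 ∧ (z : ℤ) ^ 2 ∣ p.2 ∧ (z : ℝ) ^ 2 ≤ U ∧
      S ≤ R * (z : ℝ) ^ 2) →
    (T.card : ℝ) ≤ C * G ^ ε * U ^ ε * (G * √U + √(R * G)) := by
  classical
  have hroot : e ^ 3 + A * e + B = 0 := by
    have h := hρ.root 0
    rw [he] at h
    exact_mod_cast h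
  have hδ := Fac_ne hD hroot
  obtain ⟨Δ, hΔ⟩ : ∃ Δ : ℕ, Δ = (3 * e ^ 2 + A).natAbs := ⟨_, rfl⟩
  have hΔ0 : 0 < Δ := by
    rw [hΔ]
    exact Int.natAbs_pos.2 hδ
  have hΔ1 : (1 : ℝ) ≤ Δ := by exact_mod_cast hΔ0
  have hΔR : (0 : ℝ) < Δ := by linarith
  obtain ⟨C₁, hC₁, hlab⟩ := lab2 hρ he hirr
  have hC0 : 0 < C₁ := by linarith
  have hC1' : 1 ≤ (Δ : ℝ) ^ 5 * C₁ := by
    have : 1 ≤ (Δ : ℝ) ^ 5 := one_le_pow₀ hΔ1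
    nlinarith
  obtain ⟨Cf, hCf, hfib⟩ := szz hD hρ hC1' (ε / 2) (by positivity)
  refine ⟨36 * C₁ ^ 3 * (Δ : ℝ) ^ 3 * (2 + 1 / (ε / 2)) * ((Δ : ℝ) ^ 2) ^ (ε / 2) * Cf,
    by positivity, ?_⟩
  intro v S lam G R U hS hlam hG hR hU T hT
  have hG0 : 0 < G := by linarith
  have hU0 : 0 < U := by linarith
  obtain ⟨L, hL⟩ : ∃ L : ℝ, L = G * (Δ : ℝ) ^ 2 := ⟨_, rfl⟩
  have hL1 : 1 ≤ L := by
    rw [hL]
    have : 1 ≤ (Δ : ℝ) ^ 2 := one_le_pow₀ hΔ1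
    nlinarith
  have hL0 : 0 < L := by linarith
  -- the labels of the points
  have hdat : ∀ p ∈ T, ∃ (a b : ℤ) (c ζ : Fin 2 → ℤ) (y : ℤ) (m h g z : ℕ), Squarefree a ∧
      Squarefree b ∧ p.1 - e * p.2 = a * y ^ 2 ∧ a * b = g * (h : ℤ) ^ 2 ∧ 0 < h ∧ h ≤ Δ ∧
      Squarefree g ∧ G ≤ g ∧ (g : ℝ) ≤ 2 * G ∧ 0 < z ∧ (z : ℤ) ^ 2 ∣ p.2 ∧ (z : ℝ) ^ 2 ≤ U ∧
      S ≤ R * (z : ℝ) ^ 2 ∧ 0 < m ∧ (m : ℝ) ≤ C₁ ∧
      mul2 A e c (mul2 A e ζ ζ) = ![(m : ℤ) ^ 2 * p.1, -((m : ℤ) ^ 2 * p.2)] ∧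
      nrm2 A e c = (m : ℤ) ^ 2 * b ∧ ∀ i, |((c i : ℤ) : ℝ)| ≤ C₁ * (|b| : ℝ) ^ (1 / 2 : ℝ) := by
    intro p hp
    obtain ⟨hrs, hs, -, g, w, z, hg, hw, hz, hg1, hg2, hGf, hzd, hzU, hzS⟩ := hT p hp
    obtain ⟨a1, y1, a2, y2, h, ha1, ha2, hy1, hy2, e1, e2, e3, hh, hhΔ⟩ :=
      lb1_dec hroot hδ hrs hg hw hGf
    have hz1 : ((y2.toNat : ℕ) : ℤ) = y2 := Int.toNat_of_nonneg hy2.le
    obtain ⟨ζ, c, m, hm, hmC, hζ, hn, hc⟩ := hlab p.1 p.2 a2 y2.toNat hrs hs ha2.ne_zero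
      (by omega) (by rw [hz1]; exact e2)
    exact ⟨a1, a2, c, ζ, y1, m, h, g, z, ha1, ha2, e1, e3, hh, hΔ ▸ hhΔ, hg, hg1, hg2, hz, hzd,
      hzU, hzS, hm, hmC, hζ, hn, hc⟩
  choose! a b c ζ y m h g z hdat using hdat
  obtain ⟨f, hf⟩ : ∃ f : ℤ × ℤ → (Σ _ : ℕ, Bool × ((Fin 2 → ℤ) × ℕ)) × ℕ,
      f = fun p => (⟨(a p).natAbs, (decide (0 < a p), (c p, m p))⟩, h p) := ⟨_, rfl⟩
  have hmaps : ∀ p ∈ T, f p ∈ acnt1L C₁ L ×ˢ Finset.Icc 1 Δ := by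
    intro p hp
    obtain ⟨ha, hb, -, hab, hh, hhΔ, hg, hg1, hg2, -, -, -, -, hm, hmC, -, -, hc⟩ := hdat p hp
    have ha0 := ha.ne_zero
    have hb0 := hb.ne_zero
    have hnR : (((a p).natAbs : ℕ) : ℝ) = |((a p : ℤ) : ℝ)| := by
      rw [Nat.cast_natAbs, Int.cast_abs]
    have hnpos : 0 < (a p).natAbs := Int.natAbs_pos.2 ha0
    have hnposR : (0 : ℝ) < ((a p).natAbs : ℕ) := by exact_mod_cast hnpos
    have hb1 : (1 : ℝ) ≤ |((b p : ℤ) : ℝ)| := by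
      have : (1 : ℤ) ≤ |b p| := Int.one_le_abs hb0
      exact_mod_cast this
    have hprod : (((a p).natAbs : ℕ) : ℝ) * |((b p : ℤ) : ℝ)| ≤ 2 * L := by
      rw [hnR, ← abs_mul]
      have h3 : ((a p : ℤ) : ℝ) * ((b p : ℤ) : ℝ) = (g p : ℝ) * (h p : ℝ) ^ 2 := by
        exact_mod_cast hab
      rw [h3, abs_of_nonneg (by positivity), hL]
      have h4 : ((h p : ℕ) : ℝ) ^ 2 ≤ (Δ : ℝ) ^ 2 := by
        apply pow_le_pow_left₀ (Nat.cast_nonneg _)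
        exact_mod_cast hhΔ
      calc (g p : ℝ) * (h p : ℝ) ^ 2 ≤ (2 * G) * (Δ : ℝ) ^ 2 := by gcongr
        _ = 2 * (G * (Δ : ℝ) ^ 2) := by ring
    rw [hf]
    unfold acnt1L
    rw [Finset.mem_product, Finset.mem_sigma, Finset.mem_product, Finset.mem_product,
      Fintype.mem_piFinset, Finset.mem_Icc, Finset.mem_Icc, Finset.mem_Icc]
    refine ⟨⟨⟨hnpos, ?_⟩, Finset.mem_univ _, fun i => ?_, hm, ?_⟩, hh, hhΔ⟩
    · apply Nat.le_floor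
      nlinarith
    · have h3 : |((b p : ℤ) : ℝ)| ≤ 2 * L / ((a p).natAbs : ℕ) := by
        rw [le_div_iff₀ hnposR]
        linarith
      have h4 : |((c p i : ℤ) : ℝ)| ≤ C₁ * √(2 * L / ((a p).natAbs : ℕ)) := by
        refine (hc i).trans ?_
        rw [Real.sqrt_eq_rpow]
        gcongr
      have h5 : ((c p i).natAbs : ℕ) ≤ ⌊C₁ * √(2 * L / ((a p).natAbs : ℕ))⌋₊ := by
        apply Nat.le_floor
        rw [Nat.cast_natAbs, Int.cast_abs]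
        exact h4
      rw [Finset.mem_Icc]
      constructor
      · have := Int.le_natAbs (a := -(c p i))
        rw [Int.natAbs_neg] at this
        have h6 : (((c p i).natAbs : ℕ) : ℤ) ≤
          ((⌊C₁ * √(2 * L / ((a p).natAbs : ℕ))⌋₊ : ℕ) : ℤ) := by exact_mod_cast h5
        linarith
      · have := Int.le_natAbs (a := c p i)
        have h6 : (((c p i).natAbs : ℕ) : ℤ) ≤
          ((⌊C₁ * √(2 * L / ((a p).natAbs : ℕ))⌋₊ : ℕ) : ℤ) := by exact_mod_cast h5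
        linarith
    · exact Nat.le_floor hmC
  -- the number of points with one label
  have hF0 : 0 ≤ Cf * G ^ (ε / 2) * U ^ (ε / 2) * (√U + √(R / G)) := by positivity
  have hone : ∀ x ∈ acnt1L C₁ L ×ˢ Finset.Icc 1 Δ, ((T.filter (fun p => f p = x)).card : ℝ) ≤
      Cf * G ^ (ε / 2) * U ^ (ε / 2) * (√U + √(R / G)) := by
    intro x hx
    rcases (T.filter (fun p => f p = x)).eq_empty_or_nonempty with hE | ⟨p₀, hp₀⟩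
    · rw [hE, Finset.card_empty, Nat.cast_zero]
      exact hF0
    rw [Finset.mem_filter] at hp₀
    obtain ⟨hp₀T, hfp₀⟩ := hp₀
    obtain ⟨ha₀, hb₀, hy₀, hab₀, hh₀, hhΔ₀, hg₀, hg1₀, hg2₀, -, -, -, -, hm₀, hmC₀, -, hn₀, -⟩ :=
      hdat p₀ hp₀T
    have hm' : ((h p₀ ^ 2 * (3 * e ^ 2 + A).natAbs ^ 3 * m p₀ : ℕ) : ℝ) ≤ (Δ : ℝ) ^ 5 * C₁ := by
      rw [← hΔ]
      push_cast
      have h4 : ((h p₀ : ℕ) : ℝ) ^ 2 ≤ (Δ : ℝ) ^ 2 := by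
        apply pow_le_pow_left₀ (Nat.cast_nonneg _)
        exact_mod_cast hhΔ₀
      calc ((h p₀ : ℕ) : ℝ) ^ 2 * (Δ : ℝ) ^ 3 * (m p₀ : ℝ) ≤ (Δ : ℝ) ^ 2 * (Δ : ℝ) ^ 3 * C₁ := by
            gcongr
        _ = (Δ : ℝ) ^ 5 * C₁ := by ring
    have hm0' : 0 < h p₀ ^ 2 * (3 * e ^ 2 + A).natAbs ^ 3 * m p₀ := by
      rw [← hΔ]
      positivity
    refine hfib v S lam G R U hS hlam hG hR hU
      (fun i => ((h p₀ : ℤ) ^ 2 * (3 * e ^ 2 + A) ^ 3) * emb A e (a p₀ * (m p₀ : ℤ) ^ 2) (c p₀) i)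
      (h p₀ ^ 2 * (3 * e ^ 2 + A).natAbs ^ 3 * m p₀) (g p₀) hm0' hm' hg₀ hg1₀ hg2₀ _ ?_
    intro p hp
    rw [Finset.mem_filter] at hp
    obtain ⟨hpT, hfp⟩ := hp
    obtain ⟨hrs, hs, hfb, -⟩ := hT p hpT
    obtain ⟨ha, hb, hy, hab, hh, hhΔ, hg, hg1, hg2, hz, hzd, hzU, hzS, hm, hmC, hζ, hn, -⟩ :=
      hdat p hpT
    have hff : f p = f p₀ := hfp.trans hfp₀.symm
    rw [hf] at hff
    simp only [Sigma.mk.injEq, heq_eq_eq, Prod.mk.injEq] at hff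
    obtain ⟨⟨e1, e2, e3, e4⟩, e5⟩ := hff
    have ha' : a p = a p₀ := by
      rw [decide_eq_decide] at e2
      by_cases h0 : 0 < a p
      · have := e2.1 h0
        omega
      · have h1 : ¬ 0 < a p₀ := fun h1 => h0 (e2.2 h1)
        omega
    have hb' : b p = b p₀ := by
      have h1 : (m p₀ : ℤ) ^ 2 * b p = (m p₀ : ℤ) ^ 2 * b p₀ := by
        rw [← hn₀, ← e3, hn, e4]
      have h2 : ((m p₀ : ℤ)) ^ 2 ≠ 0 := by positivity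
      exact mul_left_cancel₀ h2 h1
    have hg' : g p = g p₀ := by
      have h1 : (g p : ℤ) * (h p₀ : ℤ) ^ 2 = (g p₀ : ℤ) * (h p₀ : ℤ) ^ 2 := by
        rw [← hab₀, ← ha', ← hb', hab, e5]
      have h2 : ((h p₀ : ℤ)) ^ 2 ≠ 0 := by positivity
      have h3 := mul_right_cancel₀ h2 h1
      exact_mod_cast h3
    refine ⟨hs, hfb, z p, fun i => (h p : ℤ) * emb A e (y p) (ζ p) i, hz, hzU, hzS, ?_⟩
    rw [← hg', ← e5, ← ha', ← e3, ← e4]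
    exact pz_emb hroot hrs hzd hy hζ hn hab
  -- conclusion
  have hcard : (T.card : ℝ) =
      ∑ x ∈ acnt1L C₁ L ×ˢ Finset.Icc 1 Δ, ((T.filter (fun p => f p = x)).card : ℝ) := by
    exact_mod_cast Finset.card_eq_sum_card_fiberwise hmaps
  have hlog := acnt1_log (ε / 2) (by positivity) hL1
  have hcL := acnt1L_card hC₁ hL1
  have hsq : G * √(R / G) = √(R * G) := by
    rw [← Real.sqrt_sq hG0.le, ← Real.sqrt_mul (by positivity), Real.sqrt_sq hG0.le]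
    congr 1
    field_simp
  have hpow : G ^ (ε / 2) * G ^ (ε / 2) = G ^ ε := by
    rw [← Real.rpow_add hG0]
    congr 1
    ring
  have hUp : U ^ (ε / 2) ≤ U ^ ε := Real.rpow_le_rpow_of_exponent_le hU (by linarith)
  have hLp : L ^ (ε / 2) = G ^ (ε / 2) * ((Δ : ℝ) ^ 2) ^ (ε / 2) := by
    rw [hL]
    exact Real.mul_rpow hG0.le (by positivity)
  have hcard2 : (((acnt1L C₁ L ×ˢ Finset.Icc 1 Δ).card : ℕ) : ℝ) ≤
      36 * C₁ ^ 3 * L * ((2 + 1 / (ε / 2)) * L ^ (ε / 2)) * Δ := by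
    rw [Finset.card_product, Nat.card_Icc, Nat.add_sub_cancel]
    push_cast
    apply mul_le_mul_of_nonneg_right _ hΔR.le
    refine hcL.trans ?_
    gcongr
  calc (T.card : ℝ) = ∑ x ∈ acnt1L C₁ L ×ˢ Finset.Icc 1 Δ,
        ((T.filter (fun p => f p = x)).card : ℝ) := hcard
    _ ≤ ∑ _x ∈ acnt1L C₁ L ×ˢ Finset.Icc 1 Δ,
        Cf * G ^ (ε / 2) * U ^ (ε / 2) * (√U + √(R / G)) := Finset.sum_le_sum hone
    _ = (((acnt1L C₁ L ×ˢ Finset.Icc 1 Δ).card : ℕ) : ℝ) *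
        (Cf * G ^ (ε / 2) * U ^ (ε / 2) * (√U + √(R / G))) := by
        rw [Finset.sum_const, nsmul_eq_mul]
    _ ≤ (36 * C₁ ^ 3 * L * ((2 + 1 / (ε / 2)) * L ^ (ε / 2)) * Δ) *
        (Cf * G ^ (ε / 2) * U ^ ε * (√U + √(R / G))) := by
        gcongr
    _ = 36 * C₁ ^ 3 * (Δ : ℝ) ^ 3 * (2 + 1 / (ε / 2)) * ((Δ : ℝ) ^ 2) ^ (ε / 2) * Cf *
        (G ^ (ε / 2) * G ^ (ε / 2)) * U ^ ε * (G * √U + G * √(R / G)) := by
        rw [hLp, hL]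
        ring
    _ = 36 * C₁ ^ 3 * (Δ : ℝ) ^ 3 * (2 + 1 / (ε / 2)) * ((Δ : ℝ) ^ 2) ^ (ε / 2) * Cf *
        G ^ ε * U ^ ε * (G * √U + √(R * G)) := by
        rw [hpow, hsq]

end Pool.Agent.H80.PZ
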