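import Pool.Agent.H80.PZ.Szz

/-!
[H80 PZ LBZ]  The sum over the labels.

`lbz`: as `acnt0` (Pool/Agent/H12/EH/Acnt0.lean): `lab3` gives `(c, m)` and `ζ` for every `p ∈ T` (with `g` and the `w` of `Gf = g w²`), the set of labels
`(c, m)` has at most `C G` elements; all `p` with one label have the same `g = nrm3 c / m⁴`; `szz` for each label (`R`, `U` the same, `Pz` from
`lab3` and `z² ∣ s`).
-/

set_option autoImplicit false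

namespace Pool.Agent.H80.PZ

open Pool.Agent.H12.EH

theorem lbz {A B : ℤ} (hD : 4 * A ^ 3 + 27 * B ^ 2 ≠ 0) {ρ : Fin 3 → ℂ} (hρ : Roots A B ρ)
    (hirr : ∀ x : ℚ, x ^ 3 + A * x + B ≠ 0) (ε : ℝ) (hε : 0 < ε) : ∃ C : ℝ, 0 < C ∧
    ∀ (v : Fin 3) (S lam G R U : ℝ), 0 < S → 0 < lam → 1 ≤ G → 0 < R → 1 ≤ U → ∀ T : Finset (ℤ × ℤ),
    (∀ p ∈ T, IsCoprime p.1 p.2 ∧ 0 < p.2 ∧ Fib ρ v S lam p.1 p.2 ∧ ∃ g w z : ℕ, Squarefree g ∧ 0 < w ∧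
      0 < z ∧ G ≤ g ∧ (g : ℝ) ≤ 2 * G ∧ Gf A B p.1 p.2 = g * w ^ 2 ∧ (z : ℤ) ^ 2 ∣ p.2 ∧ (z : ℝ) ^ 2 ≤ U ∧
      S ≤ R * (z : ℝ) ^ 2) →
    (T.card : ℝ) ≤ C * G ^ ε * U ^ ε * (G * √U + √(R * G)) := by
  classical
  obtain ⟨C₁, hC₁, hlab⟩ := lab3 hρ hirr
  obtain ⟨C₂, hC₂, hone⟩ := szz hD hρ hC₁ ε hε
  have hC0 : 0 < C₁ := by linarith
  refine ⟨(4 * C₁ + 1) ^ 3 * C₁ * C₂, by positivity, ?_⟩
  intro v S lam G R U hS hlam hG hR hU T hT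
  have hG0 : 0 < G := by linarith
  have hU0 : 0 < U := by linarith
  have hGe : (0 : ℝ) < G ^ ε := Real.rpow_pos_of_pos hG0 ε
  have hUe : (0 : ℝ) < U ^ ε := Real.rpow_pos_of_pos hU0 ε
  have hs1 : 0 ≤ √U := Real.sqrt_nonneg _
  have hs2 : 0 ≤ √(R / G) := Real.sqrt_nonneg _
  -- choose the labels
  have hch : ∀ p ∈ T, ∃ (l : (Fin 3 → ℤ) × ℕ) (ζ : Fin 3 → ℤ) (g z : ℕ), (Squarefree g ∧ G ≤ g ∧
      (g : ℝ) ≤ 2 * G) ∧ (0 < l.2 ∧ (l.2 : ℝ) ≤ C₁ ∧ ∀ i, |((l.1 i : ℤ) : ℝ)| ≤ 2 * C₁ * G ^ (1 / 3 : ℝ)) ∧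
      0 < z ∧ (z : ℝ) ^ 2 ≤ U ∧ S ≤ R * (z : ℝ) ^ 2 ∧ Pz A B l.1 l.2 g z p.1 p.2 ζ := by
    intro p hp
    obtain ⟨hc, hs, _, g, w, z, hgs, hw, hz, hg1, hg2, hGf, hzs, hzU, hSR⟩ := hT p hp
    have hgR : (0 : ℝ) < g := by linarith
    have hg0 : 0 < g := by exact_mod_cast hgR
    obtain ⟨ζ, c, m, hm, hmC, h1, h2, h3⟩ := hlab p.1 p.2 g w hc hs hg0 hw hGf
    refine ⟨(c, m), ζ, g, z, ⟨hgs, hg1, hg2⟩, ⟨hm, hmC, fun i => (h3 i).trans ?_⟩, hz, hzU, hSR,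
      ⟨hc, hzs, h1, h2⟩⟩
    have h4 : (g : ℝ) ^ (1 / 3 : ℝ) ≤ 2 * G ^ (1 / 3 : ℝ) := by
      calc (g : ℝ) ^ (1 / 3 : ℝ) ≤ (2 * G) ^ (1 / 3 : ℝ) :=
            Real.rpow_le_rpow hgR.le hg2 (by norm_num)
        _ = (2 : ℝ) ^ (1 / 3 : ℝ) * G ^ (1 / 3 : ℝ) := Real.mul_rpow (by norm_num) hG0.le
        _ ≤ 2 * G ^ (1 / 3 : ℝ) := by
            refine mul_le_mul_of_nonneg_right ?_ (Real.rpow_nonneg hG0.le _)
            calc (2 : ℝ) ^ (1 / 3 : ℝ) ≤ 2 ^ (1 : ℝ) :=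
                  Real.rpow_le_rpow_of_exponent_le (by norm_num) (by norm_num)
              _ = 2 := Real.rpow_one 2
    calc C₁ * (g : ℝ) ^ (1 / 3 : ℝ) ≤ C₁ * (2 * G ^ (1 / 3 : ℝ)) :=
          mul_le_mul_of_nonneg_left h4 hC0.le
      _ = 2 * C₁ * G ^ (1 / 3 : ℝ) := by ring
  choose! l ζ g z hl using hch
  obtain ⟨g1, hg1⟩ : ∃ g1 : ℝ, g1 = G ^ (1 / 3 : ℝ) := ⟨_, rfl⟩
  have hg11 : 1 ≤ g1 := by
    rw [hg1]
    exact Real.one_le_rpow hG (by norm_num)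
  have hg13 : g1 ^ 3 = G := by
    rw [hg1, ← Real.rpow_natCast, ← Real.rpow_mul hG0.le]
    norm_num
  rw [← hg1] at hl
  obtain ⟨N, hN⟩ : ∃ N : ℕ, N = ⌊2 * C₁ * g1⌋₊ := ⟨_, rfl⟩
  obtain ⟨M, hM⟩ : ∃ M : ℕ, M = ⌊C₁⌋₊ := ⟨_, rfl⟩
  have hNle : (N : ℝ) ≤ 2 * C₁ * g1 := by
    rw [hN]
    exact Nat.floor_le (by positivity)
  have hMle : (M : ℝ) ≤ C₁ := by
    rw [hM]
    exact Nat.floor_le hC0.le
  obtain ⟨Lb, hLb⟩ : ∃ Lb : Finset ((Fin 3 → ℤ) × ℕ), Lb =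
      (Fintype.piFinset (fun _ : Fin 3 => Finset.Icc (-(N : ℤ)) N)) ×ˢ Finset.Icc 1 M := ⟨_, rfl⟩
  have hcard : (Lb.card : ℝ) ≤ (4 * C₁ + 1) ^ 3 * C₁ * G := by
    have h1 : Lb.card = (2 * N + 1) ^ 3 * M := by
      rw [hLb, Finset.card_product, Fintype.card_piFinset, Finset.prod_const, Finset.card_univ,
        Fintype.card_fin, Int.card_Icc, Nat.card_Icc]
      congr 1
      congr 1
      omega
    rw [h1]
    push_cast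
    have h2 : 2 * (N : ℝ) + 1 ≤ (4 * C₁ + 1) * g1 := by nlinarith
    have h3 : (2 * (N : ℝ) + 1) ^ 3 ≤ ((4 * C₁ + 1) * g1) ^ 3 :=
      pow_le_pow_left₀ (by positivity) h2 3
    calc (2 * (N : ℝ) + 1) ^ 3 * M ≤ ((4 * C₁ + 1) * g1) ^ 3 * C₁ :=
          mul_le_mul h3 hMle (Nat.cast_nonneg _) (by positivity)
      _ = (4 * C₁ + 1) ^ 3 * C₁ * g1 ^ 3 := by ring
      _ = (4 * C₁ + 1) ^ 3 * C₁ * G := by rw [hg13]
  have hmaps : ∀ p ∈ T, l p ∈ Lb := by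
    intro p hp
    obtain ⟨_, ⟨h1, h2, h3⟩, _⟩ := hl p hp
    rw [hLb, Finset.mem_product, Fintype.mem_piFinset, Finset.mem_Icc]
    refine ⟨fun i => ?_, h1, ?_⟩
    · rw [Finset.mem_Icc, ← abs_le]
      have h4 : (((l p).1 i).natAbs : ℝ) ≤ 2 * C₁ * g1 := by
        rw [Nat.cast_natAbs, Int.cast_abs]
        exact h3 i
      have h5 : ((l p).1 i).natAbs ≤ N := by
        rw [hN]
        exact Nat.le_floor h4
      rw [Int.abs_eq_natAbs]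
      exact_mod_cast h5
    · rw [hM]
      exact Nat.le_floor h2
  have hsum : (T.card : ℝ) = ∑ b ∈ Lb, ((T.filter (fun p => l p = b)).card : ℝ) := by
    rw [Finset.card_eq_sum_card_fiberwise hmaps]
    push_cast
    rfl
  rw [hsum]
  have hb : ∀ b ∈ Lb, ((T.filter (fun p => l p = b)).card : ℝ) ≤
      C₂ * G ^ ε * U ^ ε * (√U + √(R / G)) := by
    intro b _
    rcases (T.filter (fun p => l p = b)).eq_empty_or_nonempty with hTe | ⟨p₀, hp₀⟩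
    · rw [hTe, Finset.card_empty, Nat.cast_zero]
      positivity
    rw [Finset.mem_filter] at hp₀
    obtain ⟨hp₀T, hp₀b⟩ := hp₀
    obtain ⟨⟨k1, k2, k3⟩, ⟨k4, k5, _⟩, _, _, _, k6⟩ := hl p₀ hp₀T
    rw [hp₀b] at k4 k5 k6
    refine hone v S lam G R U hS hlam hG hR hU b.1 b.2 (g p₀) k4 k5 k1 k2 k3 _ ?_
    intro p hp
    rw [Finset.mem_filter] at hp
    obtain ⟨hpT, hpb⟩ := hp
    obtain ⟨_, hs, hf, _⟩ := hT p hpT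
    obtain ⟨_, _, h4, h5, h6, h7⟩ := hl p hpT
    rw [hpb] at h7
    have hgg : g p = g p₀ := by
      have e1 : ((b.2 : ℤ)) ^ 4 * (g p : ℤ) = ((b.2 : ℤ)) ^ 4 * (g p₀ : ℤ) := by
        rw [← h7.nrm, ← k6.nrm]
      have e2 : ((b.2 : ℤ)) ^ 4 ≠ 0 := by positivity
      exact_mod_cast mul_left_cancel₀ e2 e1
    rw [hgg] at h7
    exact ⟨hs, hf, z p, ζ p, h4, h5, h6, h7⟩
  have hGs : G * (√U + √(R / G)) = G * √U + √(R * G) := by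
    have h1 : √(R * G) = G * √(R / G) := by
      have h2 : R * G = G ^ 2 * (R / G) := by
        field_simp
      rw [h2, Real.sqrt_mul (by positivity), Real.sqrt_sq hG0.le]
    rw [h1]
    ring
  calc ∑ b ∈ Lb, ((T.filter (fun p => l p = b)).card : ℝ)
      ≤ ∑ _b ∈ Lb, C₂ * G ^ ε * U ^ ε * (√U + √(R / G)) := Finset.sum_le_sum hb
    _ = (Lb.card : ℝ) * (C₂ * G ^ ε * U ^ ε * (√U + √(R / G))) := by
        rw [Finset.sum_const, nsmul_eq_mul]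
    _ ≤ ((4 * C₁ + 1) ^ 3 * C₁ * G) * (C₂ * G ^ ε * U ^ ε * (√U + √(R / G))) :=
        mul_le_mul_of_nonneg_right hcard (by positivity)
    _ = (4 * C₁ + 1) ^ 3 * C₁ * C₂ * G ^ ε * U ^ ε * (G * (√U + √(R / G))) := by ring
    _ = (4 * C₁ + 1) ^ 3 * C₁ * C₂ * G ^ ε * U ^ ε * (G * √U + √(R * G)) := by rw [hGs]

end Pool.Agent.H80.PZ
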