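import Pool.Agent.H80.PT.Mv
import Pool.Agent.H12.EH.Fac

/-!
[H80 PZ MV1]  One rational root `e`: translation by the 2-torsion point `(e, 0)`.

`Δ = 3 e² + A ≠ 0` (`Fac_ne`), `s₁ = r - e s`, `r₁ = e s₁ + Δ s` (so `r₁ / s₁ = e + Δ / (x - e)`).  `B = -e³ - A e`; identities (`ring`):
`Gf r₁ s₁ = Δ² s Qf(r, s)`, so `s₁ Gf(r₁, s₁) = Δ² s (r - e s) Qf(r, s) = Δ² s Gf(r, s) = Δ² d w²` (`gf_qf`).  `gcd(r₁, s₁) ∣ Δ gcd(s, s₁) = Δ` (`Fac_lin`).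
Divide by `g = ± gcd(r₁, s₁)` with the sign of `s₁` (as `mv_norm` in Pool/Agent/H80/PT/Mv.lean, private there: copy it): `r' s'`, coprime, `s' > 0`;
`s' Gf(r', s') = d (Δ w / g²)²`, the last number is an integer by `int_of_sq` (Pool/Agent/H12/EH/Red.lean), not 0.  `|r'|, s' ≤ K H`, `K ≥ (1 + |e|)² + |Δ| + ..`.
`sqf_dec` for `s'`: `s' = a' y'²`; `g s' = a₁ y₁²`: `|a₁|` divides `|g| |a'|` (squarefree parts: `a₁ y₁² = g a' y'²`; a prime `q ∣ a₁` divides `g a'`, as its exponent in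
`a₁ y₁²` is odd; `a₁` is squarefree), so `|a₁| ≤ |Δ| |a'|`.
-/

set_option autoImplicit false

namespace Pool.Agent.H80.PZ

open Pool.Agent.H12.EH Pool.Agent.H80.PT

/-- squarefree parts -/
private theorem mv1_sqf {a y m z : ℤ} (ha : Squarefree a) (hz : z ≠ 0) (h : a * y ^ 2 = m * z ^ 2) : a ∣ m := by
  have h1 : (a * y) ^ 2 = a * m * z ^ 2 := by linear_combination a * h
  have h2 : z ∣ a * y := by
    have h3 : z ^ 2 ∣ (a * y) ^ 2 := ⟨a * m, by rw [h1]; ring⟩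
    exact (Int.pow_dvd_pow_iff two_ne_zero).mp h3
  obtain ⟨c, hc⟩ := h2
  have h4 : c ^ 2 = a * m := by
    rw [hc] at h1
    apply mul_right_cancel₀ (pow_ne_zero 2 hz)
    linear_combination h1
  have h5 : a ∣ c := (ha.dvd_pow_iff_dvd two_ne_zero).mp ⟨m, h4⟩
  have h6 : a * a ∣ a * m := by
    rw [← h4, ← pow_two]
    exact pow_dvd_pow_of_dvd h5 2
  exact (mul_dvd_mul_iff_left ha.ne_zero).mp h6

private theorem mv1_norm {r₁ s₁ : ℤ} (h : s₁ ≠ 0) : ∃ r' s' g : ℤ, IsCoprime r' s' ∧ 0 < s' ∧ g ≠ 0 ∧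
    r₁ = r' * g ∧ s₁ = s' * g := by
  have hg : 0 < Int.gcd r₁ s₁ := Int.gcd_pos_of_ne_zero_right _ h
  obtain ⟨g, m, n, hg0, hmn, hm, hn⟩ := Int.exists_gcd_one' hg
  have hc : IsCoprime m n := Int.isCoprime_iff_gcd_eq_one.mpr hmn
  have hgz : (g : ℤ) ≠ 0 := by positivity
  rcases lt_trichotomy n 0 with hn0 | hn0 | hn0
  · refine ⟨-m, -n, -(g : ℤ), hc.neg_neg, by omega, neg_ne_zero.mpr hgz, ?_, ?_⟩
    · rw [hm]; ring
    · rw [hn]; ring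
  · exfalso
    apply h
    rw [hn, hn0, zero_mul]
  · exact ⟨m, n, g, hc, hn0, hgz, hm, hn⟩

private theorem mv1_abs {a b g : ℤ} (hg : g ≠ 0) (h : a = b * g) : |(b : ℝ)| ≤ |(a : ℝ)| := by
  have h1 : (1 : ℝ) ≤ |(g : ℝ)| := by
    have := Int.one_le_abs hg
    exact_mod_cast this
  rw [h, Int.cast_mul, abs_mul]
  exact le_mul_of_one_le_right (abs_nonneg _) h1

theorem mv1 {A B e : ℤ} (hD : 4 * A ^ 3 + 27 * B ^ 2 ≠ 0) (he : e ^ 3 + A * e + B = 0) : ∃ K : ℝ, 1 ≤ K ∧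
    ∀ (H : ℝ) (d : ℕ) (r s a₁ y₁ : ℤ), Squarefree d → Tw A B H d r s → Squarefree a₁ → 0 < y₁ →
      r - e * s = a₁ * y₁ ^ 2 → ∃ r' s' a' y' : ℤ, Tw A B (K * H) d r' s' ∧ Squarefree a' ∧ 0 < y' ∧
        s' = a' * y' ^ 2 ∧ |(a₁ : ℝ)| ≤ K * |(a' : ℝ)| := by
  have hδ0 : 3 * e ^ 2 + A ≠ 0 := Fac_ne hD he
  set δ : ℤ := 3 * e ^ 2 + A with hδ
  set a : ℝ := |(e : ℝ)| with ha
  set b : ℝ := |(δ : ℝ)| with hb
  have ha0 : 0 ≤ a := abs_nonneg _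
  have hb0 : 0 ≤ b := abs_nonneg _
  have haa : 0 ≤ a * (1 + a) := mul_nonneg ha0 (by linarith)
  refine ⟨a * (1 + a) + b + (1 + a), by linarith, ?_⟩
  rintro H d r s a₁ y₁ hd ⟨hc, hs, hr1, hs1, w, hw, hew⟩ ha₁ hy₁ h₁
  have hsR : (0 : ℝ) < s := by exact_mod_cast hs
  have hH : 0 < H := lt_of_lt_of_le hsR hs1
  have haH : 0 ≤ a * H := by positivity
  have haaH : 0 ≤ a * (a * H) := by positivity
  have hbH : 0 ≤ b * H := by positivity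
  set s₁ : ℤ := r - e * s with hs₁
  set r₁ : ℤ := e * s₁ + δ * s with hr₁
  have hs₁0 : s₁ ≠ 0 := by
    rw [h₁]
    exact mul_ne_zero ha₁.ne_zero (pow_ne_zero 2 hy₁.ne')
  have hid : s₁ * Gf A B r₁ s₁ = δ ^ 2 * (s * Gf A B r s) := by
    rw [gf_qf he, gf_qf he, ← hs₁, hr₁]
    unfold Qf
    rw [hδ, hs₁]
    ring
  obtain ⟨r', s', g, hc', hs', hg, hrg, hsg⟩ := mv1_norm (r₁ := r₁) hs₁0
  have hgq : (g : ℚ) ≠ 0 := by exact_mod_cast hg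
  have hid2 : g ^ 4 * (s' * Gf A B r' s') = d * (δ * w) ^ 2 := by
    have h1 : g ^ 4 * (s' * Gf A B r' s') = s₁ * Gf A B r₁ s₁ := by
      rw [hrg, hsg]
      unfold Gf
      ring
    rw [h1, hid, hew]
    ring
  have hq2 : ((s' * Gf A B r' s' : ℤ) : ℚ) = d * ((δ * w : ℤ) / (g : ℚ) ^ 2) ^ 2 := by
    have h1 : (g : ℚ) ^ 4 * ((s' * Gf A B r' s' : ℤ) : ℚ) = d * ((δ * w : ℤ) : ℚ) ^ 2 := by
      exact_mod_cast hid2
    field_simp
    linear_combination h1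
  obtain ⟨n, hn⟩ := int_of_sq hd hq2
  have hn0 : n ≠ 0 := by
    intro h0
    rw [h0, Int.cast_zero, div_eq_zero_iff] at hn
    rcases hn with hn | hn
    · exact (mul_ne_zero hδ0 hw) (by exact_mod_cast hn)
    · exact (pow_ne_zero 2 hgq) hn
  rw [hn] at hq2
  have hs₁R : |(s₁ : ℝ)| ≤ (1 + a) * H := by
    rw [hs₁]
    push_cast
    have h1 : |(r : ℝ) - e * s| ≤ |(r : ℝ)| + |(e : ℝ) * s| := abs_sub _ _
    rw [abs_mul, abs_of_pos hsR, ← ha] at h1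
    have h2 := mul_le_mul_of_nonneg_left hs1 ha0
    linarith
  have hr₁R : |(r₁ : ℝ)| ≤ (a * (1 + a) + b) * H := by
    rw [hr₁]
    push_cast
    have h1 : |(e : ℝ) * s₁ + δ * s| ≤ |(e : ℝ) * s₁| + |(δ : ℝ) * s| := abs_add_le _ _
    rw [abs_mul, abs_mul, abs_of_pos hsR, ← ha, ← hb] at h1
    have h2 := mul_le_mul_of_nonneg_left hs1 hb0
    have h3 := mul_le_mul_of_nonneg_left hs₁R ha0
    linarith
  obtain ⟨a', y', ha', hy', hay⟩ := sqf_dec s' hs'.ne'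
  have hgδ : g ∣ δ := by
    have h1 : g ∣ δ * s := by
      have h2 : δ * s = r₁ - e * s₁ := by rw [hr₁]; ring
      rw [h2, hrg, hsg]
      exact dvd_sub (Dvd.intro_left _ rfl) ((Dvd.intro_left _ rfl).mul_left _)
    have h2 : IsCoprime g s := by
      have h3 : IsCoprime s s₁ := Fac_lin hc e
      exact (h3.of_isCoprime_of_dvd_right ⟨s', by rw [hsg]; ring⟩).symm
    exact h2.dvd_of_dvd_mul_right h1
  have hgR : |(g : ℝ)| ≤ b := by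
    have h1 : |g| ≤ |δ| := Int.le_of_dvd (abs_pos.mpr hδ0) ((abs_dvd_abs g δ).mpr hgδ)
    rw [hb]
    exact_mod_cast h1
  have hdv : a₁ ∣ a' * g := by
    apply mv1_sqf ha₁ hy'.ne' (y := y₁)
    rw [← h₁, hsg, hay]
    ring
  have haR : |(a₁ : ℝ)| ≤ |(a' : ℝ)| * |(g : ℝ)| := by
    have h1 : |a₁| ≤ |a' * g| :=
      Int.le_of_dvd (abs_pos.mpr (mul_ne_zero ha'.ne_zero hg)) ((abs_dvd_abs _ _).mpr hdv)
    rw [← abs_mul]
    exact_mod_cast h1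
  refine ⟨r', s', a', y', ⟨hc', hs', ?_, ?_, n, hn0, by exact_mod_cast hq2⟩, ha', hy', hay, ?_⟩
  · have h1 := mv1_abs hg hrg
    nlinarith
  · have h1 := mv1_abs hg hsg
    have h2 := le_abs_self (s' : ℝ)
    nlinarith
  · have h1 : |(a' : ℝ)| * |(g : ℝ)| ≤ |(a' : ℝ)| * b := mul_le_mul_of_nonneg_left hgR (abs_nonneg _)
    have h2 : 0 ≤ (a * (1 + a) + (1 + a)) * |(a' : ℝ)| := by positivity
    nlinarith

end Pool.Agent.H80.PZ
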