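import Pool.Agent.H80.PZ.Lb1
import Pool.Agent.H12.EH.Rho
import Pool.Agent.H12.EH.Dya

/-!
[H80 PZ SUM1]  One rational root: the number of pairs of height at most `H` with a large label of `s`.

Exactly as `sumz` (Pool/Agent/H80/PZ/Sumz.lean) with `lbz1` for `lbz`; `ρ` with `ρ 0 = e` from `exists_roots_of` (Pool/Agent/H12/EH/Rho.lean).
-/

set_option autoImplicit false

namespace Pool.Agent.H80.PZ

open Pool.Agent.H12.EH

theorem sumz1 {A B : ℤ} (hD : 4 * A ^ 3 + 27 * B ^ 2 ≠ 0) {e : ℤ} (he : e ^ 3 + A * e + B = 0)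
    (hirr : ∀ x : ℚ, x ^ 2 + e * x + (e ^ 2 + A) ≠ 0) (ε : ℝ) (hε : 0 < ε) : ∃ C : ℝ, 0 < C ∧
    ∀ H X P : ℝ, 1 ≤ H → 1 ≤ X → 1 ≤ P → ∀ T : Finset (ℤ × ℤ),
    (∀ p ∈ T, IsCoprime p.1 p.2 ∧ 0 < p.2 ∧ |(p.1 : ℝ)| ≤ H ∧ (p.2 : ℝ) ≤ H ∧ Gf A B p.1 p.2 ≠ 0 ∧
      ∃ a g y w : ℕ, Squarefree g ∧ 0 < y ∧ 0 < w ∧ p.2 = a * y ^ 2 ∧ Gf A B p.1 p.2 = g * w ^ 2 ∧ P ≤ a ∧
        (a : ℝ) * g ≤ X) →
    (T.card : ℝ) ≤ C * (H * X) ^ ε * (X / P * √(H / P) + √X) := by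
  classical
  obtain ⟨ρ, hρ, hρ0⟩ := exists_roots_of A B hD e he
  obtain ⟨C1, hC1, hdya⟩ := dya1 hρ
  obtain ⟨C2, hC2, hlbz⟩ := lbz1 hD hρ hρ0 hirr (ε / 2) (by positivity)
  obtain ⟨C4, hC4, hlog⟩ := log_pow_le 3 (ε / 2) (by positivity)
  have hC1p : 0 < C1 := by linarith
  refine ⟨C1 * 2 * C4 * C2, by positivity, ?_⟩
  intro H X P hH hX hP T hTT
  have hP0 : 0 < P := by linarith
  have hH0 : 0 < H := by linarith
  have hX0 : 0 < X := by linarith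
  rcases T.eq_empty_or_nonempty with hT0 | ⟨p0, hp0⟩
  · rw [hT0]
    simp only [Finset.card_empty, Nat.cast_zero]
    positivity
  have hY1 : 1 ≤ H * X := one_le_mul_of_one_le_of_one_le hH hX
  have hY0 : 0 < H * X := by linarith
  have hHY : H ≤ H * X := le_mul_of_one_le_right hH0.le hX
  have hXY : X ≤ H * X := le_mul_of_one_le_left hX0.le hH
  have hfac : ∀ p : ℤ × ℤ, ∃ a g y w : ℕ, p ∈ T →
      (Squarefree g ∧ 0 < y ∧ 0 < w ∧ p.2 = a * y ^ 2 ∧ Gf A B p.1 p.2 = g * w ^ 2 ∧ P ≤ a ∧ (a : ℝ) * g ≤ X) := by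
    intro p
    by_cases hp : p ∈ T
    · obtain ⟨-, -, -, -, -, a, g, y, w, h⟩ := hTT p hp
      exact ⟨a, g, y, w, fun _ => h⟩
    · exact ⟨0, 0, 0, 0, fun h => absurd h hp⟩
  choose a g y w hay using hfac
  -- the sizes
  have hsize : ∀ p ∈ T, 1 ≤ g p ∧ (g p : ℝ) ≤ X / P ∧ ((y p : ℕ) : ℝ) ^ 2 ≤ H / P ∧ (1 : ℝ) ≤ ((y p : ℕ) : ℝ) ^ 2 ∧
      (p.2 : ℝ) = (a p : ℝ) * ((y p : ℕ) : ℝ) ^ 2 := by
    intro p hp
    obtain ⟨h1, h2, h3, h4, h5, h6, h7⟩ := hay p hp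
    obtain ⟨-, -, -, h8, -⟩ := hTT p hp
    have hs : (p.2 : ℝ) = (a p : ℝ) * ((y p : ℕ) : ℝ) ^ 2 := by
      rw [h4]
      push_cast
      ring
    have hy1 : (1 : ℝ) ≤ ((y p : ℕ) : ℝ) := by exact_mod_cast h2
    have hy2 : (1 : ℝ) ≤ ((y p : ℕ) : ℝ) ^ 2 := one_le_pow₀ hy1
    refine ⟨Nat.one_le_iff_ne_zero.mpr h1.ne_zero, ?_, ?_, hy2, hs⟩
    · rw [le_div_iff₀ hP0]
      calc (g p : ℝ) * P ≤ (g p : ℝ) * a p := mul_le_mul_of_nonneg_left h6 (Nat.cast_nonneg _)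
        _ = (a p : ℝ) * g p := mul_comm _ _
        _ ≤ X := h7
    · rw [le_div_iff₀ hP0]
      calc ((y p : ℕ) : ℝ) ^ 2 * P ≤ ((y p : ℕ) : ℝ) ^ 2 * a p := mul_le_mul_of_nonneg_left h6 (by positivity)
        _ = (p.2 : ℝ) := by rw [hs]; ring
        _ ≤ H := h8
  obtain ⟨q1, q2, q3, q4, -⟩ := hsize p0 hp0
  have hU1 : 1 ≤ H / P := q4.trans q3
  have hG1 : 1 ≤ X / P := by
    refine le_trans ?_ q2
    exact_mod_cast q1
  have hU0 : 0 < H / P := by linarith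
  have hG0 : 0 < X / P := by linarith
  obtain ⟨N, hN⟩ : ∃ N : ℕ, N = ⌊X / P⌋₊ := ⟨_, rfl⟩
  have hNQ : (N : ℝ) ≤ X / P := by
    rw [hN]
    exact Nat.floor_le hG0.le
  obtain ⟨M, hM⟩ : ∃ M : ℝ, M = C2 * (X / P) ^ (ε / 2) * (H / P) ^ (ε / 2) * (X / P * √(H / P) + √X) := ⟨_, rfl⟩
  have hM0 : 0 ≤ M := by rw [hM]; positivity
  have hg1 : ∀ p ∈ T, 1 ≤ g p ∧ g p ≤ N := by
    intro p hp
    obtain ⟨h1, h2, -⟩ := hsize p hp
    refine ⟨h1, ?_⟩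
    rw [hN]
    exact Nat.le_floor h2
  -- one fiber
  have hfib : ∀ (v : Fin 3) (S lam : ℝ), 1 ≤ S → 0 < lam → S * lam ≤ C1 * H → ∀ T' ⊆ T,
      (∀ p ∈ T', Fib ρ v S lam p.1 p.2) →
      (T'.card : ℝ) ≤ (Nat.log 2 N + 1) * M := by
    intro v S lam hS hlam hSl T' hT' hF
    apply dya2 _ g N M hM0
    · intro p hp
      exact hg1 p (hT' hp)
    · intro k hk T'' hT'' hT2
      have hL1 : (1 : ℝ) ≤ (2 : ℝ) ^ k := one_le_pow₀ (by norm_num)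
      have hL0 : (0 : ℝ) < (2 : ℝ) ^ k := by positivity
      have hLQ : (2 : ℝ) ^ k ≤ X / P := by
        refine le_trans ?_ hNQ
        exact_mod_cast hk
      have hcl := hlbz v S lam ((2 : ℝ) ^ k) (X / (2 : ℝ) ^ k) (H / P) (by linarith) hlam hL1 (by positivity) hU1 T'' ?_
      · refine hcl.trans ?_
        rw [hM]
        have h1 : ((2 : ℝ) ^ k) ^ (ε / 2) ≤ (X / P) ^ (ε / 2) :=
          Real.rpow_le_rpow (by positivity) hLQ (by positivity)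
        have h2 : √(X / (2 : ℝ) ^ k * (2 : ℝ) ^ k) = √X := by
          rw [div_mul_cancel₀ X hL0.ne']
        rw [h2]
        have h3 : (2 : ℝ) ^ k * √(H / P) ≤ X / P * √(H / P) := mul_le_mul_of_nonneg_right hLQ (Real.sqrt_nonneg _)
        have h4 : 0 ≤ (H / P) ^ (ε / 2) := by positivity
        gcongr
      · intro p hp
        have hp1 := hT'' hp
        have hpT := hT' hp1
        obtain ⟨h1, h2, h3, h4, h5, h6, h7⟩ := hay p hpT
        obtain ⟨o1, o2, -⟩ := hTT p hpT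
        obtain ⟨s1, s2, s3, s4, s5⟩ := hsize p hpT
        have t1 : ((2 : ℝ) ^ k) ≤ (g p : ℝ) := by
          have := (hT2 p hp).1
          exact_mod_cast this
        have t2 : (g p : ℝ) ≤ 2 * (2 : ℝ) ^ k := by
          have := (hT2 p hp).2
          exact_mod_cast this
        refine ⟨o1, o2, hF p hp1, g p, w p, y p, h1, h3, h2, t1, t2, h5, ?_, s3, ?_⟩
        · rw [h4]
          exact dvd_mul_left _ _
        · have t3 : S ≤ (p.2 : ℝ) := (hF p hp1).1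
          rw [s5] at t3
          refine t3.trans (mul_le_mul_of_nonneg_right ?_ (by positivity))
          rw [le_div_iff₀ hL0]
          calc (a p : ℝ) * (2 : ℝ) ^ k ≤ (a p : ℝ) * g p := mul_le_mul_of_nonneg_left t1 (Nat.cast_nonneg _)
            _ ≤ X := h7
  have hne : ∀ p ∈ T, 0 < p.2 ∧ |(p.1 : ℝ)| ≤ H ∧ (p.2 : ℝ) ≤ H ∧ Gf A B p.1 p.2 ≠ 0 := by
    intro p hp
    obtain ⟨h1, h2, h3, h4, h5, -⟩ := hTT p hp
    exact ⟨h2, h3, h4, h5⟩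
  have hmain := hdya H hH T ((Nat.log 2 N + 1) * M) (by positivity) hne hfib
  refine hmain.trans ?_
  -- estimates
  have hlY : 0 ≤ Real.log (H * X) := Real.log_nonneg hY1
  have hlH : 0 ≤ Real.log H := Real.log_nonneg hH
  have g1 : Real.log H + 1 ≤ Real.log (H * X) + 1 := by
    have := Real.log_le_log hH0 hHY
    linarith
  have g1' : 0 ≤ Real.log H + 1 := by linarith
  have hXP : X / P ≤ X := div_le_self hX0.le hP
  have hHP : H / P ≤ H := div_le_self hH0.le hP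
  have g2 : ((Nat.log 2 N : ℕ) : ℝ) + 1 ≤ 2 * (Real.log (H * X) + 1) := by
    have hl2 : (1 : ℝ) / 2 < Real.log 2 := by
      have := Real.log_two_gt_d9
      linarith
    have hN0 : N ≠ 0 := by
      rw [hN]
      have := Nat.floor_pos.mpr hG1
      omega
    have e1 : 2 ^ Nat.log 2 N ≤ N := Nat.pow_log_le_self 2 hN0
    have e2 : (2 : ℝ) ^ Nat.log 2 N ≤ X / P := by
      refine le_trans ?_ hNQ
      exact_mod_cast e1
    have e3 := Real.log_le_log (by positivity) e2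
    rw [Real.log_pow] at e3
    have e5 : Real.log (X / P) ≤ Real.log (H * X) := Real.log_le_log hG0 (hXP.trans hXY)
    have e4 : (0 : ℝ) ≤ ((Nat.log 2 N : ℕ) : ℝ) := by positivity
    have e6 : ((Nat.log 2 N : ℕ) : ℝ) ≤ 2 * Real.log (X / P) := by nlinarith
    linarith
  have g3 : (X / P) ^ (ε / 2) * (H / P) ^ (ε / 2) ≤ (H * X) ^ (ε / 2) := by
    have e1 : (X / P) ^ (ε / 2) ≤ X ^ (ε / 2) := Real.rpow_le_rpow hG0.le hXP (by positivity)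
    have e2 : (H / P) ^ (ε / 2) ≤ H ^ (ε / 2) := Real.rpow_le_rpow hU0.le hHP (by positivity)
    rw [Real.mul_rpow hH0.le hX0.le, mul_comm (H ^ (ε / 2))]
    exact mul_le_mul e1 e2 (by positivity) (by positivity)
  have g5 := hlog (H * X) hY1
  have hlY1 : 0 ≤ Real.log (H * X) + 1 := by linarith
  have hF0 : 0 ≤ X / P * √(H / P) + √X := by positivity
  calc C1 * (Real.log H + 1) ^ 2 * ((Nat.log 2 N + 1) * M)
      ≤ C1 * (Real.log (H * X) + 1) ^ 2 * ((2 * (Real.log (H * X) + 1)) * M) := by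
        gcongr
    _ = C1 * 2 * (Real.log (H * X) + 1) ^ 3 * C2 * ((X / P) ^ (ε / 2) * (H / P) ^ (ε / 2)) *
        (X / P * √(H / P) + √X) := by
        rw [hM]
        ring
    _ ≤ C1 * 2 * (C4 * (H * X) ^ (ε / 2)) * C2 * (H * X) ^ (ε / 2) * (X / P * √(H / P) + √X) := by
        gcongr
    _ = C1 * 2 * C4 * C2 * ((H * X) ^ (ε / 2) * (H * X) ^ (ε / 2)) * (X / P * √(H / P) + √X) := by ring
    _ = C1 * 2 * C4 * C2 * (H * X) ^ ε * (X / P * √(H / P) + √X) := by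
        rw [← Real.rpow_add hY0]
        norm_num

end Pool.Agent.H80.PZ
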