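import Pool.Agent.H80.PS.One
import Pool.Agent.H80.PZ.Crd
import Pool.Agent.H80.PZ.Mv1
import Pool.Agent.H80.PZ.Sum1

/-!
[H80 PZ ONE2]  One rational root: almost all twists, with the third term `max(d_0, d_1)^(3/2)`.

`bad1Z A B e X ε`: the squarefree `d ≤ X` with `η_d ≤ f(d) X^(-ε)`, where `f(d)` is the minimum of
`max(d_2^(3/4), (d max(d_0, d_1))^(1/2), max(d_0, d_1)^(3/2))` over those `d = d_0 d_1 d_2` for which `-(3 e² + 4 A)` (the discriminant of the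
quadratic factor) is a square modulo every prime factor of `d_2`.  The first two terms as in H80/PS/One.lean (its private lemmas are repeated here); the third term:
if `Y ≤ |a_0|^(3/2) X^(-ε)` then `d ∈ S3` (`mem3`), if `Y ≤ |a_1|^(3/2) X^(-ε)` the translate of the pair by the 2-torsion point (`mv1`) and `mem3`; `card3` with `sumz1`.
-/

set_option autoImplicit false

namespace Pool.Agent.H80.PZ

open Pool.Agent.H12.EH Pool.Agent.H80.PT Pool.Agent.H80.PS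

/-- The squarefree `d ≤ X` such that `η_d ≤ Y` for some `Y` which is at most
`max(d_2^(3/4), (d max(d_0, d_1))^(1/2), max(d_0, d_1)^(3/2)) X^(-ε)` for
all factorizations `d = d_0 d_1 d_2` such that `-(3 e² + 4 A)` is a square modulo every prime factor of `d_2`. -/
def bad1Z (A B e : ℤ) (X ε : ℝ) : Set ℕ :=
  {d | ∃ Y : ℝ, d ∈ low A B X Y ∧ ∀ b : Fin 3 → ℕ, ∏ i, b i = d →
    (∀ p : ℕ, p.Prime → p ∣ b 2 → ∃ t : ℤ, (p : ℤ) ∣ t ^ 2 + (3 * e ^ 2 + 4 * A)) →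
    Y ≤ max (max ((b 2 : ℝ) ^ (3 / 4 : ℝ)) (((d : ℝ) * max (b 0 : ℝ) (b 1)) ^ (1 / 2 : ℝ)))
      ((max (b 0 : ℝ) (b 1)) ^ (3 / 2 : ℝ)) * X ^ (-ε)}

/-- the `d` with a pair of height at most `C₀ Y²`, where `Y` is small for the label `a_j` -/
private def Sj (A B e : ℤ) (C₀ K X ε : ℝ) (j : Fin 3) : Set ℕ :=
  {d | ∃ (Y : ℝ) (r s : ℤ) (a y : Fin 3 → ℤ), d ∈ low A B X Y ∧ Tw A B (C₀ * Y ^ 2) d r s ∧
    (∀ i, Squarefree (a i)) ∧ (∀ i, 0 < y i) ∧ s = a 0 * y 0 ^ 2 ∧ r - e * s = a 1 * y 1 ^ 2 ∧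
    Qf A e r s = a 2 * y 2 ^ 2 ∧ |((a 0 * a 1 * a 2 : ℤ) : ℝ)| ≤ K * X ∧ 0 < Y ∧
    Y ≤ (if j = 2 then |((a 2 : ℤ) : ℝ)| ^ (3 / 4 : ℝ) else (X * |((a j : ℤ) : ℝ)|) ^ (1 / 2 : ℝ)) * X ^ (-ε)}

private theorem res {A e r s : ℤ} (hc : IsCoprime r s) {p : ℕ} (hp : p.Prime) (h : (p : ℤ) ∣ Qf A e r s) :
    ∃ t : ℤ, (p : ℤ) ∣ t ^ 2 + (3 * e ^ 2 + 4 * A) := by
  have hpp : Prime (p : ℤ) := Nat.prime_iff_prime_int.mp hp
  unfold Qf at h
  have hs : ¬ (p : ℤ) ∣ s := by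
    intro h1
    have h2 : (p : ℤ) ∣ r ^ 2 := by
      have h3 : r ^ 2 = (r ^ 2 + e * r * s + (e ^ 2 + A) * s ^ 2) - s * (e * r + (e ^ 2 + A) * s) := by ring
      rw [h3]
      exact dvd_sub h (h1.mul_right _)
    exact hpp.not_isUnit (hc.isUnit_of_dvd' (hpp.dvd_of_dvd_pow h2) h1)
  obtain ⟨u, v, huv⟩ := (Prime.coprime_iff_not_dvd hpp).mpr hs
  obtain ⟨k, hk⟩ := h
  refine ⟨(2 * r + e * s) * v, 4 * v ^ 2 * k + (3 * e ^ 2 + 4 * A) * (u * (1 + v * s)), ?_⟩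
  linear_combination (4 * v ^ 2) * hk - (3 * e ^ 2 + 4 * A) * (1 + v * s) * huv

private theorem inj {A B : ℤ} (Z : Finset ℕ) {R : ℤ × ℤ → Prop} (h : ∀ d ∈ Z, Squarefree d ∧
    ∃ p : ℤ × ℤ, R p ∧ ∃ w : ℤ, w ≠ 0 ∧ p.2 * Gf A B p.1 p.2 = d * w ^ 2) :
    ∃ T : Finset (ℤ × ℤ), (∀ p ∈ T, R p) ∧ (Z.card : ℝ) ≤ T.card := by
  classical
  have key : ∀ d ∈ Z, ∃ p : ℤ × ℤ, R p ∧ ∃ w : ℤ, w ≠ 0 ∧ p.2 * Gf A B p.1 p.2 = d * w ^ 2 := fun d hd => (h d hd).2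
  choose! f hf w hw0 hw using key
  refine ⟨Z.image f, ?_, ?_⟩
  · intro p hp
    rw [Finset.mem_image] at hp
    obtain ⟨d, hd, rfl⟩ := hp
    exact hf d hd
  · have h1 : (Z.image f).card = Z.card := by
      apply Finset.card_image_of_injOn
      intro d hd d' hd' hdd
      have hd := Finset.mem_coe.mp hd
      have hd' := Finset.mem_coe.mp hd'
      have g1 := hw d hd
      have g2 := hw d' hd'
      rw [hdd, g2] at g1
      apply sqf_unique (h d hd).1 (h d' hd').1 (Int.natAbs_ne_zero.mpr (hw0 d' hd')) (a := (w d).natAbs)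
      have h3 : (d : ℤ) * (w d) ^ 2 = d' * (w d') ^ 2 := g1.symm
      have h4 := congrArg Int.natAbs h3
      rw [Int.natAbs_mul, Int.natAbs_mul, Int.natAbs_pow, Int.natAbs_pow, Int.natAbs_natCast, Int.natAbs_natCast] at h4
      exact h4
    rw [h1]

private theorem Sj_fin (A B e : ℤ) (C₀ K X ε : ℝ) (j : Fin 3) : (Sj A B e C₀ K X ε j).Finite := by
  refine (Set.finite_Iic ⌊X⌋₊).subset ?_
  rintro d ⟨Y, r, s, a, y, hlow, -⟩
  exact Nat.le_floor hlow.1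

private theorem lg {K : ℝ} (hK : 1 ≤ K) (ε : ℝ) (hε : 0 < ε) : ∃ C : ℝ, 0 < C ∧ ∀ X : ℝ, 1 ≤ X →
    ((Nat.log 2 ⌊K * X⌋₊ : ℕ) : ℝ) + 1 ≤ C * X ^ ε := by
  obtain ⟨C, hC, h⟩ := log_pow_le 1 ε hε
  refine ⟨2 * C * K ^ ε, by positivity, ?_⟩
  intro X hX
  have hK0 : 0 < K := by linarith
  have hX0 : 0 < X := by linarith
  have hKX : 1 ≤ K * X := one_le_mul_of_one_le_of_one_le hK hX
  have h1 := h (K * X) hKX
  rw [pow_one, Real.mul_rpow hK0.le hX0.le] at h1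
  have hfl : 1 ≤ ⌊K * X⌋₊ := Nat.le_floor (by simpa using hKX)
  have h2 : (2 : ℝ) ^ (Nat.log 2 ⌊K * X⌋₊) ≤ K * X := by
    have e1 : 2 ^ (Nat.log 2 ⌊K * X⌋₊) ≤ ⌊K * X⌋₊ := Nat.pow_log_le_self 2 (by omega)
    have e2 : ((2 ^ (Nat.log 2 ⌊K * X⌋₊) : ℕ) : ℝ) ≤ (⌊K * X⌋₊ : ℝ) := by exact_mod_cast e1
    push_cast at e2
    exact e2.trans (Nat.floor_le (by linarith))
  have e1 : ((Nat.log 2 ⌊K * X⌋₊ : ℕ) : ℝ) * Real.log 2 ≤ Real.log (K * X) := by
    rw [← Real.log_pow]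
    exact Real.log_le_log (by positivity) h2
  have e2 : (1 / 2 : ℝ) ≤ Real.log 2 := by
    have := Real.log_two_gt_d9
    linarith
  have e3 : ((Nat.log 2 ⌊K * X⌋₊ : ℕ) : ℝ) * (1 / 2) ≤ ((Nat.log 2 ⌊K * X⌋₊ : ℕ) : ℝ) * Real.log 2 :=
    mul_le_mul_of_nonneg_left e2 (Nat.cast_nonneg _)
  calc ((Nat.log 2 ⌊K * X⌋₊ : ℕ) : ℝ) + 1 ≤ 2 * (Real.log (K * X) + 1) := by linarith
    _ ≤ 2 * (C * (K ^ ε * X ^ ε)) := by linarith
    _ = _ := by ring

private theorem ab1 {a : ℤ} (h : Squarefree a) : (1 : ℝ) ≤ |(a : ℝ)| := by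
  have h2 : (1 : ℤ) ≤ |a| := Int.one_le_abs h.ne_zero
  exact_mod_cast h2

private theorem na (a : ℤ) : ((a.natAbs : ℕ) : ℝ) = |(a : ℝ)| := by
  rw [Nat.cast_natAbs, Int.cast_abs]

private theorem Gf_ne {A B : ℤ} {d : ℕ} (hd : Squarefree d) {r s w : ℤ} (hw : w ≠ 0) (h : s * Gf A B r s = d * w ^ 2) :
    Gf A B r s ≠ 0 := by
  intro h0
  rw [h0, mul_zero] at h
  have h7 : (d : ℤ) ≠ 0 := by exact_mod_cast hd.ne_zero
  exact (mul_ne_zero h7 (pow_ne_zero 2 hw)) h.symm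

/-- `|a_j| ≤ K X` -/
private theorem aKX {a : Fin 3 → ℤ} (ha : ∀ i, Squarefree (a i)) {t : ℝ} (h : |((a 0 * a 1 * a 2 : ℤ) : ℝ)| ≤ t)
    (j : Fin 3) : |((a j : ℤ) : ℝ)| ≤ t := by
  rw [Int.cast_mul, Int.cast_mul, abs_mul, abs_mul] at h
  have h0 := ab1 (ha 0)
  have h1 := ab1 (ha 1)
  have h2 := ab1 (ha 2)
  have h01 : (1 : ℝ) ≤ |((a 0 : ℤ) : ℝ)| * |((a 1 : ℤ) : ℝ)| := one_le_mul_of_one_le_of_one_le h0 h1
  refine le_trans ?_ h
  fin_cases j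
  · calc |((a 0 : ℤ) : ℝ)| ≤ |((a 0 : ℤ) : ℝ)| * |((a 1 : ℤ) : ℝ)| := le_mul_of_one_le_right (abs_nonneg _) h1
      _ ≤ _ := le_mul_of_one_le_right (by positivity) h2
  · calc |((a 1 : ℤ) : ℝ)| ≤ |((a 0 : ℤ) : ℝ)| * |((a 1 : ℤ) : ℝ)| := le_mul_of_one_le_left (abs_nonneg _) h0
      _ ≤ _ := le_mul_of_one_le_right (by positivity) h2
  · exact le_mul_of_one_le_left (abs_nonneg _) h01

private theorem cardT {A B : ℤ} (hD : 4 * A ^ 3 + 27 * B ^ 2 ≠ 0) {ρ : Fin 3 → ℂ} (hρ : Roots A B ρ) {e : ℤ}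
    (he : ρ 0 = e) {C₀ K : ℝ} (hC₀ : 1 ≤ C₀) (hK : 1 ≤ K) (ε : ℝ) (hε : 0 < ε) (hε4 : ε ≤ 1 / 4) :
    ∃ C : ℝ, 0 < C ∧ ∀ X : ℝ, 1 ≤ X → ((Sj A B e C₀ K X ε 2).ncard : ℝ) ≤ C * X ^ (1 - ε / 8) := by
  classical
  obtain ⟨C1, hC1, h1⟩ := ctT hD hρ he K hK (ε / 12) (by positivity)
  obtain ⟨C2, hC2, h2⟩ := lg hK (ε / 4) (by positivity)
  obtain ⟨Q, hQ⟩ : ∃ Q : ℝ, Q = C₀ * (2 * K) ^ 2 := ⟨_, rfl⟩
  have hQ0 : 0 < Q := by rw [hQ]; positivity
  refine ⟨C2 * (C1 * Q ^ (ε / 12) * (3 * C₀ + 1)), by positivity, ?_⟩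
  intro X hX
  have hX0 : 0 < X := by linarith
  have hC₀0 : 0 < C₀ := by linarith
  have hK0 : 0 < K := by linarith
  obtain ⟨T, hT⟩ : ∃ T : Finset ℕ, T = (Sj_fin A B e C₀ K X ε 2).toFinset := ⟨_, rfl⟩
  have hcard : ((Sj A B e C₀ K X ε 2).ncard : ℝ) = T.card := by
    rw [hT, Set.ncard_eq_toFinset_card _ (Sj_fin A B e C₀ K X ε 2)]
  have hmem : ∀ d ∈ T, d ∈ Sj A B e C₀ K X ε 2 := by
    intro d hd
    rw [hT, Set.Finite.mem_toFinset] at hd
    exact hd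
  rw [hcard]
  choose! Y r s a y hlow hTw ha hy hs hr hq hK' hY0 hYb using hmem
  have hM0 : 0 ≤ C1 * Q ^ (ε / 12) * (3 * C₀ + 1) * X ^ (1 - ε / 2) := by positivity
  have hdy := dya2 T (fun d => (a d 2).natAbs) ⌊K * X⌋₊ (C1 * Q ^ (ε / 12) * (3 * C₀ + 1) * X ^ (1 - ε / 2)) hM0
    (by
      intro d hd
      refine ⟨Int.natAbs_pos.mpr (ha d hd 2).ne_zero, Nat.le_floor ?_⟩
      rw [na]
      exact aKX (ha d hd) (hK' d hd) 2)
    (by
      intro k hk T' hT' hk2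
      rcases T'.eq_empty_or_nonempty with hTe | ⟨d0, hd0⟩
      · rw [hTe, Finset.card_empty, Nat.cast_zero]
        exact hM0
      obtain ⟨G, hG⟩ : ∃ G : ℝ, G = (2 : ℝ) ^ k := ⟨_, rfl⟩
      have hG1 : 1 ≤ G := by rw [hG]; exact one_le_pow₀ (by norm_num)
      have hG0 : 0 < G := by linarith
      have hGa : ∀ d ∈ T', G ≤ |((a d 2 : ℤ) : ℝ)| ∧ |((a d 2 : ℤ) : ℝ)| ≤ 2 * G := by
        intro d hd
        rw [← na, hG]
        exact ⟨by exact_mod_cast (hk2 d hd).1, by exact_mod_cast (hk2 d hd).2⟩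
      obtain ⟨H, hH⟩ : ∃ H : ℝ, H = C₀ * ((2 * G) ^ (3 / 2 : ℝ) * X ^ (-(2 * ε))) := ⟨_, rfl⟩
      have hYH : ∀ d ∈ T', C₀ * Y d ^ 2 ≤ H := by
        intro d hd
        have hdT := hT' hd
        rw [hH]
        refine mul_le_mul_of_nonneg_left ?_ hC₀0.le
        have e1 := hYb d hdT
        rw [if_pos rfl] at e1
        have e2 : |((a d 2 : ℤ) : ℝ)| ^ (3 / 4 : ℝ) ≤ (2 * G) ^ (3 / 4 : ℝ) :=
          Real.rpow_le_rpow (abs_nonneg _) (hGa d hd).2 (by norm_num)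
        have e3 : Y d ≤ (2 * G) ^ (3 / 4 : ℝ) * X ^ (-ε) :=
          e1.trans (mul_le_mul_of_nonneg_right e2 (by positivity))
        calc Y d ^ 2 ≤ ((2 * G) ^ (3 / 4 : ℝ) * X ^ (-ε)) ^ 2 := pow_le_pow_left₀ (hY0 d hdT).le e3 2
          _ = (2 * G) ^ (3 / 2 : ℝ) * X ^ (-(2 * ε)) := by
            rw [mul_pow, ← Real.rpow_natCast, ← Real.rpow_natCast, ← Real.rpow_mul (by positivity),
              ← Real.rpow_mul hX0.le]
            congr 2
            · norm_num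
            · push_cast
              ring
      have hH1 : 1 ≤ H := by
        have e1 := hTw d0 (hT' hd0)
        obtain ⟨t1, t2, t3, t4, -⟩ := e1
        have e2 : (1 : ℝ) ≤ (s d0 : ℝ) := by exact_mod_cast t2
        exact e2.trans (t4.trans (hYH d0 hd0))
      obtain ⟨TT, hTT, hTc⟩ := inj (A := A) (B := B) T' (R := fun p => IsCoprime p.1 p.2 ∧ 0 < p.2 ∧ |(p.1 : ℝ)| ≤ H ∧
        (p.2 : ℝ) ≤ H ∧ Gf A B p.1 p.2 ≠ 0 ∧
        ∃ a y : Fin 3 → ℤ, (∀ i, Squarefree (a i)) ∧ (∀ i, 0 < y i) ∧ p.2 = a 0 * y 0 ^ 2 ∧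
        p.1 - e * p.2 = a 1 * y 1 ^ 2 ∧ Qf A e p.1 p.2 = a 2 * y 2 ^ 2 ∧
        |((a 0 * a 1 * a 2 : ℤ) : ℝ)| ≤ K * X ∧ G ≤ |(a 2 : ℝ)| ∧ |(a 2 : ℝ)| ≤ 2 * G) (by
          intro d hd
          have hdT := hT' hd
          obtain ⟨t1, t2, t3, t4, w, hw, t5⟩ := hTw d hdT
          have hsq : Squarefree d := (hlow d hdT).2.1
          have hHd := hYH d hd
          exact ⟨hsq, (r d, s d), ⟨t1, t2, t3.trans hHd, t4.trans hHd, Gf_ne hsq hw t5, a d, y d, ha d hdT, hy d hdT,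
            hs d hdT, hr d hdT, hq d hdT, hK' d hdT, (hGa d hd).1, (hGa d hd).2⟩, w, hw, t5⟩)
      have h3 := h1 H X G hH1 hX hG1 TT hTT
      refine hTc.trans (h3.trans ?_)
      have hGK : G ≤ K * X := (hGa d0 hd0).1.trans (aKX (ha d0 (hT' hd0)) (hK' d0 (hT' hd0)) 2)
      have m3 : (2 : ℝ) ^ (3 / 2 : ℝ) ≤ 3 := by
        have e1 : ((2 : ℝ) ^ (3 / 2 : ℝ)) ^ 2 = 8 := by
          rw [← Real.rpow_natCast, ← Real.rpow_mul (by norm_num)]
          norm_num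
        have e2 : 0 ≤ (2 : ℝ) ^ (3 / 2 : ℝ) := by positivity
        nlinarith
      have f1 : X * H / G ^ (3 / 2 : ℝ) ≤ 3 * C₀ * X ^ (1 - 2 * ε) := by
        have e1 : 0 < G ^ (3 / 2 : ℝ) := by positivity
        have e2 : X ^ (1 - 2 * ε) = X * X ^ (-(2 * ε)) := by
          rw [sub_eq_add_neg, Real.rpow_add hX0, Real.rpow_one]
        rw [div_le_iff₀ e1, hH, e2, Real.mul_rpow (by norm_num) hG0.le]
        have e3 : 0 ≤ X * C₀ * G ^ (3 / 2 : ℝ) * X ^ (-(2 * ε)) := by positivity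
        calc X * (C₀ * ((2 : ℝ) ^ (3 / 2 : ℝ) * G ^ (3 / 2 : ℝ) * X ^ (-(2 * ε))))
            = (2 : ℝ) ^ (3 / 2 : ℝ) * (X * C₀ * G ^ (3 / 2 : ℝ) * X ^ (-(2 * ε))) := by ring
          _ ≤ 3 * (X * C₀ * G ^ (3 / 2 : ℝ) * X ^ (-(2 * ε))) := mul_le_mul_of_nonneg_right m3 e3
          _ = _ := by ring
      have f2 : (H * X) ^ (ε / 12) ≤ Q ^ (ε / 12) * X ^ (ε / 4) := by
        have e1 : H * X ≤ Q * X ^ 3 := by
          have g1 : X ^ (-(2 * ε)) ≤ 1 := Real.rpow_le_one_of_one_le_of_nonpos hX (by linarith)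
          have g2 : (2 * G) ^ (3 / 2 : ℝ) ≤ (2 * G) ^ 2 := by
            rw [← Real.rpow_natCast]
            exact Real.rpow_le_rpow_of_exponent_le (by linarith) (by norm_num)
          have g3 : (2 * G) ^ 2 ≤ (2 * (K * X)) ^ 2 := pow_le_pow_left₀ (by positivity) (by linarith) 2
          have g4 : (2 * G) ^ (3 / 2 : ℝ) * X ^ (-(2 * ε)) ≤ (2 * (K * X)) ^ 2 * 1 :=
            mul_le_mul (g2.trans g3) g1 (by positivity) (by positivity)
          calc H * X = C₀ * ((2 * G) ^ (3 / 2 : ℝ) * X ^ (-(2 * ε))) * X := by rw [hH]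
            _ ≤ C₀ * ((2 * (K * X)) ^ 2 * 1) * X :=
                mul_le_mul_of_nonneg_right (mul_le_mul_of_nonneg_left g4 hC₀0.le) hX0.le
            _ = Q * X ^ 3 := by rw [hQ]; ring
        refine (Real.rpow_le_rpow (by positivity) e1 (by positivity)).trans (le_of_eq ?_)
        rw [Real.mul_rpow hQ0.le (by positivity), ← Real.rpow_natCast X 3, ← Real.rpow_mul hX0.le]
        congr 2
        push_cast
        ring
      have f3 : √X ≤ X ^ (1 - 3 * ε / 4) := by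
        rw [Real.sqrt_eq_rpow]
        exact Real.rpow_le_rpow_of_exponent_le hX (by linarith)
      have f4 : X ^ (1 - 2 * ε) ≤ X ^ (1 - 3 * ε / 4) := Real.rpow_le_rpow_of_exponent_le hX (by linarith)
      have f5 : 0 ≤ X * H / G ^ (3 / 2 : ℝ) + √X := by positivity
      calc C1 * (H * X) ^ (ε / 12) * (X * H / G ^ (3 / 2 : ℝ) + √X)
          ≤ C1 * (Q ^ (ε / 12) * X ^ (ε / 4)) * ((3 * C₀ + 1) * X ^ (1 - 3 * ε / 4)) := by
            refine mul_le_mul (mul_le_mul_of_nonneg_left f2 hC1.le) ?_ f5 (by positivity)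
            have e1 : 3 * C₀ * X ^ (1 - 2 * ε) ≤ 3 * C₀ * X ^ (1 - 3 * ε / 4) :=
              mul_le_mul_of_nonneg_left f4 (by positivity)
            linarith
        _ = C1 * Q ^ (ε / 12) * (3 * C₀ + 1) * X ^ (ε / 4 + (1 - 3 * ε / 4)) := by
            rw [Real.rpow_add hX0 (ε / 4)]
            ring
        _ = C1 * Q ^ (ε / 12) * (3 * C₀ + 1) * X ^ (1 - ε / 2) := by
            congr 2
            ring)
  refine hdy.trans ?_
  calc ((Nat.log 2 ⌊K * X⌋₊ : ℕ) + 1 : ℝ) * (C1 * Q ^ (ε / 12) * (3 * C₀ + 1) * X ^ (1 - ε / 2))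
      ≤ (C2 * X ^ (ε / 4)) * (C1 * Q ^ (ε / 12) * (3 * C₀ + 1) * X ^ (1 - ε / 2)) :=
        mul_le_mul_of_nonneg_right (h2 X hX) hM0
    _ = C2 * (C1 * Q ^ (ε / 12) * (3 * C₀ + 1)) * X ^ (ε / 4 + (1 - ε / 2)) := by
        rw [Real.rpow_add hX0 (ε / 4)]
        ring
    _ ≤ C2 * (C1 * Q ^ (ε / 12) * (3 * C₀ + 1)) * X ^ (1 - ε / 8) := by
        refine mul_le_mul_of_nonneg_left ?_ (by positivity)
        exact Real.rpow_le_rpow_of_exponent_le hX (by linarith)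

private theorem cardJ {A B : ℤ} (hD : 4 * A ^ 3 + 27 * B ^ 2 ≠ 0) {ρ : Fin 3 → ℂ} (hρ : Roots A B ρ) {e : ℤ}
    (he : ρ 0 = e) (hirr : ∀ x : ℚ, x ^ 2 + e * x + (e ^ 2 + A) ≠ 0) {C₀ K : ℝ} (hC₀ : 1 ≤ C₀) (hK : 1 ≤ K)
    (ε : ℝ) (hε : 0 < ε) (hε4 : ε ≤ 1 / 4) (μ : Fin 2 → ℤ) (hμ : μ = ![1, e] ∨ μ = ![0, -1]) (j j' : Fin 3)
    (hj : j ≠ 2) (hform : ∀ (r s : ℤ) (a y : Fin 3 → ℤ), s = a 0 * y 0 ^ 2 → r - e * s = a 1 * y 1 ^ 2 →
      μ 0 * r - μ 1 * s = a j' * y j' ^ 2) (hprod : ∀ a : Fin 3 → ℤ, a 0 * a 1 * a 2 = a j * (a j' * a 2)) :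
    ∃ C : ℝ, 0 < C ∧ ∀ X : ℝ, 1 ≤ X → ((Sj A B e C₀ K X ε j).ncard : ℝ) ≤ C * X ^ (1 - ε / 8) := by
  classical
  obtain ⟨C1, hC1, h1⟩ := ctJ hD hρ he hirr (ε / 8) (by positivity)
  obtain ⟨C2, hC2, h2⟩ := lg hK (ε / 8) (by positivity)
  obtain ⟨C3, hC3, h3⟩ := low_unif A B hD (ε / 4) (by positivity)
  obtain ⟨Q, hQ⟩ : ∃ Q : ℝ, Q = 2 * C₀ * K := ⟨_, rfl⟩
  have hQ0 : 0 < Q := by rw [hQ]; positivity
  refine ⟨C2 * (2 * C3 + C1 * Q ^ (ε / 8) * (K + √Q)), by positivity, ?_⟩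
  intro X hX
  have hX0 : 0 < X := by linarith
  have hC₀0 : 0 < C₀ := by linarith
  have hK0 : 0 < K := by linarith
  have hXn : 0 < X ^ (-ε) := Real.rpow_pos_of_pos hX0 _
  obtain ⟨T, hT⟩ : ∃ T : Finset ℕ, T = (Sj_fin A B e C₀ K X ε j).toFinset := ⟨_, rfl⟩
  have hcard : ((Sj A B e C₀ K X ε j).ncard : ℝ) = T.card := by
    rw [hT, Set.ncard_eq_toFinset_card _ (Sj_fin A B e C₀ K X ε j)]
  have hmem : ∀ d ∈ T, d ∈ Sj A B e C₀ K X ε j := by
    intro d hd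
    rw [hT, Set.Finite.mem_toFinset] at hd
    exact hd
  rw [hcard]
  choose! Y r s a y hlow hTw ha hy hs hr hq hK' hY0 hYb using hmem
  have hM0 : 0 ≤ (2 * C3 + C1 * Q ^ (ε / 8) * (K + √Q)) * X ^ (1 - ε / 4) := by positivity
  have hdy := dya2 T (fun d => (a d j).natAbs) ⌊K * X⌋₊ ((2 * C3 + C1 * Q ^ (ε / 8) * (K + √Q)) * X ^ (1 - ε / 4)) hM0
    (by
      intro d hd
      refine ⟨Int.natAbs_pos.mpr (ha d hd j).ne_zero, Nat.le_floor ?_⟩
      rw [na]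
      exact aKX (ha d hd) (hK' d hd) j)
    (by
      intro k hk T' hT' hk2
      rcases T'.eq_empty_or_nonempty with hTe | ⟨d0, hd0⟩
      · rw [hTe, Finset.card_empty, Nat.cast_zero]
        exact hM0
      obtain ⟨M, hM⟩ : ∃ M : ℝ, M = (2 : ℝ) ^ k := ⟨_, rfl⟩
      have hM1 : 1 ≤ M := by rw [hM]; exact one_le_pow₀ (by norm_num)
      have hMp : 0 < M := by linarith
      have hMa : ∀ d ∈ T', M ≤ |((a d j : ℤ) : ℝ)| ∧ |((a d j : ℤ) : ℝ)| ≤ 2 * M := by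
        intro d hd
        rw [← na, hM]
        exact ⟨by exact_mod_cast (hk2 d hd).1, by exact_mod_cast (hk2 d hd).2⟩
      have hYM : ∀ d ∈ T', Y d ≤ (X * (2 * M)) ^ (1 / 2 : ℝ) * X ^ (-ε) := by
        intro d hd
        have e1 := hYb d (hT' hd)
        rw [if_neg hj] at e1
        refine e1.trans (mul_le_mul_of_nonneg_right ?_ hXn.le)
        refine Real.rpow_le_rpow (by positivity) ?_ (by norm_num)
        exact mul_le_mul_of_nonneg_left (hMa d hd).2 hX0.le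
      rcases le_total M (X ^ ε) with hcase | hcase
      · -- small label
        obtain ⟨Y1, hY1⟩ : ∃ Y1 : ℝ, Y1 = max 1 ((X * (2 * M)) ^ (1 / 2 : ℝ) * X ^ (-ε)) := ⟨_, rfl⟩
        have hsub : ((T' : Finset ℕ) : Set ℕ) ⊆ low A B X Y1 := by
          intro d hd
          have hd := Finset.mem_coe.mp hd
          obtain ⟨q1, q2, P, q3, q4⟩ := hlow d (hT' hd)
          refine ⟨q1, q2, P, q3, q4.trans ((hYM d hd).trans ?_)⟩
          rw [hY1]
          exact le_max_right _ _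
        have e1 : (T'.card : ℝ) ≤ ((low A B X Y1).ncard : ℝ) := by
          have := Set.ncard_le_ncard hsub (low_fin A B X Y1)
          rw [Set.ncard_coe_finset] at this
          exact_mod_cast this
        have e2 : Y1 ≤ 2 * X ^ (1 / 2 - ε / 2) := by
          rw [hY1]
          refine max_le ?_ ?_
          · have : 1 ≤ X ^ (1 / 2 - ε / 2) := Real.one_le_rpow hX (by linarith)
            linarith
          · have m2 : (2 : ℝ) ^ (1 / 2 : ℝ) ≤ 2 := by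
              calc (2 : ℝ) ^ (1 / 2 : ℝ) ≤ (2 : ℝ) ^ (1 : ℝ) :=
                    Real.rpow_le_rpow_of_exponent_le (by norm_num) (by norm_num)
                _ = 2 := Real.rpow_one 2
            have e3 : M ^ (1 / 2 : ℝ) ≤ X ^ (ε * (1 / 2)) := by
              rw [Real.rpow_mul hX0.le]
              exact Real.rpow_le_rpow hMp.le hcase (by norm_num)
            rw [Real.mul_rpow hX0.le (by positivity), Real.mul_rpow (by norm_num) hMp.le]
            have e4 : (2 : ℝ) ^ (1 / 2 : ℝ) * M ^ (1 / 2 : ℝ) ≤ 2 * X ^ (ε * (1 / 2)) :=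
              mul_le_mul m2 e3 (by positivity) (by norm_num)
            have e5 : 0 ≤ X ^ (1 / 2 : ℝ) := by positivity
            calc X ^ (1 / 2 : ℝ) * ((2 : ℝ) ^ (1 / 2 : ℝ) * M ^ (1 / 2 : ℝ)) * X ^ (-ε)
                ≤ X ^ (1 / 2 : ℝ) * (2 * X ^ (ε * (1 / 2))) * X ^ (-ε) :=
                  mul_le_mul_of_nonneg_right (mul_le_mul_of_nonneg_left e4 e5) hXn.le
              _ = 2 * X ^ (1 / 2 + ε * (1 / 2) + (-ε)) := by
                  rw [Real.rpow_add hX0, Real.rpow_add hX0]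
                  ring
              _ = 2 * X ^ (1 / 2 - ε / 2) := by
                  congr 2
                  ring
        have e6 := h3 X Y1 hX (by rw [hY1]; exact le_max_left _ _)
        refine e1.trans (e6.trans ?_)
        calc C3 * X ^ (1 / 2 + ε / 4) * Y1 ≤ C3 * X ^ (1 / 2 + ε / 4) * (2 * X ^ (1 / 2 - ε / 2)) :=
              mul_le_mul_of_nonneg_left e2 (by positivity)
          _ = 2 * C3 * X ^ (1 / 2 + ε / 4 + (1 / 2 - ε / 2)) := by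
              rw [Real.rpow_add hX0 (1 / 2 + ε / 4)]
              ring
          _ = 2 * C3 * X ^ (1 - ε / 4) := by
              congr 2
              ring
          _ ≤ _ := by
              have : 0 ≤ C1 * Q ^ (ε / 8) * (K + √Q) * X ^ (1 - ε / 4) := by positivity
              linarith
      · -- large label
        obtain ⟨H, hH⟩ : ∃ H : ℝ, H = C₀ * (X * (2 * M) * X ^ (-(2 * ε))) := ⟨_, rfl⟩
        obtain ⟨L, hL⟩ : ∃ L : ℝ, L = K * X / M := ⟨_, rfl⟩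
        have hYH : ∀ d ∈ T', C₀ * Y d ^ 2 ≤ H := by
          intro d hd
          rw [hH]
          refine mul_le_mul_of_nonneg_left ?_ hC₀0.le
          calc Y d ^ 2 ≤ ((X * (2 * M)) ^ (1 / 2 : ℝ) * X ^ (-ε)) ^ 2 :=
                pow_le_pow_left₀ (hY0 d (hT' hd)).le (hYM d hd) 2
            _ = X * (2 * M) * X ^ (-(2 * ε)) := by
              rw [mul_pow, ← Real.rpow_natCast, ← Real.rpow_natCast, ← Real.rpow_mul (by positivity),
                ← Real.rpow_mul hX0.le]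
              have g1 : (1 / 2 : ℝ) * ((2 : ℕ) : ℝ) = 1 := by norm_num
              have g2 : -ε * ((2 : ℕ) : ℝ) = -(2 * ε) := by push_cast; ring
              rw [g1, g2, Real.rpow_one]
        have hH1 : 1 ≤ H := by
          obtain ⟨t1, t2, t3, t4, -⟩ := hTw d0 (hT' hd0)
          have e2 : (1 : ℝ) ≤ (s d0 : ℝ) := by exact_mod_cast t2
          exact e2.trans (t4.trans (hYH d0 hd0))
        have hL1 : 1 ≤ L := by
          rw [hL, le_div_iff₀ hMp, one_mul]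
          exact (hMa d0 hd0).1.trans (aKX (ha d0 (hT' hd0)) (hK' d0 (hT' hd0)) j)
        obtain ⟨TT, hTT, hTc⟩ := inj (A := A) (B := B) T' (R := fun p => IsCoprime p.1 p.2 ∧ 0 < p.2 ∧
          |(p.1 : ℝ)| ≤ H ∧ (p.2 : ℝ) ≤ H ∧ Gf A B p.1 p.2 ≠ 0 ∧
          ∃ a b y z : ℤ, Squarefree a ∧ Squarefree b ∧ 0 < y ∧ 0 < z ∧ μ 0 * p.1 - μ 1 * p.2 = a * y ^ 2 ∧
          Qf A e p.1 p.2 = b * z ^ 2 ∧ |((a * b : ℤ) : ℝ)| ≤ L) (by
            intro d hd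
            have hdT := hT' hd
            obtain ⟨t1, t2, t3, t4, w, hw, t5⟩ := hTw d hdT
            have hsq : Squarefree d := (hlow d hdT).2.1
            have hHd := hYH d hd
            refine ⟨hsq, (r d, s d), ⟨t1, t2, t3.trans hHd, t4.trans hHd, Gf_ne hsq hw t5, a d j', a d 2, y d j', y d 2,
              ha d hdT j', ha d hdT 2, hy d hdT j', hy d hdT 2, hform _ _ _ _ (hs d hdT) (hr d hdT), hq d hdT, ?_⟩,
              w, hw, t5⟩
            have e1 := hK' d hdT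
            rw [hprod, Int.cast_mul, abs_mul] at e1
            rw [hL, le_div_iff₀ hMp]
            calc |((a d j' * a d 2 : ℤ) : ℝ)| * M ≤ |((a d j' * a d 2 : ℤ) : ℝ)| * |((a d j : ℤ) : ℝ)| :=
                  mul_le_mul_of_nonneg_left (hMa d hd).1 (abs_nonneg _)
              _ = |((a d j : ℤ) : ℝ)| * |((a d j' * a d 2 : ℤ) : ℝ)| := mul_comm _ _
              _ ≤ K * X := e1)
        have h4 := h1 μ hμ H L hH1 hL1 TT hTT
        refine hTc.trans (h4.trans ?_)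
        have g1 : H * L = Q * (X ^ (1 - ε)) ^ 2 := by
          have e1 : (X ^ (1 - ε)) ^ 2 = X ^ 2 * X ^ (-(2 * ε)) := by
            rw [← Real.rpow_natCast, ← Real.rpow_mul hX0.le, ← Real.rpow_natCast X 2, ← Real.rpow_add hX0]
            congr 1
            push_cast
            ring
          rw [e1, hH, hL, hQ]
          field_simp
        have hXe : 0 < X ^ (1 - ε) := Real.rpow_pos_of_pos hX0 _
        have g2 : √(H * L) = √Q * X ^ (1 - ε) := by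
          rw [g1, Real.sqrt_mul hQ0.le, Real.sqrt_sq hXe.le]
        have g3 : L ≤ K * X ^ (1 - ε) := by
          rw [hL, div_le_iff₀ hMp]
          have e1 : X = X ^ (1 - ε) * X ^ ε := by
            rw [← Real.rpow_add hX0]
            ring_nf
            rw [Real.rpow_one]
          calc K * X = K * (X ^ (1 - ε) * X ^ ε) := by rw [← e1]
            _ ≤ K * (X ^ (1 - ε) * M) :=
                mul_le_mul_of_nonneg_left (mul_le_mul_of_nonneg_left hcase hXe.le) hK0.le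
            _ = K * X ^ (1 - ε) * M := by ring
        have g4 : (H * L) ^ (ε / 8) ≤ Q ^ (ε / 8) * X ^ (ε / 4) := by
          have e1 : H * L ≤ Q * X ^ 2 := by
            rw [g1]
            refine mul_le_mul_of_nonneg_left ?_ hQ0.le
            refine pow_le_pow_left₀ hXe.le ?_ 2
            calc X ^ (1 - ε) ≤ X ^ (1 : ℝ) := Real.rpow_le_rpow_of_exponent_le hX (by linarith)
              _ = X := Real.rpow_one X
          refine (Real.rpow_le_rpow (by positivity) e1 (by positivity)).trans (le_of_eq ?_)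
          rw [Real.mul_rpow hQ0.le (by positivity), ← Real.rpow_natCast X 2, ← Real.rpow_mul hX0.le]
          congr 2
          push_cast
          ring
        have g5 : 0 ≤ L + √(H * L) := by positivity
        calc C1 * (H * L) ^ (ε / 8) * (L + √(H * L))
            ≤ C1 * (Q ^ (ε / 8) * X ^ (ε / 4)) * ((K + √Q) * X ^ (1 - ε)) := by
              refine mul_le_mul (mul_le_mul_of_nonneg_left g4 hC1.le) ?_ g5 (by positivity)
              rw [g2]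
              linarith
          _ = C1 * Q ^ (ε / 8) * (K + √Q) * X ^ (ε / 4 + (1 - ε)) := by
              rw [Real.rpow_add hX0 (ε / 4)]
              ring
          _ ≤ C1 * Q ^ (ε / 8) * (K + √Q) * X ^ (1 - ε / 4) := by
              refine mul_le_mul_of_nonneg_left ?_ (by positivity)
              exact Real.rpow_le_rpow_of_exponent_le hX (by linarith)
          _ ≤ _ := by
              have : 0 ≤ 2 * C3 * X ^ (1 - ε / 4) := by positivity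
              linarith)
  refine hdy.trans ?_
  calc ((Nat.log 2 ⌊K * X⌋₊ : ℕ) + 1 : ℝ) * ((2 * C3 + C1 * Q ^ (ε / 8) * (K + √Q)) * X ^ (1 - ε / 4))
      ≤ (C2 * X ^ (ε / 8)) * ((2 * C3 + C1 * Q ^ (ε / 8) * (K + √Q)) * X ^ (1 - ε / 4)) :=
        mul_le_mul_of_nonneg_right (h2 X hX) hM0
    _ = C2 * (2 * C3 + C1 * Q ^ (ε / 8) * (K + √Q)) * X ^ (ε / 8 + (1 - ε / 4)) := by
        rw [Real.rpow_add hX0 (ε / 8)]
        ring
    _ = C2 * (2 * C3 + C1 * Q ^ (ε / 8) * (K + √Q)) * X ^ (1 - ε / 8) := by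
        congr 2
        ring

/-- the label -/
private theorem lab0d {A B : ℤ} {H : ℝ} {d : ℕ} {r s : ℤ} (hd : Squarefree d) (h : Tw A B H d r s) :
    ∃ a g y z : ℕ, Squarefree g ∧ 0 < y ∧ 0 < z ∧ s = a * y ^ 2 ∧ Gf A B r s = g * z ^ 2 ∧ a * g = d := by
  obtain ⟨hc, hs, -, -, w, hw, hdw⟩ := h
  have hd0 : (0 : ℤ) < d := by
    have := hd.ne_zero
    positivity
  have hG : 0 < Gf A B r s := by
    have h1 : 0 < s * Gf A B r s := by
      rw [hdw]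
      positivity
    exact (pos_iff_pos_of_mul_pos h1).mp hs
  obtain ⟨a0, y0, ha0, hy0, he0⟩ := sqf_dec s hs.ne'
  obtain ⟨a1, y1, ha1, hy1, he1⟩ := sqf_dec (Gf A B r s) hG.ne'
  have hcop : IsCoprime s (Gf A B r s) := Fac_cop (A := A) (B := B) hc
  have ha0p : 0 < a0 := by
    by_contra hcon
    have h1 : a0 ≤ 0 := not_lt.mp hcon
    have h2 : a0 * y0 ^ 2 ≤ 0 := mul_nonpos_of_nonpos_of_nonneg h1 (sq_nonneg _)
    rw [← he0] at h2
    exact absurd hs (not_lt.mpr h2)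
  have ha1p : 0 < a1 := by
    by_contra hcon
    have h1 : a1 ≤ 0 := not_lt.mp hcon
    have h2 : a1 * y1 ^ 2 ≤ 0 := mul_nonpos_of_nonpos_of_nonneg h1 (sq_nonneg _)
    rw [← he1] at h2
    exact absurd hG (not_lt.mpr h2)
  have hcop2 : IsCoprime a0 a1 := by
    refine (hcop.of_isCoprime_of_dvd_left ?_).of_isCoprime_of_dvd_right ?_
    · rw [he0]
      exact Dvd.intro _ rfl
    · rw [he1]
      exact Dvd.intro _ rfl
  have hn0 : Squarefree a0.natAbs := Int.squarefree_natAbs.mpr ha0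
  have hn1 : Squarefree a1.natAbs := Int.squarefree_natAbs.mpr ha1
  have hcn : Nat.Coprime a0.natAbs a1.natAbs := by
    have := Int.isCoprime_iff_gcd_eq_one.mp hcop2
    exact this
  have hsq : Squarefree (a0.natAbs * a1.natAbs) := (Nat.squarefree_mul hcn).mpr ⟨hn0, hn1⟩
  have hw0 : w.natAbs ≠ 0 := by rwa [Int.natAbs_ne_zero]
  have hyy : y0.natAbs * y1.natAbs ≠ 0 := by
    have h1 : 0 < y0.natAbs := Int.natAbs_pos.mpr hy0.ne'
    have h2 : 0 < y1.natAbs := Int.natAbs_pos.mpr hy1.ne'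
    positivity
  have hprod : d * w.natAbs ^ 2 = (a0.natAbs * a1.natAbs) * (y0.natAbs * y1.natAbs) ^ 2 := by
    have h1 : (d : ℤ) * w ^ 2 = (a0 * a1) * (y0 * y1) ^ 2 := by
      rw [← hdw, he1]
      nth_rewrite 1 [he0]
      ring
    have h2 := congrArg Int.natAbs h1
    rw [Int.natAbs_mul, Int.natAbs_mul, Int.natAbs_mul, Int.natAbs_pow, Int.natAbs_pow, Int.natAbs_natCast,
      Int.natAbs_mul] at h2
    exact h2
  have hdd : d = a0.natAbs * a1.natAbs := sqf_unique hd hsq hyy hprod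
  refine ⟨a0.natAbs, a1.natAbs, y0.natAbs, y1.natAbs, hn1, Int.natAbs_pos.mpr hy0.ne', Int.natAbs_pos.mpr hy1.ne', ?_, ?_,
    hdd.symm⟩
  · rw [Int.natAbs_of_nonneg ha0p.le, Int.natAbs_of_nonneg hy0.le]
    exact he0
  · rw [Int.natAbs_of_nonneg ha1p.le, Int.natAbs_of_nonneg hy1.le]
    exact he1

/-- membership in `S3` -/
private theorem mem3 {A B : ℤ} {K X η Y H : ℝ} {d : ℕ} {r s a y : ℤ} (hlow : d ∈ low A B X Y) (hY0 : 0 < Y)
    (ht : Tw A B H d r s) (hH : H ≤ K * Y ^ 2) (ha : Squarefree a) (hy : 0 < y) (hs : s = a * y ^ 2)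
    (hY : Y ≤ K * |(a : ℝ)| ^ (3 / 2 : ℝ) * X ^ (-η)) : d ∈ S3 A B K X η := by
  have hd : Squarefree d := hlow.2.1
  obtain ⟨a', g, y', z, hg, hy', hz, hs', hG, had⟩ := lab0d hd ht
  have ha' : Squarefree a' := hd.squarefree_of_dvd (Dvd.intro _ had)
  have h1 : a' * y' ^ 2 = a.natAbs * y.natAbs ^ 2 := by
    have e1 := congrArg Int.natAbs (hs'.symm.trans hs)
    rw [Int.natAbs_mul, Int.natAbs_mul, Int.natAbs_pow, Int.natAbs_pow, Int.natAbs_natCast, Int.natAbs_natCast] at e1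
    exact e1
  have h2 : a' = a.natAbs :=
    sqf_unique ha' (Int.squarefree_natAbs.mpr ha) (Int.natAbs_ne_zero.mpr hy.ne') h1
  obtain ⟨t1, t2, t3, t4, t5⟩ := ht
  refine ⟨Y, r, s, a', g, y', z, hlow, ⟨t1, t2, t3.trans hH, t4.trans hH, t5⟩, hg, hy', hz, hs', hG, had, hY0, ?_⟩
  rw [h2, na]
  exact hY

/-- One rational root `e`: for almost all squarefree `d`, `η_d > f(d) X^(-ε)`. -/
theorem oneZ (A B e : ℤ) (hD : 4 * A ^ 3 + 27 * B ^ 2 ≠ 0) (he0 : e ^ 3 + A * e + B = 0) (hr : nroots A B = 1)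
    (ε : ℝ) (hε : 0 < ε) :
    ∃ δ C : ℝ, 0 < δ ∧ 0 < C ∧ ∀ X : ℝ, 1 ≤ X → ((bad1Z A B e X ε).ncard : ℝ) ≤ C * X ^ (1 - δ) := by
  classical
  have hirr : ∀ x : ℚ, x ^ 2 + e * x + (e ^ 2 + A) ≠ 0 := by
    obtain ⟨e', he', hirr'⟩ : ∃ e : ℤ, e ^ 3 + A * e + B = 0 ∧ ∀ x : ℚ, x ^ 2 + e * x + (e ^ 2 + A) ≠ 0 := by
      rcases nroots_cases A B hD with ⟨hn, _⟩ | ⟨_, h⟩ | ⟨hn, _⟩
      · omega
      · exact h
      · omega
    have h1 : (e - e') * (e ^ 2 + e' * e + (e' ^ 2 + A)) = 0 := by linear_combination he0 - he'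
    rcases mul_eq_zero.mp h1 with h2 | h2
    · have h3 : e = e' := by linarith
      rw [h3]
      exact hirr'
    · exact absurd (by exact_mod_cast h2) (hirr' (e : ℚ))
  obtain ⟨ρ, hρ, hρe⟩ := exists_roots_of A B hD e he0
  obtain ⟨C₀, hC₀, htw⟩ := tw_of_low A B hD
  obtain ⟨K, hK, hlbl⟩ := lbl1 hD he0
  obtain ⟨K1, hK1, hmv⟩ := mv1 hD he0
  obtain ⟨K3, hK3⟩ : ∃ K3 : ℝ, K3 = K1 ^ 2 * C₀ := ⟨_, rfl⟩
  have hK1s : (1 : ℝ) ≤ K1 ^ 2 := one_le_pow₀ hK1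
  have hK31 : 1 ≤ K3 := by rw [hK3]; exact one_le_mul_of_one_le_of_one_le hK1s hC₀
  have hK3C : C₀ ≤ K3 := by
    rw [hK3]
    exact le_mul_of_one_le_left (by linarith) hK1s
  have hK3K : K1 * C₀ ≤ K3 := by
    rw [hK3]
    refine mul_le_mul_of_nonneg_right ?_ (by linarith)
    exact le_self_pow₀ hK1 (by norm_num)
  have hK3s : K1 ^ (3 / 2 : ℝ) ≤ K3 := by
    have e1 : K1 ^ (3 / 2 : ℝ) ≤ K1 ^ 2 := by
      rw [← Real.rpow_natCast]
      exact Real.rpow_le_rpow_of_exponent_le hK1 (by norm_num)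
    rw [hK3]
    exact e1.trans (le_mul_of_one_le_right (by positivity) hC₀)
  obtain ⟨η, hη⟩ : ∃ η : ℝ, η = min ε (1 / 4) := ⟨_, rfl⟩
  have hη0 : 0 < η := by rw [hη]; exact lt_min hε (by norm_num)
  have hη4 : η ≤ 1 / 4 := by rw [hη]; exact min_le_right _ _
  have hηε : η ≤ ε := by rw [hη]; exact min_le_left _ _
  obtain ⟨C3, hC3, h3⟩ := card3 (fun ε' hε' => sumz1 hD he0 hirr ε' hε') hK31 η hη0 hη4
  obtain ⟨C2, hC2, h2⟩ := cardT hD hρ hρe hC₀ hK η hη0 hη4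
  obtain ⟨C0, hC0, h0⟩ := cardJ hD hρ hρe hirr hC₀ hK η hη0 hη4 ![1, e] (Or.inl rfl) 0 1 (by decide)
    (by
      intro r s a y h1 h2
      simpa using h2)
    (fun a => by ring)
  obtain ⟨C1, hC1, h1⟩ := cardJ hD hρ hρe hirr hC₀ hK η hη0 hη4 ![0, -1] (Or.inr rfl) 1 0 (by decide)
    (by
      intro r s a y h1 h2
      simpa using h1)
    (fun a => by ring)
  refine ⟨η / 8, C0 + C1 + C2 + C3, by positivity, by positivity, ?_⟩
  intro X hX
  have hX0 : 0 < X := by linarith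
  have hsub : bad1Z A B e X ε ⊆ ((Sj A B e C₀ K X η 0 ∪ Sj A B e C₀ K X η 1) ∪ Sj A B e C₀ K X η 2) ∪
      S3 A B K3 X η := by
    rintro d ⟨Y, hlow, hY⟩
    have hY0 : 0 < Y := by
      obtain ⟨-, -, P, -, hP⟩ := hlow
      exact lt_of_lt_of_le (Real.exp_pos _) hP
    obtain ⟨r, s, ht⟩ := htw X Y hY0 d hlow
    obtain ⟨a, y, b, g1, g2, g3, g4, g5, g6, g7, g8⟩ := hlbl _ d r s hlow.2.1 ht
    have hdX : (d : ℝ) ≤ X := hlow.1
    have hKX : |((a 0 * a 1 * a 2 : ℤ) : ℝ)| ≤ K * X :=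
      g6.trans (mul_le_mul_of_nonneg_left hdX (by linarith))
    have hba : ∀ i, (b i : ℝ) ≤ |((a i : ℤ) : ℝ)| := by
      intro i
      rw [← na]
      exact_mod_cast Nat.le_of_dvd (Int.natAbs_pos.mpr (g1 i).ne_zero) (Int.natCast_dvd.mp (g8 i))
    have hXn : X ^ (-ε) ≤ X ^ (-η) := Real.rpow_le_rpow_of_exponent_le hX (by linarith)
    have hXp : 0 ≤ X ^ (-ε) := by positivity
    have hXq : 0 ≤ X ^ (-η) := by positivity
    have h5 := hY b g7 (by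
      intro p hp hpb
      refine res ht.1 hp ?_
      rw [g5]
      exact ((Int.natCast_dvd_natCast.mpr hpb).trans (g8 2)).mul_right _)
    have hcase : ∀ (j : Fin 3), Y ≤ (if j = 2 then |((a 2 : ℤ) : ℝ)| ^ (3 / 4 : ℝ) else
        (X * |((a j : ℤ) : ℝ)|) ^ (1 / 2 : ℝ)) * X ^ (-η) → d ∈ Sj A B e C₀ K X η j := by
      intro j hj
      exact ⟨Y, r, s, a, y, hlow, ht, g1, g2, g3, g4, g5, hKX, hY0, hj⟩
    rcases le_total ((max (b 0 : ℝ) (b 1)) ^ (3 / 2 : ℝ))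
      (max ((b 2 : ℝ) ^ (3 / 4 : ℝ)) (((d : ℝ) * max (b 0 : ℝ) (b 1)) ^ (1 / 2 : ℝ))) with hmm | hmm
    · rw [max_eq_left hmm] at h5
      refine Or.inl ?_
      rcases le_total (((d : ℝ) * max (b 0 : ℝ) (b 1)) ^ (1 / 2 : ℝ)) ((b 2 : ℝ) ^ (3 / 4 : ℝ)) with hm | hm
      · rw [max_eq_left hm] at h5
        refine Or.inr (hcase 2 ?_)
        rw [if_pos rfl]
        refine h5.trans (mul_le_mul ?_ hXn hXp (by positivity))
        exact Real.rpow_le_rpow (Nat.cast_nonneg _) (hba 2) (by norm_num)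
      · rw [max_eq_right hm] at h5
        rcases le_total (b 0 : ℝ) (b 1 : ℝ) with hb | hb
        · rw [max_eq_right hb] at h5
          refine Or.inl (Or.inr (hcase 1 ?_))
          rw [if_neg (by decide)]
          refine h5.trans (mul_le_mul ?_ hXn hXp (by positivity))
          refine Real.rpow_le_rpow (by positivity) ?_ (by norm_num)
          exact mul_le_mul hdX (hba 1) (Nat.cast_nonneg _) hX0.le
        · rw [max_eq_left hb] at h5
          refine Or.inl (Or.inl (hcase 0 ?_))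
          rw [if_neg (by decide)]
          refine h5.trans (mul_le_mul ?_ hXn hXp (by positivity))
          refine Real.rpow_le_rpow (by positivity) ?_ (by norm_num)
          exact mul_le_mul hdX (hba 0) (Nat.cast_nonneg _) hX0.le
    · rw [max_eq_right hmm] at h5
      refine Or.inr ?_
      rcases le_total (b 0 : ℝ) (b 1 : ℝ) with hb | hb
      · rw [max_eq_right hb] at h5
        obtain ⟨r', s', a', y', m1, m2, m3, m4, m5⟩ := hmv _ d r s (a 1) (y 1) hlow.2.1 ht (g1 1) (g2 1) g4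
        refine mem3 hlow hY0 m1 ?_ m2 m3 m4 ?_
        · calc K1 * (C₀ * Y ^ 2) = (K1 * C₀) * Y ^ 2 := by ring
            _ ≤ K3 * Y ^ 2 := mul_le_mul_of_nonneg_right hK3K (by positivity)
        · have e1 : (b 1 : ℝ) ≤ K1 * |(a' : ℝ)| := (hba 1).trans m5
          have e2 : (b 1 : ℝ) ^ (3 / 2 : ℝ) ≤ K3 * |(a' : ℝ)| ^ (3 / 2 : ℝ) := by
            calc (b 1 : ℝ) ^ (3 / 2 : ℝ) ≤ (K1 * |(a' : ℝ)|) ^ (3 / 2 : ℝ) :=
                  Real.rpow_le_rpow (Nat.cast_nonneg _) e1 (by norm_num)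
              _ = K1 ^ (3 / 2 : ℝ) * |(a' : ℝ)| ^ (3 / 2 : ℝ) := Real.mul_rpow (by linarith) (abs_nonneg _)
              _ ≤ K3 * |(a' : ℝ)| ^ (3 / 2 : ℝ) := mul_le_mul_of_nonneg_right hK3s (by positivity)
          exact h5.trans (mul_le_mul e2 hXn hXp (by positivity))
      · rw [max_eq_left hb] at h5
        refine mem3 hlow hY0 ht ?_ (g1 0) (g2 0) g3 ?_
        · exact mul_le_mul_of_nonneg_right hK3C (by positivity)
        · have e2 : (b 0 : ℝ) ^ (3 / 2 : ℝ) ≤ K3 * |((a 0 : ℤ) : ℝ)| ^ (3 / 2 : ℝ) := by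
            calc (b 0 : ℝ) ^ (3 / 2 : ℝ) ≤ |((a 0 : ℤ) : ℝ)| ^ (3 / 2 : ℝ) :=
                  Real.rpow_le_rpow (Nat.cast_nonneg _) (hba 0) (by norm_num)
              _ ≤ K3 * |((a 0 : ℤ) : ℝ)| ^ (3 / 2 : ℝ) := le_mul_of_one_le_left (by positivity) hK31
          exact h5.trans (mul_le_mul e2 hXn hXp (by positivity))
  have hfin := (((Sj_fin A B e C₀ K X η 0).union (Sj_fin A B e C₀ K X η 1)).union (Sj_fin A B e C₀ K X η 2)).union
    (S3_fin A B K3 X η)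
  have h6 := Set.ncard_le_ncard hsub hfin
  have h67 := Set.ncard_union_le ((Sj A B e C₀ K X η 0 ∪ Sj A B e C₀ K X η 1) ∪ Sj A B e C₀ K X η 2) (S3 A B K3 X η)
  have h7 := Set.ncard_union_le (Sj A B e C₀ K X η 0 ∪ Sj A B e C₀ K X η 1) (Sj A B e C₀ K X η 2)
  have h8 := Set.ncard_union_le (Sj A B e C₀ K X η 0) (Sj A B e C₀ K X η 1)
  have h9 : ((bad1Z A B e X ε).ncard : ℝ) ≤ ((Sj A B e C₀ K X η 0).ncard : ℝ) + ((Sj A B e C₀ K X η 1).ncard : ℝ) +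
      ((Sj A B e C₀ K X η 2).ncard : ℝ) + ((S3 A B K3 X η).ncard : ℝ) := by
    exact_mod_cast h6.trans (h67.trans (Nat.add_le_add_right (h7.trans (Nat.add_le_add_right h8 _)) _))
  have e0 := h0 X hX
  have e1 := h1 X hX
  have e2 := h2 X hX
  have e3 := h3 X hX
  linarith

end Pool.Agent.H80.PZ
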