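import Pool.Agent.H12.EH.Lcnt

/-!
[H80 PZ SCNT]  Counting points in classes with a large bilinear form.

This is the end of the proof of `Lab.lcnt` (Pool/Agent/H12/EH/Lcnt.lean): in a class (fiber of `κ`) two different points `p, p'` have
`Q ≤ |B| ≤ W m² (x - x')² (2 S) / (4 lam)` (`Lab.B_le`, `√(s s') ≤ 2 S`), so `|x - x'| ≥ σ = √(2 lam Q / (W m² S))`; `spc` with `L, σ`; sum over `T.image κ`.
-/

set_option autoImplicit false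

namespace Pool.Agent.H80.PZ

open Pool.Agent.H12.EH

theorem scnt {Λ : Lab} (h : Λ.Ok) {ι : Type} [DecidableEq ι] {Q W S lam L a : ℝ} (hQ : 0 < Q)
    (hW : ∑ v, ‖Λ.w v‖ * ‖Λ.l v‖ ^ 2 ≤ W) (hW0 : 0 < W) (hS : 0 < S) (hlam : 0 < lam) (hL : 0 ≤ L)
    (T : Finset (ℤ × ℤ)) (κ : ℤ × ℤ → ι)
    (hT : ∀ p ∈ T, IsCoprime p.1 p.2 ∧ 0 < p.2 ∧ (p.2 : ℝ) ≤ 2 * S ∧
      a ≤ (p.1 : ℝ) / p.2 ∧ (p.1 : ℝ) / p.2 ≤ a + L ∧
      (∀ v, Λ.l v ≠ 0 → lam * p.2 ≤ ‖Λ.l v * p.1 + Λ.k v * p.2‖))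
    (hB : ∀ p ∈ T, ∀ p' ∈ T, p ≠ p' → κ p = κ p' → ∃ ζ ζ' : Fin 3 → ℤ, Λ.Pt p.1 p.2 ζ ∧ Λ.Pt p'.1 p'.2 ζ' ∧
      (∀ v, 0 ≤ (Λ.u ζ v * (starRingEnd ℂ) (Λ.u ζ' v)).re) ∧ Q ≤ |((Λ.B ζ ζ' : ℤ) : ℝ)|) :
    (T.card : ℝ) ≤ (T.image κ).card * (1 + L * √(W * (Λ.m : ℝ) ^ 2 * S / (2 * lam * Q))) := by
  have hm0 : (0 : ℝ) < (Λ.m : ℝ) := by exact_mod_cast h.m0
  set σ : ℝ := √(2 * lam * Q / (W * (Λ.m : ℝ) ^ 2 * S)) with hσdef
  have hσ : 0 < σ := Real.sqrt_pos.2 (by positivity)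
  have hinv : L / σ = L * √(W * (Λ.m : ℝ) ^ 2 * S / (2 * lam * Q)) := by
    rw [hσdef, div_eq_mul_inv, ← Real.sqrt_inv, inv_div]
  have hfib : ∀ c : ι, ((T.filter fun p => κ p = c).card : ℝ) ≤
      1 + L * √(W * (Λ.m : ℝ) ^ 2 * S / (2 * lam * Q)) := by
    intro c
    rw [← hinv]
    refine spc _ (fun p : ℤ × ℤ => (p.1 : ℝ) / p.2) a L σ hσ hL ?_ ?_
    · intro p hp
      have hp' := hT p (Finset.mem_filter.1 hp).1
      exact ⟨hp'.2.2.2.1, hp'.2.2.2.2.1⟩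
    · intro p hp p' hp' hne
      rw [Finset.mem_filter] at hp hp'
      obtain ⟨hp1, hp2⟩ := hp
      obtain ⟨hp1', hp2'⟩ := hp'
      have hκ' : κ p = κ p' := hp2.trans hp2'.symm
      obtain ⟨ζ, ζ', hζ, hζ', hre, hgB⟩ := hB p hp1 p' hp1' hne hκ'
      obtain ⟨c1, c2, c3, -, -, c6⟩ := hT p hp1
      obtain ⟨d1, d2, d3, -, -, d6⟩ := hT p' hp1'
      have hB := Lab.B_le h hζ hζ' c2 d2 hre hlam c6 d6
      have c2R : (0 : ℝ) < (p.2 : ℝ) := by exact_mod_cast c2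
      have d2R : (0 : ℝ) < (p'.2 : ℝ) := by exact_mod_cast d2
      have hsq : √((p.2 : ℝ) * p'.2) ≤ 2 * S := by
        rw [show (2 * S) = √((2 * S) * (2 * S)) from (Real.sqrt_mul_self (by positivity)).symm]
        refine Real.sqrt_le_sqrt ?_
        exact mul_le_mul c3 d3 d2R.le (by positivity)
      set x : ℝ := (p.1 : ℝ) / p.2 with hx
      set x' : ℝ := (p'.1 : ℝ) / p'.2 with hx'
      have hle : Q ≤ W * (Λ.m : ℝ) ^ 2 * (x - x') ^ 2 * (2 * S) / (4 * lam) := by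
        refine hgB.trans (hB.trans ?_)
        refine div_le_div_of_nonneg_right ?_ (by positivity)
        have h1 : (∑ v, ‖Λ.w v‖ * ‖Λ.l v‖ ^ 2) * (Λ.m : ℝ) ^ 2 * (x - x') ^ 2 ≤
            W * (Λ.m : ℝ) ^ 2 * (x - x') ^ 2 := by
          refine mul_le_mul_of_nonneg_right ?_ (sq_nonneg _)
          exact mul_le_mul_of_nonneg_right hW (by positivity)
        refine mul_le_mul h1 hsq (Real.sqrt_nonneg _) ?_
        positivity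
      have hle2 : 2 * lam * Q / (W * (Λ.m : ℝ) ^ 2 * S) ≤ (x - x') ^ 2 := by
        rw [div_le_iff₀ (by positivity)]
        rw [le_div_iff₀ (by positivity)] at hle
        nlinarith
      rw [hσdef, ← Real.sqrt_sq_eq_abs]
      exact Real.sqrt_le_sqrt hle2
  have hcardR : (T.card : ℝ) = ∑ c ∈ T.image κ, ((T.filter fun p => κ p = c).card : ℝ) := by
    rw [Finset.card_eq_sum_card_image κ T, Nat.cast_sum]
  rw [hcardR]
  refine (Finset.sum_le_sum fun c _ => hfib c).trans ?_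
  rw [Finset.sum_const, nsmul_eq_mul]

end Pool.Agent.H80.PZ
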