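import Pool.Agent.H80.PZ.Kap
import Pool.Agent.H80.PZ.Scnt

/-!
[H80 PZ TWO]  The number of points with one label and one `z` in a fiber.

`T = ∅` trivial (so `nrm3 c = m⁴ g ≠ 0`, `lab0_ok`).  `κ` from `kap`, `Q = G z⁴ / C`.  `R₀ ≥ 1` with `‖ρ v‖ ≤ R₀`.
Case A, `lam ≤ 4 R₀`: `scnt` for `Λ = lab0 A B ρ c m` as in `acnt0_label` (Pool/Agent/H12/EH/Acnt0.lean): `W = ∑ ‖(3 ρ² + A)⁻¹‖`, `a = Re ρ_v - 2 lam`,
`L = 4 lam`: `1 + 4 lam √(W m² S / (2 lam Q)) ≤ 1 + C √(S lam / G) / z²`, and `lam ≤ 4 R₀`.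
Case B, `lam > 4 R₀`: `‖r - ρ_u s‖ ≥ lam s` and `‖ρ_u‖ s ≤ R₀ s` give `|r| ≥ (3/4) lam s`, `‖ρ_u s‖ ≤ |r| / 3`, `|r| ≤ 3 lam s ≤ 6 lam S`.  Split `T` by the sign
`σ = ± 1` of `r` and apply `scnt` to the pairs `(s, |r|)` (image of `T` under the injective map `p ↦ (p.2, |p.1|)` on each half, `κ` composed with
`q ↦ (σ q.2, q.1)`) with the label `Λ' = { lab0 with l := fun v => -ρ v, k := fun _ => σ }` (same `w, γ, E, M, m`): `Ok` by
`lab0_ok` (`wl ↔ wk`, `ind`, the same `hM`), `Pt` is the same equation, `u` and `B` are the same.  `S' = 3 lam S`, `lam' = 1 / 2`, `a = 0`, `L' = 2 / lam`,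
`W' = ∑ ‖(3 ρ² + A)⁻¹‖ ‖ρ‖²  + 1`: `1 + (2 / lam) √(W' m² 3 lam S / Q) ≤ 1 + C √(S / (lam G)) / z²` and `lam ≥ 1`.
-/

set_option autoImplicit false

namespace Pool.Agent.H80.PZ

open Pool.Agent.H12.EH

private theorem two_sq {L E K F z : ℝ} (hL : 0 ≤ L) (hK : 0 ≤ K) (hF : 0 ≤ F) (hz : 0 < z)
    (h : L ^ 2 * E ≤ K * F / z ^ 4) : L * √E ≤ √K * (√F / z ^ 2) := by
  have h1 : L * √E = √(L ^ 2 * E) := by
    rw [Real.sqrt_mul (sq_nonneg L), Real.sqrt_sq hL]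
  have h2 : √K * (√F / z ^ 2) = √(K * F / z ^ 4) := by
    have h3 : z ^ 4 = (z ^ 2) ^ 2 := by ring
    rw [h3, Real.sqrt_div' _ (by positivity), Real.sqrt_sq (by positivity), Real.sqrt_mul hK]
    ring
  rw [h1, h2]
  exact Real.sqrt_le_sqrt h

/-- the label with the two coordinates exchanged -/
private noncomputable def two_lab (A B : ℤ) (ρ : Fin 3 → ℂ) (c : Fin 3 → ℤ) (m : ℕ) (σ : ℤ) : Lab :=
  { lab0 A B ρ c m with l := fun v => -ρ v, k := fun _ => (σ : ℂ) }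

private theorem two_ok {A B : ℤ} {ρ : Fin 3 → ℂ} (hρ : Roots A B ρ) {c : Fin 3 → ℤ} {m : ℕ}
    (hok : (lab0 A B ρ c m).Ok) (σ : ℤ) (hσ : σ * σ = 1) : (two_lab A B ρ c m σ).Ok := by
  have hσ0 : (σ : ℂ) ≠ 0 := by
    intro h
    have h1 : σ = 0 := by exact_mod_cast h
    rw [h1] at hσ
    norm_num at hσ
  refine ⟨hok.wk, ?_, hok.w0, hok.γ0, hok.m0, ?_, hok.hM⟩
  · have h := hok.wl
    change ∑ v, (lab0 A B ρ c m).w v * (σ : ℂ) = 0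
    change ∑ v, (lab0 A B ρ c m).w v * (1 : ℂ) = 0 at h
    rw [← Finset.sum_mul] at h ⊢
    rw [mul_one] at h
    rw [h, zero_mul]
  · intro u v huv h
    change -ρ u * (σ : ℂ) = -ρ v * (σ : ℂ) at h
    have h1 := mul_right_cancel₀ hσ0 h
    exact hρ.ne u v huv (neg_inj.1 h1)

private theorem two_neg {A B : ℤ} {ρ : Fin 3 → ℂ} (hρ : Roots A B ρ) {c : Fin 3 → ℤ} {m : ℕ}
    (hok : (lab0 A B ρ c m).Ok) {R₀ W S lam Q : ℝ} (hR : ∀ v, ‖ρ v‖ ≤ R₀) (hR1 : 1 ≤ R₀)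
    (hlam : 4 * R₀ < lam) (hS : 0 < S) (hQ : 0 < Q)
    (hW : ∑ v, ‖(3 * ρ v ^ 2 + (A : ℂ))⁻¹‖ * ‖ρ v‖ ^ 2 ≤ W) (hW0 : 0 < W) (v : Fin 3)
    (σ : ℤ) (hσ : σ * σ = 1) {ι : Type} [DecidableEq ι] (κ : ℤ × ℤ → ι) (T : Finset (ℤ × ℤ))
    (hT : ∀ p ∈ T, IsCoprime p.1 p.2 ∧ 0 < p.2 ∧ 0 < σ * p.1 ∧ Fib ρ v S lam p.1 p.2)
    (hB : ∀ p ∈ T, ∀ p' ∈ T, p ≠ p' → κ p = κ p' → ∃ ζ ζ' : Fin 3 → ℤ,
        (lab0 A B ρ c m).Pt p.1 p.2 ζ ∧ (lab0 A B ρ c m).Pt p'.1 p'.2 ζ' ∧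
        (∀ v, 0 ≤ ((lab0 A B ρ c m).u ζ v * (starRingEnd ℂ) ((lab0 A B ρ c m).u ζ' v)).re) ∧
        Q ≤ |(((lab0 A B ρ c m).B ζ ζ' : ℤ) : ℝ)|) :
    (T.card : ℝ) ≤ (T.image κ).card *
      (1 + 2 / lam * √(W * (m : ℝ) ^ 2 * (3 * lam * S) / (2 * (1 / 2) * Q))) := by
  classical
  have hlam0 : 0 < lam := by linarith
  have hσC : (σ : ℂ) * σ = 1 := by exact_mod_cast hσ
  have hψφ : ∀ p : ℤ × ℤ, (σ * (σ * p.1), p.2) = p := by
    intro p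
    rw [← mul_assoc, hσ, one_mul]
  have hinj : Function.Injective (fun p : ℤ × ℤ => (p.2, σ * p.1)) := by
    intro p p' h
    simp only [Prod.mk.injEq] at h
    rw [← hψφ p, ← hψφ p', h.1, h.2]
  have hcard : (T.image fun p : ℤ × ℤ => (p.2, σ * p.1)).card = T.card :=
    Finset.card_image_of_injective _ hinj
  have himg : (T.image fun p : ℤ × ℤ => (p.2, σ * p.1)).image
      (fun q : ℤ × ℤ => κ (σ * q.2, q.1)) = T.image κ := by
    rw [Finset.image_image]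
    refine Finset.image_congr fun p _ => ?_
    simp only [Function.comp]
    rw [hψφ p]
  have hpt : ∀ (p : ℤ × ℤ) (ζ : Fin 3 → ℤ), (lab0 A B ρ c m).Pt p.1 p.2 ζ →
      (two_lab A B ρ c m σ).Pt p.2 (σ * p.1) ζ := by
    intro p ζ h u
    have h1 := h u
    change (lab0 A B ρ c m).γ u * ((lab0 A B ρ c m).u ζ u) ^ 2 =
      (m : ℂ) ^ 2 * (1 * (p.1 : ℂ) + (-ρ u) * (p.2 : ℂ)) at h1
    change (lab0 A B ρ c m).γ u * ((lab0 A B ρ c m).u ζ u) ^ 2 =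
      (m : ℂ) ^ 2 * ((-ρ u) * (p.2 : ℂ) + (σ : ℂ) * ((σ * p.1 : ℤ) : ℂ))
    rw [h1]
    push_cast
    linear_combination (-(m : ℂ) ^ 2 * p.1) * hσC
  have key := scnt (Λ := two_lab A B ρ c m σ) (two_ok hρ hok σ hσ) (Q := Q) (W := W)
    (S := 3 * lam * S) (lam := 1 / 2) (L := 2 / lam) (a := 0) hQ ?_ hW0 (by positivity)
    (by norm_num) (by positivity) (T.image fun p : ℤ × ℤ => (p.2, σ * p.1))
    (fun q : ℤ × ℤ => κ (σ * q.2, q.1)) ?_ ?_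
  · rw [hcard, himg] at key
    exact key
  · refine le_trans (le_of_eq ?_) hW
    refine Finset.sum_congr rfl fun u _ => ?_
    change ‖(3 * ρ u ^ 2 + (A : ℂ))⁻¹‖ * ‖-ρ u‖ ^ 2 = _
    rw [norm_neg]
  · intro q hq
    obtain ⟨p, hp, rfl⟩ := Finset.mem_image.1 hq
    obtain ⟨hc, hs, hr, hf1, hf2, hf3, hf4⟩ := hT p hp
    have hsR : (0 : ℝ) < p.2 := by exact_mod_cast hs
    have hrR : (0 : ℝ) < ((σ * p.1 : ℤ) : ℝ) := by exact_mod_cast hr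
    have hσR : (σ : ℝ) * σ = 1 := by exact_mod_cast hσ
    have habs : ‖((p.1 : ℤ) : ℂ)‖ = ((σ * p.1 : ℤ) : ℝ) := by
      rw [Complex.norm_intCast]
      have h1 : |(p.1 : ℝ)| = |((σ * p.1 : ℤ) : ℝ)| := by
        push_cast
        rw [abs_mul]
        have h2 : |(σ : ℝ)| * |(σ : ℝ)| = 1 := by rw [← abs_mul, hσR, abs_one]
        have h3 : |(σ : ℝ)| = 1 := by nlinarith [abs_nonneg (σ : ℝ)]
        rw [h3, one_mul]
      rw [h1, abs_of_pos hrR]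
    have hρs : ∀ u, ‖ρ u * (p.2 : ℂ)‖ ≤ R₀ * p.2 := by
      intro u
      rw [norm_mul, Complex.norm_intCast, abs_of_pos hsR]
      exact mul_le_mul_of_nonneg_right (hR u) hsR.le
    have hR4 : R₀ * p.2 ≤ lam * p.2 / 4 := by nlinarith
    have hlow : 3 / 4 * (lam * p.2) ≤ ((σ * p.1 : ℤ) : ℝ) := by
      have h1 := norm_sub_le ((p.1 : ℤ) : ℂ) (ρ v * (p.2 : ℂ))
      have h2 := hf3 v
      have h3 := hρs v
      rw [habs] at h1
      linarith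
    have hupp : ((σ * p.1 : ℤ) : ℝ) ≤ 3 * (lam * p.2) := by
      have h1 := norm_sub_norm_le ((p.1 : ℤ) : ℂ) (ρ v * (p.2 : ℂ))
      have h3 := hρs v
      rw [habs] at h1
      nlinarith
    have hls : 0 < lam * p.2 := by positivity
    refine ⟨?_, hr, ?_, ?_, ?_, ?_⟩
    · refine IsCoprime.mul_right ⟨0, σ, ?_⟩ hc.symm
      rw [zero_mul, zero_add, hσ]
    · change ((σ * p.1 : ℤ) : ℝ) ≤ 2 * (3 * lam * S)
      have h1 : lam * (p.2 : ℝ) ≤ lam * (2 * S) := mul_le_mul_of_nonneg_left hf2 hlam0.le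
      nlinarith
    · change (0 : ℝ) ≤ (p.2 : ℝ) / ((σ * p.1 : ℤ) : ℝ)
      positivity
    · change (p.2 : ℝ) / ((σ * p.1 : ℤ) : ℝ) ≤ 0 + 2 / lam
      rw [zero_add, div_le_div_iff₀ hrR hlam0]
      nlinarith
    · intro u _
      change 1 / 2 * ((σ * p.1 : ℤ) : ℝ) ≤
        ‖-ρ u * (p.2 : ℂ) + (σ : ℂ) * ((σ * p.1 : ℤ) : ℂ)‖
      have h1 : -ρ u * (p.2 : ℂ) + (σ : ℂ) * ((σ * p.1 : ℤ) : ℂ) =
          ((p.1 : ℤ) : ℂ) - ρ u * (p.2 : ℂ) := by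
        push_cast
        linear_combination (p.1 : ℂ) * hσC
      rw [h1]
      have h2 := norm_sub_norm_le ((p.1 : ℤ) : ℂ) (ρ u * (p.2 : ℂ))
      have h3 := hρs u
      rw [habs] at h2
      linarith
  · intro q hq q' hq' hne hκ
    obtain ⟨p, hp, rfl⟩ := Finset.mem_image.1 hq
    obtain ⟨p', hp', rfl⟩ := Finset.mem_image.1 hq'
    simp only [hψφ] at hκ
    obtain ⟨ζ, ζ', h1, h2, h3, h4⟩ := hB p hp p' hp' (fun h => hne (by rw [h])) hκ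
    exact ⟨ζ, ζ', hpt p ζ h1, hpt p' ζ' h2, h3, h4⟩

theorem cntz {A B : ℤ} (hD : 4 * A ^ 3 + 27 * B ^ 2 ≠ 0) {ρ : Fin 3 → ℂ} (hρ : Roots A B ρ) {C₁ : ℝ}
    (hC₁ : 1 ≤ C₁) (ε : ℝ) (hε : 0 < ε) : ∃ C : ℝ, 0 < C ∧
    ∀ (v : Fin 3) (S lam G : ℝ), 0 < S → 0 < lam → 1 ≤ G → ∀ (c : Fin 3 → ℤ) (m g z : ℕ), 0 < m →
    (m : ℝ) ≤ C₁ → 0 < z → Squarefree g → G ≤ g → (g : ℝ) ≤ 2 * G → ∀ T : Finset (ℤ × ℤ),
    (∀ p ∈ T, 0 < p.2 ∧ Fib ρ v S lam p.1 p.2 ∧ ∃ ζ : Fin 3 → ℤ, Pz A B c m g z p.1 p.2 ζ) →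
    (T.card : ℝ) ≤ C * G ^ ε * (z : ℝ) ^ ε * (1 + √(S / G) / (z : ℝ) ^ 2) := by
  classical
  obtain ⟨Ck, hCk, hkap⟩ := kap hD hρ hC₁ ε hε
  obtain ⟨R₀, hR1, hR⟩ : ∃ R₀ : ℝ, 1 ≤ R₀ ∧ ∀ v, ‖ρ v‖ ≤ R₀ := by
    refine ⟨1 + ∑ v, ‖ρ v‖, ?_, fun v => ?_⟩
    · have : 0 ≤ ∑ v, ‖ρ v‖ := Finset.sum_nonneg fun v _ => norm_nonneg _
      linarith
    · have := Finset.single_le_sum (f := fun v => ‖ρ v‖) (fun v _ => norm_nonneg _)
        (Finset.mem_univ v)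
      linarith
  obtain ⟨W, hW⟩ : ∃ W : ℝ, W = ∑ u : Fin 3, ‖(3 * ρ u ^ 2 + (A : ℂ))⁻¹‖ := ⟨_, rfl⟩
  have hW0 : 0 < W := by
    rw [hW]
    refine Finset.sum_pos (fun u _ => ?_) Finset.univ_nonempty
    exact norm_pos_iff.mpr (inv_ne_zero (deriv_ne hρ u))
  obtain ⟨W', hW'⟩ : ∃ W' : ℝ, W' = ∑ u : Fin 3, ‖(3 * ρ u ^ 2 + (A : ℂ))⁻¹‖ * ‖ρ u‖ ^ 2 + 1 :=
    ⟨_, rfl⟩
  have hW'0 : 0 < W' := by
    rw [hW']
    have : 0 ≤ ∑ u : Fin 3, ‖(3 * ρ u ^ 2 + (A : ℂ))⁻¹‖ * ‖ρ u‖ ^ 2 :=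
      Finset.sum_nonneg fun u _ => by positivity
    linarith
  have hC0 : 0 < C₁ := by linarith
  have hR0 : 0 < R₀ := by linarith
  obtain ⟨KA, hKA⟩ : ∃ KA : ℝ, KA = 32 * R₀ * W * C₁ ^ 2 * Ck := ⟨_, rfl⟩
  obtain ⟨KB, hKB⟩ : ∃ KB : ℝ, KB = 12 * W' * C₁ ^ 2 * Ck := ⟨_, rfl⟩
  have hKA0 : 0 < KA := by rw [hKA]; positivity
  have hKB0 : 0 < KB := by rw [hKB]; positivity
  have hsA : 0 < √KA := Real.sqrt_pos.2 hKA0
  have hsB : 0 < √KB := Real.sqrt_pos.2 hKB0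
  refine ⟨2 * Ck * (1 + √KA + √KB), by positivity, ?_⟩
  intro v S lam G hS hlam hG c m g z hm hmC hz hg hgG hgG2 T hT
  have hG0 : 0 < G := by linarith
  have hmR : (0 : ℝ) < m := by exact_mod_cast hm
  have hzR : (0 : ℝ) < z := by exact_mod_cast hz
  have hGe : (0 : ℝ) < G ^ ε := Real.rpow_pos_of_pos hG0 ε
  have hze : (0 : ℝ) < (z : ℝ) ^ ε := Real.rpow_pos_of_pos hzR ε
  have hX : 0 ≤ √(S / G) / (z : ℝ) ^ 2 := by positivity
  rcases T.eq_empty_or_nonempty with hTe | ⟨p₀, hp₀⟩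
  · rw [hTe, Finset.card_empty, Nat.cast_zero]
    positivity
  obtain ⟨_, _, ζ₀, hz₀⟩ := hT p₀ hp₀
  have hgR : (0 : ℝ) < g := by linarith
  have hnc : nrm3 A B c ≠ 0 := by
    rw [hz₀.nrm]
    have : 0 < g := by exact_mod_cast hgR
    positivity
  have hok := lab0_ok hρ hnc hm
  obtain ⟨ι, hdec, κ, hκ, hpair⟩ := hkap G hG c m g z hm hmC hz hg hgG hgG2 T
    (fun p hp => ⟨(hT p hp).1, (hT p hp).2.2⟩)
  obtain ⟨Q, hQ⟩ : ∃ Q : ℝ, Q = G * (z : ℝ) ^ 4 / Ck := ⟨_, rfl⟩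
  have hQ0 : 0 < Q := by rw [hQ]; positivity
  have hpair' : ∀ p ∈ T, ∀ p' ∈ T, p ≠ p' → κ p = κ p' → ∃ ζ ζ' : Fin 3 → ℤ,
        (lab0 A B ρ c m).Pt p.1 p.2 ζ ∧ (lab0 A B ρ c m).Pt p'.1 p'.2 ζ' ∧
        (∀ v, 0 ≤ ((lab0 A B ρ c m).u ζ v * (starRingEnd ℂ) ((lab0 A B ρ c m).u ζ' v)).re) ∧
        Q ≤ |(((lab0 A B ρ c m).B ζ ζ' : ℤ) : ℝ)| := by
    intro p hp p' hp' hne he
    obtain ⟨ζ, ζ', h1, h2, h3, h4⟩ := hpair p hp p' hp' hne he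
    refine ⟨ζ, ζ', h1, h2, h3, ?_⟩
    rw [hQ, div_le_iff₀ hCk]
    linarith
  have hm2 : (m : ℝ) ^ 2 ≤ C₁ ^ 2 := pow_le_pow_left₀ hmR.le hmC 2
  by_cases hcase : lam ≤ 4 * R₀
  · -- case A
    have key := scnt (Λ := lab0 A B ρ c m) hok (Q := Q) (W := W) (S := S) (lam := lam)
      (L := 4 * lam) (a := (ρ v).re - 2 * lam) hQ0 ?_ hW0 hS hlam (by linarith) T κ ?_ hpair'
    · have h1 : 4 * lam * √(W * (m : ℝ) ^ 2 * S / (2 * lam * Q)) ≤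
          √KA * (√(S / G) / (z : ℝ) ^ 2) := by
        refine two_sq (by linarith) hKA0.le (by positivity) hzR ?_
        have e1 : (4 * lam) ^ 2 * (W * (m : ℝ) ^ 2 * S / (2 * lam * Q)) =
            (8 * W * Ck) * (lam * (m : ℝ) ^ 2) * ((S / G) / (z : ℝ) ^ 4) := by
          rw [hQ]
          field_simp
          ring
        have e2 : KA * (S / G) / (z : ℝ) ^ 4 =
            (8 * W * Ck) * (4 * R₀ * C₁ ^ 2) * ((S / G) / (z : ℝ) ^ 4) := by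
          rw [hKA]
          ring
        rw [e1, e2]
        have e3 : lam * (m : ℝ) ^ 2 ≤ 4 * R₀ * C₁ ^ 2 :=
          mul_le_mul hcase hm2 (by positivity) (by positivity)
        have e4 : 0 ≤ (S / G) / (z : ℝ) ^ 4 := by positivity
        exact mul_le_mul_of_nonneg_right (mul_le_mul_of_nonneg_left e3 (by positivity)) e4
      change (T.card : ℝ) ≤ (T.image κ).card *
        (1 + 4 * lam * √(W * (m : ℝ) ^ 2 * S / (2 * lam * Q))) at key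
      calc (T.card : ℝ) ≤ (T.image κ).card *
            (1 + 4 * lam * √(W * (m : ℝ) ^ 2 * S / (2 * lam * Q))) := key
        _ ≤ (Ck * G ^ ε * (z : ℝ) ^ ε) * (1 + √KA * (√(S / G) / (z : ℝ) ^ 2)) :=
            mul_le_mul hκ (by linarith) (by positivity) (by positivity)
        _ ≤ (Ck * G ^ ε * (z : ℝ) ^ ε) *
            ((2 * (1 + √KA + √KB)) * (1 + √(S / G) / (z : ℝ) ^ 2)) := by
            refine mul_le_mul_of_nonneg_left ?_ (by positivity)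
            nlinarith [mul_nonneg hsA.le hX, mul_nonneg hsB.le hX]
        _ = _ := by ring
    · refine le_trans (le_of_eq ?_) (le_of_eq hW.symm)
      refine Finset.sum_congr rfl fun u _ => ?_
      change ‖(3 * ρ u ^ 2 + (A : ℂ))⁻¹‖ * ‖(1 : ℂ)‖ ^ 2 = _
      rw [norm_one, one_pow, mul_one]
    · intro p hp
      obtain ⟨hs, ⟨hf1, hf2, hf3, hf4⟩, ζ, hζ⟩ := hT p hp
      have hsR : (0 : ℝ) < p.2 := by exact_mod_cast hs
      have habs : |(p.1 : ℝ) / p.2 - (ρ v).re| ≤ 2 * lam := by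
        have h1 : |(p.1 : ℝ) - (ρ v).re * p.2| ≤ 2 * lam * p.2 := by
          have h2 := Complex.abs_re_le_norm ((p.1 : ℂ) - ρ v * p.2)
          have h3 : ((p.1 : ℂ) - ρ v * p.2).re = (p.1 : ℝ) - (ρ v).re * p.2 := by
            simp
          rw [h3] at h2
          exact h2.trans hf4
        have h4 : (p.1 : ℝ) / p.2 - (ρ v).re = ((p.1 : ℝ) - (ρ v).re * p.2) / p.2 := by
          field_simp
        rw [h4, abs_div, abs_of_pos hsR, div_le_iff₀ hsR]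
        exact h1
      rw [abs_le] at habs
      refine ⟨hζ.cop, hs, hf2, by linarith, by linarith, ?_⟩
      intro u _
      refine (hf3 u).trans (le_of_eq ?_)
      change _ = ‖(1 : ℂ) * (p.1 : ℂ) + (-ρ u) * (p.2 : ℂ)‖
      congr 1
      ring
  · -- case B
    push Not at hcase
    have hlam1 : 1 ≤ lam := by linarith
    have half : ∀ σ : ℤ, σ * σ = 1 → ((T.filter fun p => 0 < σ * p.1).card : ℝ) ≤
        (Ck * G ^ ε * (z : ℝ) ^ ε) * (1 + √KB * (√(S / G) / (z : ℝ) ^ 2)) := by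
      intro σ hσ
      have key := two_neg hρ hok (W := W') hR hR1 hcase hS hQ0 (by rw [hW']; linarith) hW'0 v σ hσ κ
        (T.filter fun p => 0 < σ * p.1) (fun p hp => by
          rw [Finset.mem_filter] at hp
          obtain ⟨hs, hf, ζ, hζ⟩ := hT p hp.1
          exact ⟨hζ.cop, hs, hp.2, hf⟩) (fun p hp p' hp' hne he =>
          hpair' p (Finset.mem_filter.1 hp).1 p' (Finset.mem_filter.1 hp').1 hne he)
      have h1 : 2 / lam * √(W' * (m : ℝ) ^ 2 * (3 * lam * S) / (2 * (1 / 2) * Q)) ≤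
          √KB * (√(S / G) / (z : ℝ) ^ 2) := by
        refine two_sq (by positivity) hKB0.le (by positivity) hzR ?_
        have e1 : (2 / lam) ^ 2 * (W' * (m : ℝ) ^ 2 * (3 * lam * S) / (2 * (1 / 2) * Q)) =
            (12 * W' * Ck) * ((m : ℝ) ^ 2 / lam) * ((S / G) / (z : ℝ) ^ 4) := by
          rw [hQ]
          field_simp
          ring
        have e2 : KB * (S / G) / (z : ℝ) ^ 4 =
            (12 * W' * Ck) * (C₁ ^ 2) * ((S / G) / (z : ℝ) ^ 4) := by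
          rw [hKB]
          ring
        rw [e1, e2]
        have e3 : (m : ℝ) ^ 2 / lam ≤ C₁ ^ 2 :=
          (div_le_self (by positivity) hlam1).trans hm2
        have e4 : 0 ≤ (S / G) / (z : ℝ) ^ 4 := by positivity
        exact mul_le_mul_of_nonneg_right (mul_le_mul_of_nonneg_left e3 (by positivity)) e4
      have h2 : ((T.filter fun p => 0 < σ * p.1).image κ).card ≤ (T.image κ).card :=
        Finset.card_le_card (Finset.image_subset_image (Finset.filter_subset _ _))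
      have h3 : (((T.filter fun p => 0 < σ * p.1).image κ).card : ℝ) ≤
          Ck * G ^ ε * (z : ℝ) ^ ε := by
        have h4 : (((T.filter fun p => 0 < σ * p.1).image κ).card : ℝ) ≤ (T.image κ).card := by
          exact_mod_cast h2
        exact h4.trans hκ
      exact key.trans (mul_le_mul h3 (by linarith) (by positivity) (by positivity))
    have hsplit : T.card ≤ (T.filter fun p => 0 < (1 : ℤ) * p.1).card +
        (T.filter fun p => 0 < (-1 : ℤ) * p.1).card := by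
      refine (Finset.card_le_card ?_).trans (Finset.card_union_le _ _)
      intro p hp
      rw [Finset.mem_union, Finset.mem_filter, Finset.mem_filter]
      obtain ⟨hs, ⟨hf1, hf2, hf3, hf4⟩, ζ, hζ⟩ := hT p hp
      have hsR : (0 : ℝ) < p.2 := by exact_mod_cast hs
      have hne : p.1 ≠ 0 := by
        intro h0
        have h1 := hf3 v
        rw [h0, Int.cast_zero, zero_sub, norm_neg, norm_mul, Complex.norm_intCast,
          abs_of_pos hsR] at h1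
        have h2 : ‖ρ v‖ * (p.2 : ℝ) ≤ R₀ * p.2 := mul_le_mul_of_nonneg_right (hR v) hsR.le
        nlinarith
      rcases lt_or_gt_of_ne hne with h | h
      · exact Or.inr ⟨hp, by linarith⟩
      · exact Or.inl ⟨hp, by linarith⟩
    have hsplitR : (T.card : ℝ) ≤ ((T.filter fun p => 0 < (1 : ℤ) * p.1).card : ℝ) +
        ((T.filter fun p => 0 < (-1 : ℤ) * p.1).card : ℝ) := by exact_mod_cast hsplit
    have hA := half 1 (by norm_num)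
    have hB := half (-1) (by norm_num)
    calc (T.card : ℝ) ≤ 2 * ((Ck * G ^ ε * (z : ℝ) ^ ε) *
          (1 + √KB * (√(S / G) / (z : ℝ) ^ 2))) := by linarith
      _ = (Ck * G ^ ε * (z : ℝ) ^ ε) * (2 * (1 + √KB * (√(S / G) / (z : ℝ) ^ 2))) := by ring
      _ ≤ (Ck * G ^ ε * (z : ℝ) ^ ε) *
            ((2 * (1 + √KA + √KB)) * (1 + √(S / G) / (z : ℝ) ^ 2)) := by
            refine mul_le_mul_of_nonneg_left ?_ (by positivity)
            nlinarith [mul_nonneg hsA.le hX, mul_nonneg hsB.le hX]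
      _ = _ := by ring

end Pool.Agent.H80.PZ
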