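import Pool.Agent.H80.PZ.Sumz
import Pool.Agent.H80.PS.Zero

/-!
[H80 PZ ZERO]  All curves: almost all twists, primes without roots, with the exponent `3/2`.

`badZ ⊆ bad0 ∪ (the same with m^(3/2) X^(-ε))`; `zero` (H80/PS/Zero.lean) for the first.  For the second as in H80/PS/Zero.lean (copy its private lemmas):
if `x³ + A x + B` has a rational (so integral) root then `m = 1` and the bound is `X^(-ε) ≤ 1`: `low_unif`.  Irreducible: `s = a y²`, `Gf = g w²`, `d = a g`, `m ∣ a`,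
`Y ≤ a^(3/2) X^(-ε)`; dyadic classes `M ≤ a ≤ 2 M`; `H = C₀ (2 M)³ X^(-2ε)`; `sumz` with `P = M`:
`(X / M) √(H / M) ≤ C X^(1-ε)`, `√X`.
-/

set_option autoImplicit false

namespace Pool.Agent.H80.PZ

open Pool.Agent.H12.EH Pool.Agent.H80.PT Pool.Agent.H80.PS

/-- The squarefree `d ≤ X` with `η_d ≤ max(m^(3/2), (d m)^(1/2)) X^(-ε)` for some divisor `m` of `d` such that `x³ + A x + B` has no root
modulo any prime factor of `m`. -/
def badZ (A B : ℤ) (X ε : ℝ) : Set ℕ :=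
  {d | ∃ m : ℕ, m ∣ d ∧ (∀ p : ℕ, p.Prime → p ∣ m → ∀ t : ℤ, ¬ (p : ℤ) ∣ t ^ 3 + A * t + B) ∧
    d ∈ low A B X (max ((m : ℝ) ^ (3 / 2 : ℝ)) (((d : ℝ) * m) ^ (1 / 2 : ℝ)) * X ^ (-ε))}

/-- the `d` with a pair of height at most `C₀ Y²`, where `Y` is small for the label of `s` -/
private def S1 (A B : ℤ) (C₀ X ε : ℝ) : Set ℕ :=
  {d | ∃ (Y : ℝ) (r s : ℤ) (a g y z : ℕ), d ∈ low A B X Y ∧ Tw A B (C₀ * Y ^ 2) d r s ∧
    Squarefree g ∧ 0 < y ∧ 0 < z ∧ s = a * y ^ 2 ∧ Gf A B r s = g * z ^ 2 ∧ a * g = d ∧ 0 < Y ∧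
    Y ≤ (a : ℝ) ^ (3 / 2 : ℝ) * X ^ (-ε)}

private theorem S1_fin (A B : ℤ) (C₀ X ε : ℝ) : (S1 A B C₀ X ε).Finite := by
  refine (Set.finite_Iic ⌊X⌋₊).subset ?_
  rintro d ⟨Y, r, s, a, g, y, z, hlow, -⟩
  exact Nat.le_floor hlow.1

private theorem inj {A B : ℤ} (Z : Finset ℕ) {R : ℤ × ℤ → Prop} (h : ∀ d ∈ Z, Squarefree d ∧
    ∃ p : ℤ × ℤ, R p ∧ ∃ w : ℤ, w ≠ 0 ∧ p.2 * Gf A B p.1 p.2 = d * w ^ 2) :
    ∃ T : Finset (ℤ × ℤ), (∀ p ∈ T, R p) ∧ (Z.card : ℝ) ≤ T.card := by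
  classical
  have key : ∀ d ∈ Z, ∃ p : ℤ × ℤ, R p ∧ ∃ w : ℤ, w ≠ 0 ∧ p.2 * Gf A B p.1 p.2 = d * w ^ 2 := fun d hd => (h d hd).2
  choose! f hf w hw0 hw using key
  refine ⟨Z.image f, ?_, ?_⟩
  · intro p hp
    rw [Finset.mem_image] at hp
    obtain ⟨d, hd, rfl⟩ := hp
    exact hf d hd
  · have h1 : (Z.image f).card = Z.card := by
      apply Finset.card_image_of_injOn
      intro d hd d' hd' hdd
      have hd := Finset.mem_coe.mp hd
      have hd' := Finset.mem_coe.mp hd'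
      have g1 := hw d hd
      have g2 := hw d' hd'
      rw [hdd, g2] at g1
      apply sqf_unique (h d hd).1 (h d' hd').1 (Int.natAbs_ne_zero.mpr (hw0 d' hd')) (a := (w d).natAbs)
      have h3 : (d : ℤ) * (w d) ^ 2 = d' * (w d') ^ 2 := g1.symm
      have h4 := congrArg Int.natAbs h3
      rw [Int.natAbs_mul, Int.natAbs_mul, Int.natAbs_pow, Int.natAbs_pow, Int.natAbs_natCast, Int.natAbs_natCast] at h4
      exact h4
    rw [h1]

/-- the label -/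
private theorem lab0d {A B : ℤ} {H : ℝ} {d : ℕ} {r s : ℤ} (hd : Squarefree d) (h : Tw A B H d r s) :
    ∃ a g y z : ℕ, Squarefree g ∧ 0 < y ∧ 0 < z ∧ s = a * y ^ 2 ∧ Gf A B r s = g * z ^ 2 ∧ a * g = d := by
  obtain ⟨hc, hs, -, -, w, hw, hdw⟩ := h
  have hd0 : (0 : ℤ) < d := by
    have := hd.ne_zero
    positivity
  have hG : 0 < Gf A B r s := by
    have h1 : 0 < s * Gf A B r s := by
      rw [hdw]
      positivity
    exact (pos_iff_pos_of_mul_pos h1).mp hs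
  obtain ⟨a0, y0, ha0, hy0, he0⟩ := sqf_dec s hs.ne'
  obtain ⟨a1, y1, ha1, hy1, he1⟩ := sqf_dec (Gf A B r s) hG.ne'
  have hcop : IsCoprime s (Gf A B r s) := Fac_cop (A := A) (B := B) hc
  have ha0p : 0 < a0 := by
    by_contra hcon
    have h1 : a0 ≤ 0 := not_lt.mp hcon
    have h2 : a0 * y0 ^ 2 ≤ 0 := mul_nonpos_of_nonpos_of_nonneg h1 (sq_nonneg _)
    rw [← he0] at h2
    exact absurd hs (not_lt.mpr h2)
  have ha1p : 0 < a1 := by
    by_contra hcon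
    have h1 : a1 ≤ 0 := not_lt.mp hcon
    have h2 : a1 * y1 ^ 2 ≤ 0 := mul_nonpos_of_nonpos_of_nonneg h1 (sq_nonneg _)
    rw [← he1] at h2
    exact absurd hG (not_lt.mpr h2)
  have hcop2 : IsCoprime a0 a1 := by
    refine (hcop.of_isCoprime_of_dvd_left ?_).of_isCoprime_of_dvd_right ?_
    · rw [he0]
      exact Dvd.intro _ rfl
    · rw [he1]
      exact Dvd.intro _ rfl
  have hn0 : Squarefree a0.natAbs := Int.squarefree_natAbs.mpr ha0
  have hn1 : Squarefree a1.natAbs := Int.squarefree_natAbs.mpr ha1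
  have hcn : Nat.Coprime a0.natAbs a1.natAbs := by
    have := Int.isCoprime_iff_gcd_eq_one.mp hcop2
    exact this
  have hsq : Squarefree (a0.natAbs * a1.natAbs) := (Nat.squarefree_mul hcn).mpr ⟨hn0, hn1⟩
  have hw0 : w.natAbs ≠ 0 := by rwa [Int.natAbs_ne_zero]
  have hyy : y0.natAbs * y1.natAbs ≠ 0 := by
    have h1 : 0 < y0.natAbs := Int.natAbs_pos.mpr hy0.ne'
    have h2 : 0 < y1.natAbs := Int.natAbs_pos.mpr hy1.ne'
    positivity
  have hprod : d * w.natAbs ^ 2 = (a0.natAbs * a1.natAbs) * (y0.natAbs * y1.natAbs) ^ 2 := by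
    have h1 : (d : ℤ) * w ^ 2 = (a0 * a1) * (y0 * y1) ^ 2 := by
      rw [← hdw, he1]
      nth_rewrite 1 [he0]
      ring
    have h2 := congrArg Int.natAbs h1
    rw [Int.natAbs_mul, Int.natAbs_mul, Int.natAbs_mul, Int.natAbs_pow, Int.natAbs_pow, Int.natAbs_natCast,
      Int.natAbs_mul] at h2
    exact h2
  have hdd : d = a0.natAbs * a1.natAbs := sqf_unique hd hsq hyy hprod
  refine ⟨a0.natAbs, a1.natAbs, y0.natAbs, y1.natAbs, hn1, Int.natAbs_pos.mpr hy0.ne', Int.natAbs_pos.mpr hy1.ne', ?_, ?_,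
    hdd.symm⟩
  · rw [Int.natAbs_of_nonneg ha0p.le, Int.natAbs_of_nonneg hy0.le]
    exact he0
  · rw [Int.natAbs_of_nonneg ha1p.le, Int.natAbs_of_nonneg hy1.le]
    exact he1

/-- a prime which divides `Gf A B r s` has a root -/
private theorem root_of {A B r s : ℤ} (hc : IsCoprime r s) {p : ℕ} (hp : p.Prime) (h : (p : ℤ) ∣ Gf A B r s) :
    ∃ t : ℤ, (p : ℤ) ∣ t ^ 3 + A * t + B := by
  have hpp : Prime (p : ℤ) := Nat.prime_iff_prime_int.mp hp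
  unfold Gf at h
  have hs : ¬ (p : ℤ) ∣ s := by
    intro h1
    have h2 : (p : ℤ) ∣ r ^ 3 := by
      have h3 : r ^ 3 = (r ^ 3 + A * r * s ^ 2 + B * s ^ 3) - s * (A * r * s + B * s ^ 2) := by ring
      rw [h3]
      exact dvd_sub h (h1.mul_right _)
    exact hpp.not_isUnit (hc.isUnit_of_dvd' (hpp.dvd_of_dvd_pow h2) h1)
  obtain ⟨u, v, huv⟩ := (Prime.coprime_iff_not_dvd hpp).mpr hs
  obtain ⟨k, hk⟩ := h
  -- t = r v, v s = 1 - u p
  refine ⟨r * v, v ^ 3 * k + A * (r * v) * (u * (1 + v * s)) + B * (u * (1 + v * s + (v * s) ^ 2)), ?_⟩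
  linear_combination (v ^ 3) * hk - (A * (r * v) * (1 + v * s) + B * (1 + v * s + (v * s) ^ 2)) * huv

private theorem lg {K : ℝ} (hK : 1 ≤ K) (ε : ℝ) (hε : 0 < ε) : ∃ C : ℝ, 0 < C ∧ ∀ X : ℝ, 1 ≤ X →
    ((Nat.log 2 ⌊K * X⌋₊ : ℕ) : ℝ) + 1 ≤ C * X ^ ε := by
  obtain ⟨C, hC, h⟩ := log_pow_le 1 ε hε
  refine ⟨2 * C * K ^ ε, by positivity, ?_⟩
  intro X hX
  have hK0 : 0 < K := by linarith
  have hX0 : 0 < X := by linarith
  have hKX : 1 ≤ K * X := one_le_mul_of_one_le_of_one_le hK hX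
  have h1 := h (K * X) hKX
  rw [pow_one, Real.mul_rpow hK0.le hX0.le] at h1
  have hfl : 1 ≤ ⌊K * X⌋₊ := Nat.le_floor (by simpa using hKX)
  have h2 : (2 : ℝ) ^ (Nat.log 2 ⌊K * X⌋₊) ≤ K * X := by
    have e1 : 2 ^ (Nat.log 2 ⌊K * X⌋₊) ≤ ⌊K * X⌋₊ := Nat.pow_log_le_self 2 (by omega)
    have e2 : ((2 ^ (Nat.log 2 ⌊K * X⌋₊) : ℕ) : ℝ) ≤ (⌊K * X⌋₊ : ℝ) := by exact_mod_cast e1
    push_cast at e2
    exact e2.trans (Nat.floor_le (by linarith))
  have e1 : ((Nat.log 2 ⌊K * X⌋₊ : ℕ) : ℝ) * Real.log 2 ≤ Real.log (K * X) := by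
    rw [← Real.log_pow]
    exact Real.log_le_log (by positivity) h2
  have e2 : (1 / 2 : ℝ) ≤ Real.log 2 := by
    have := Real.log_two_gt_d9
    linarith
  have e3 : ((Nat.log 2 ⌊K * X⌋₊ : ℕ) : ℝ) * (1 / 2) ≤ ((Nat.log 2 ⌊K * X⌋₊ : ℕ) : ℝ) * Real.log 2 :=
    mul_le_mul_of_nonneg_left e2 (Nat.cast_nonneg _)
  calc ((Nat.log 2 ⌊K * X⌋₊ : ℕ) : ℝ) + 1 ≤ 2 * (Real.log (K * X) + 1) := by linarith
    _ ≤ 2 * (C * (K ^ ε * X ^ ε)) := by linarith
    _ = _ := by ring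

private theorem Gf_ne {A B : ℤ} {d : ℕ} (hd : Squarefree d) {r s w : ℤ} (hw : w ≠ 0) (h : s * Gf A B r s = d * w ^ 2) :
    Gf A B r s ≠ 0 := by
  intro h0
  rw [h0, mul_zero] at h
  have h7 : (d : ℤ) ≠ 0 := by exact_mod_cast hd.ne_zero
  exact (mul_ne_zero h7 (pow_ne_zero 2 hw)) h.symm

private theorem card1 {A B : ℤ} (hD : 4 * A ^ 3 + 27 * B ^ 2 ≠ 0) (hirr : ∀ x : ℚ, x ^ 3 + A * x + B ≠ 0)
    {C₀ : ℝ} (hC₀ : 1 ≤ C₀) (ε : ℝ) (hε : 0 < ε) (hε4 : ε ≤ 1 / 4) :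
    ∃ C : ℝ, 0 < C ∧ ∀ X : ℝ, 1 ≤ X → ((S1 A B C₀ X ε).ncard : ℝ) ≤ C * X ^ (1 - ε / 8) := by
  classical
  obtain ⟨C1, hC1, h1⟩ := sumz hD hirr (ε / 16) (by positivity)
  obtain ⟨C2, hC2, h2⟩ := lg (le_refl (1 : ℝ)) (ε / 8) (by positivity)
  obtain ⟨Q, hQ⟩ : ∃ Q : ℝ, Q = 8 * C₀ := ⟨_, rfl⟩
  have hQ0 : 0 < Q := by rw [hQ]; positivity
  refine ⟨C2 * (C1 * Q ^ (ε / 16) * (1 + √Q)), by positivity, ?_⟩
  intro X hX
  have hX0 : 0 < X := by linarith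
  have hC₀0 : 0 < C₀ := by linarith
  have hXn : 0 < X ^ (-ε) := Real.rpow_pos_of_pos hX0 _
  obtain ⟨T, hT⟩ : ∃ T : Finset ℕ, T = (S1_fin A B C₀ X ε).toFinset := ⟨_, rfl⟩
  have hcard : ((S1 A B C₀ X ε).ncard : ℝ) = T.card := by
    rw [hT, Set.ncard_eq_toFinset_card _ (S1_fin A B C₀ X ε)]
  have hmem : ∀ d ∈ T, d ∈ S1 A B C₀ X ε := by
    intro d hd
    rw [hT, Set.Finite.mem_toFinset] at hd
    exact hd
  rw [hcard]
  choose! Y r s a g y z hlow hTw hg hy hz hs hG had hY0 hYb using hmem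
  have hapos : ∀ d ∈ T, 1 ≤ a d ∧ (a d : ℝ) ≤ X := by
    intro d hd
    have h5 := had d hd
    have h6 : d ≠ 0 := (hlow d hd).2.1.ne_zero
    have h7 : a d ≠ 0 := by
      intro h0
      rw [h0, zero_mul] at h5
      exact h6 h5.symm
    refine ⟨Nat.one_le_iff_ne_zero.mpr h7, le_trans ?_ (hlow d hd).1⟩
    have h8 : a d ≤ d := Nat.le_of_dvd (Nat.pos_of_ne_zero h6) (Dvd.intro _ h5)
    exact_mod_cast h8
  have hM0 : 0 ≤ (C1 * Q ^ (ε / 16) * (1 + √Q)) * X ^ (1 - ε / 4) := by positivity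
  have hdy := dya2 T (fun d => a d) ⌊1 * X⌋₊ ((C1 * Q ^ (ε / 16) * (1 + √Q)) * X ^ (1 - ε / 4)) hM0
    (by
      intro d hd
      exact ⟨(hapos d hd).1, Nat.le_floor (by rw [one_mul]; exact (hapos d hd).2)⟩)
    (by
      intro k hk T' hT' hk2
      rcases T'.eq_empty_or_nonempty with hTe | ⟨d0, hd0⟩
      · rw [hTe, Finset.card_empty, Nat.cast_zero]
        exact hM0
      obtain ⟨M, hM⟩ : ∃ M : ℝ, M = (2 : ℝ) ^ k := ⟨_, rfl⟩
      have hM1 : 1 ≤ M := by rw [hM]; exact one_le_pow₀ (by norm_num)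
      have hMp : 0 < M := by linarith
      have hMa : ∀ d ∈ T', M ≤ (a d : ℝ) ∧ (a d : ℝ) ≤ 2 * M := by
        intro d hd
        rw [hM]
        exact ⟨by exact_mod_cast (hk2 d hd).1, by exact_mod_cast (hk2 d hd).2⟩
      have hMX : M ≤ X := (hMa d0 hd0).1.trans (hapos d0 (hT' hd0)).2
      have hYM : ∀ d ∈ T', Y d ≤ (2 * M) ^ (3 / 2 : ℝ) * X ^ (-ε) := by
        intro d hd
        have e1 := hYb d (hT' hd)
        refine e1.trans (mul_le_mul_of_nonneg_right ?_ hXn.le)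
        exact Real.rpow_le_rpow (Nat.cast_nonneg _) (hMa d hd).2 (by norm_num)
      obtain ⟨H, hH⟩ : ∃ H : ℝ, H = C₀ * ((2 * M) ^ 3 * X ^ (-(2 * ε))) := ⟨_, rfl⟩
      have hYH : ∀ d ∈ T', C₀ * Y d ^ 2 ≤ H := by
        intro d hd
        rw [hH]
        refine mul_le_mul_of_nonneg_left ?_ hC₀0.le
        calc Y d ^ 2 ≤ ((2 * M) ^ (3 / 2 : ℝ) * X ^ (-ε)) ^ 2 :=
              pow_le_pow_left₀ (hY0 d (hT' hd)).le (hYM d hd) 2
          _ = (2 * M) ^ 3 * X ^ (-(2 * ε)) := by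
            rw [mul_pow, ← Real.rpow_natCast, ← Real.rpow_natCast, ← Real.rpow_mul (by positivity),
              ← Real.rpow_mul hX0.le]
            have g1 : (3 / 2 : ℝ) * ((2 : ℕ) : ℝ) = ((3 : ℕ) : ℝ) := by norm_num
            have g2 : -ε * ((2 : ℕ) : ℝ) = -(2 * ε) := by push_cast; ring
            rw [g1, g2, Real.rpow_natCast]
      have hH1 : 1 ≤ H := by
        obtain ⟨t1, t2, t3, t4, -⟩ := hTw d0 (hT' hd0)
        have e2 : (1 : ℝ) ≤ (s d0 : ℝ) := by exact_mod_cast t2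
        exact e2.trans (t4.trans (hYH d0 hd0))
      obtain ⟨TT, hTT, hTc⟩ := inj (A := A) (B := B) T' (R := fun p => IsCoprime p.1 p.2 ∧ 0 < p.2 ∧
        |(p.1 : ℝ)| ≤ H ∧ (p.2 : ℝ) ≤ H ∧ Gf A B p.1 p.2 ≠ 0 ∧
        ∃ a g y w : ℕ, Squarefree g ∧ 0 < y ∧ 0 < w ∧ p.2 = a * y ^ 2 ∧ Gf A B p.1 p.2 = g * w ^ 2 ∧ M ≤ a ∧
          (a : ℝ) * g ≤ X) (by
          intro d hd
          have hdT := hT' hd
          obtain ⟨t1, t2, t3, t4, w, hw, t5⟩ := hTw d hdT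
          have hsq : Squarefree d := (hlow d hdT).2.1
          have hHd := hYH d hd
          refine ⟨hsq, (r d, s d), ⟨t1, t2, t3.trans hHd, t4.trans hHd, Gf_ne hsq hw t5, a d, g d, y d, z d, hg d hdT,
            hy d hdT, hz d hdT, hs d hdT, hG d hdT, (hMa d hd).1, ?_⟩, w, hw, t5⟩
          have e1 : (a d : ℝ) * (g d : ℝ) = (d : ℝ) := by exact_mod_cast had d hdT
          rw [e1]
          exact (hlow d hdT).1)
      have h4 := h1 H X M hH1 hX hM1 TT hTT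
      refine hTc.trans (h4.trans ?_)
      have hXe : 0 < X ^ (1 - ε) := Real.rpow_pos_of_pos hX0 _
      have hHM : H / M = Q * (M * X ^ (-ε)) ^ 2 := by
        have e1 : (X ^ (-ε)) ^ 2 = X ^ (-(2 * ε)) := by
          rw [← Real.rpow_natCast, ← Real.rpow_mul hX0.le]
          congr 1
          push_cast
          ring
        rw [mul_pow, e1, hH, hQ]
        field_simp
        ring
      have g2 : X / M * √(H / M) = √Q * X ^ (1 - ε) := by
        rw [hHM, Real.sqrt_mul hQ0.le, Real.sqrt_sq (by positivity)]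
        have e1 : X ^ (1 - ε) = X * X ^ (-ε) := by
          rw [sub_eq_add_neg, Real.rpow_add hX0, Real.rpow_one]
        rw [e1]
        field_simp
      have g3 : √X ≤ X ^ (1 - ε) := by
        rw [Real.sqrt_eq_rpow]
        exact Real.rpow_le_rpow_of_exponent_le hX (by linarith)
      have g4 : (H * X) ^ (ε / 16) ≤ Q ^ (ε / 16) * X ^ (ε / 4) := by
        have e0 : X ^ (-(2 * ε)) ≤ 1 := by
          calc X ^ (-(2 * ε)) ≤ X ^ (0 : ℝ) := Real.rpow_le_rpow_of_exponent_le hX (by linarith)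
            _ = 1 := Real.rpow_zero X
        have e2 : (2 * M) ^ 3 ≤ 8 * X ^ 3 := by
          calc (2 * M) ^ 3 = 8 * M ^ 3 := by ring
            _ ≤ 8 * X ^ 3 := mul_le_mul_of_nonneg_left (pow_le_pow_left₀ hMp.le hMX 3) (by norm_num)
        have e1 : H * X ≤ Q * X ^ 4 := by
          have e3 : (2 * M) ^ 3 * X ^ (-(2 * ε)) ≤ 8 * X ^ 3 := by
            calc (2 * M) ^ 3 * X ^ (-(2 * ε)) ≤ (2 * M) ^ 3 * 1 := mul_le_mul_of_nonneg_left e0 (by positivity)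
              _ = (2 * M) ^ 3 := mul_one _
              _ ≤ 8 * X ^ 3 := e2
          calc H * X ≤ (C₀ * (8 * X ^ 3)) * X := by
                rw [hH]
                exact mul_le_mul_of_nonneg_right (mul_le_mul_of_nonneg_left e3 hC₀0.le) hX0.le
            _ = Q * X ^ 4 := by rw [hQ]; ring
        refine (Real.rpow_le_rpow (by positivity) e1 (by positivity)).trans (le_of_eq ?_)
        rw [Real.mul_rpow hQ0.le (by positivity), ← Real.rpow_natCast X 4, ← Real.rpow_mul hX0.le]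
        congr 2
        push_cast
        ring
      have g5 : 0 ≤ X / M * √(H / M) + √X := by positivity
      calc C1 * (H * X) ^ (ε / 16) * (X / M * √(H / M) + √X)
          ≤ C1 * (Q ^ (ε / 16) * X ^ (ε / 4)) * ((1 + √Q) * X ^ (1 - ε)) := by
            refine mul_le_mul (mul_le_mul_of_nonneg_left g4 hC1.le) ?_ g5 (by positivity)
            rw [g2]
            linarith
        _ = C1 * Q ^ (ε / 16) * (1 + √Q) * X ^ (ε / 4 + (1 - ε)) := by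
            rw [Real.rpow_add hX0 (ε / 4)]
            ring
        _ ≤ C1 * Q ^ (ε / 16) * (1 + √Q) * X ^ (1 - ε / 4) := by
            refine mul_le_mul_of_nonneg_left ?_ (by positivity)
            exact Real.rpow_le_rpow_of_exponent_le hX (by linarith))
  refine hdy.trans ?_
  calc ((Nat.log 2 ⌊1 * X⌋₊ : ℕ) + 1 : ℝ) * ((C1 * Q ^ (ε / 16) * (1 + √Q)) * X ^ (1 - ε / 4))
      ≤ (C2 * X ^ (ε / 8)) * ((C1 * Q ^ (ε / 16) * (1 + √Q)) * X ^ (1 - ε / 4)) :=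
        mul_le_mul_of_nonneg_right (h2 X hX) hM0
    _ = C2 * (C1 * Q ^ (ε / 16) * (1 + √Q)) * X ^ (ε / 8 + (1 - ε / 4)) := by
        rw [Real.rpow_add hX0 (ε / 8)]
        ring
    _ = C2 * (C1 * Q ^ (ε / 16) * (1 + √Q)) * X ^ (1 - ε / 8) := by
        congr 2
        ring

/-- the second part -/
private def bad1 (A B : ℤ) (X ε : ℝ) : Set ℕ :=
  {d | ∃ m : ℕ, m ∣ d ∧ (∀ p : ℕ, p.Prime → p ∣ m → ∀ t : ℤ, ¬ (p : ℤ) ∣ t ^ 3 + A * t + B) ∧
    d ∈ low A B X ((m : ℝ) ^ (3 / 2 : ℝ) * X ^ (-ε))}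

private theorem bad1_fin (A B : ℤ) (X ε : ℝ) : (bad1 A B X ε).Finite := by
  refine (Set.finite_Iic ⌊X⌋₊).subset ?_
  rintro d ⟨m, -, -, hlow⟩
  exact Nat.le_floor hlow.1

private theorem bad0_fin (A B : ℤ) (X ε : ℝ) : (bad0 A B X ε).Finite := by
  refine (Set.finite_Iic ⌊X⌋₊).subset ?_
  rintro d ⟨m, -, -, hlow⟩
  exact Nat.le_floor hlow.1

private theorem int_root {A B : ℤ} {x : ℚ} (h : x ^ 3 + A * x + B = 0) : ∃ t : ℤ, t ^ 3 + A * t + B = 0 := by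
  have hden : (x.den : ℤ) ∣ x.num ^ 3 := by
    have hd0 : (x.den : ℚ) ≠ 0 := by exact_mod_cast x.den_nz
    have hx : x = x.num / x.den := (Rat.num_div_den x).symm
    rw [hx] at h
    have h2 : (x.num : ℚ) ^ 3 = -(x.den : ℚ) * (A * x.num * x.den + B * x.den ^ 2) := by
      field_simp at h
      linear_combination h
    refine ⟨-(A * x.num * x.den + B * x.den ^ 2), ?_⟩
    have h3 : ((x.num ^ 3 : ℤ) : ℚ) = ((x.den : ℤ) * -(A * x.num * x.den + B * x.den ^ 2) : ℤ) := by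
      push_cast
      rw [h2]
      ring
    exact_mod_cast h3
  have hcop : IsCoprime (x.den : ℤ) (x.num ^ 3) := by
    have h1 : IsCoprime x.num (x.den : ℤ) := by
      rw [Int.isCoprime_iff_gcd_eq_one]
      exact x.reduced
    exact h1.symm.pow_right
  have hu : IsUnit (x.den : ℤ) := hcop.isUnit_of_dvd' dvd_rfl hden
  have h1 : x.den = 1 := by
    have := Int.isUnit_iff.mp hu
    omega
  refine ⟨x.num, ?_⟩
  have hx : x = x.num := by
    have h2 := (Rat.num_div_den x).symm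
    rw [h1, Nat.cast_one, div_one] at h2
    exact h2
  rw [hx] at h
  exact_mod_cast h

private theorem one1 (A B : ℤ) (hD : 4 * A ^ 3 + 27 * B ^ 2 ≠ 0) (ε : ℝ) (hε : 0 < ε) :
    ∃ δ C : ℝ, 0 < δ ∧ 0 < C ∧ ∀ X : ℝ, 1 ≤ X → ((bad1 A B X ε).ncard : ℝ) ≤ C * X ^ (1 - δ) := by
  classical
  by_cases hirr : ∀ x : ℚ, x ^ 3 + A * x + B ≠ 0
  · obtain ⟨C₀, hC₀, htw⟩ := tw_of_low A B hD
    obtain ⟨η, hη⟩ : ∃ η : ℝ, η = min ε (1 / 4) := ⟨_, rfl⟩
    have hη0 : 0 < η := by rw [hη]; exact lt_min hε (by norm_num)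
    have hη4 : η ≤ 1 / 4 := by rw [hη]; exact min_le_right _ _
    have hηε : η ≤ ε := by rw [hη]; exact min_le_left _ _
    obtain ⟨C, hC, h1⟩ := card1 hD hirr hC₀ η hη0 hη4
    refine ⟨η / 8, C, by positivity, hC, ?_⟩
    intro X hX
    have hX0 : 0 < X := by linarith
    have hsub : bad1 A B X ε ⊆ S1 A B C₀ X η := by
      rintro d ⟨m, hmd, hm, hlow⟩
      have hd0 : d ≠ 0 := hlow.2.1.ne_zero
      have hm0 : m ≠ 0 := fun h => hd0 (Nat.eq_zero_of_zero_dvd (h ▸ hmd))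
      have hY0 : 0 < (m : ℝ) ^ (3 / 2 : ℝ) * X ^ (-ε) := by
        have e2 : (0 : ℝ) < (m : ℝ) := by exact_mod_cast Nat.pos_of_ne_zero hm0
        positivity
      obtain ⟨r, s, ht⟩ := htw X _ hY0 d hlow
      obtain ⟨a, g, y, z, g1, g2, g3, g4, g5, g6⟩ := lab0d hlow.2.1 ht
      have hcop : Nat.Coprime m g := by
        refine Nat.coprime_of_dvd ?_
        intro p hp hpm hpg
        have e1 : (p : ℤ) ∣ Gf A B r s := by
          rw [g5]
          exact (Int.natCast_dvd_natCast.mpr hpg).mul_right _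
        obtain ⟨t, ht⟩ := root_of ht.1 hp e1
        exact hm p hp hpm t ht
      have hma : m ∣ a := hcop.dvd_of_dvd_mul_right (g6 ▸ hmd)
      have ha0 : a ≠ 0 := by
        rintro rfl
        exact hd0 (by rw [← g6, zero_mul])
      have hmaR : (m : ℝ) ≤ (a : ℝ) := by exact_mod_cast Nat.le_of_dvd (Nat.pos_of_ne_zero ha0) hma
      have hXn : X ^ (-ε) ≤ X ^ (-η) := Real.rpow_le_rpow_of_exponent_le hX (by linarith)
      have hXp : 0 ≤ X ^ (-ε) := by positivity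
      refine ⟨_, r, s, a, g, y, z, hlow, ht, g1, g2, g3, g4, g5, g6, hY0, ?_⟩
      refine mul_le_mul ?_ hXn hXp (by positivity)
      exact Real.rpow_le_rpow (Nat.cast_nonneg _) hmaR (by norm_num)
    refine le_trans ?_ (h1 X hX)
    exact_mod_cast Set.ncard_le_ncard hsub (S1_fin A B C₀ X η)
  · push Not at hirr
    obtain ⟨x, hx⟩ := hirr
    obtain ⟨t, ht⟩ := int_root hx
    obtain ⟨C3, hC3, h3⟩ := low_unif A B hD (1 / 4) (by norm_num)
    refine ⟨1 / 4, C3, by norm_num, hC3, ?_⟩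
    intro X hX
    have hX0 : 0 < X := by linarith
    have hsub : bad1 A B X ε ⊆ low A B X 1 := by
      rintro d ⟨m, hmd, hm, q1, q2, P, q3, q4⟩
      have hm1 : m = 1 := by
        by_contra hne
        obtain ⟨p, hp, hpm⟩ := Nat.exists_prime_and_dvd hne
        apply hm p hp hpm t
        rw [ht]
        exact dvd_zero _
      refine ⟨q1, q2, P, q3, q4.trans ?_⟩
      rw [hm1, Nat.cast_one, Real.one_rpow, one_mul]
      calc X ^ (-ε) ≤ X ^ (0 : ℝ) := Real.rpow_le_rpow_of_exponent_le hX (by linarith)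
        _ = 1 := Real.rpow_zero X
    have h4 := h3 X 1 hX le_rfl
    have h5 : ((bad1 A B X ε).ncard : ℝ) ≤ ((low A B X 1).ncard : ℝ) := by
      exact_mod_cast Set.ncard_le_ncard hsub (low_fin A B X 1)
    refine h5.trans (h4.trans (le_of_eq ?_))
    rw [mul_one]
    congr 2
    norm_num

theorem zeroZ (A B : ℤ) (hD : 4 * A ^ 3 + 27 * B ^ 2 ≠ 0) (ε : ℝ) (hε : 0 < ε) :
    ∃ δ C : ℝ, 0 < δ ∧ 0 < C ∧ ∀ X : ℝ, 1 ≤ X → ((badZ A B X ε).ncard : ℝ) ≤ C * X ^ (1 - δ) := by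
  obtain ⟨δ0, C0, hδ0, hC0, h0⟩ := zero A B hD ε hε
  obtain ⟨δ1, C1, hδ1, hC1, h1⟩ := one1 A B hD ε hε
  refine ⟨min δ0 δ1, C0 + C1, lt_min hδ0 hδ1, by positivity, ?_⟩
  intro X hX
  have hX0 : 0 < X := by linarith
  have hXn : 0 ≤ X ^ (-ε) := by positivity
  have hsub : badZ A B X ε ⊆ bad0 A B X ε ∪ bad1 A B X ε := by
    rintro d ⟨m, hmd, hm, hlow⟩
    rcases le_total ((m : ℝ) ^ (3 / 2 : ℝ)) (((d : ℝ) * m) ^ (1 / 2 : ℝ)) with hle | hle
    · left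
      rw [max_eq_right hle] at hlow
      exact ⟨m, hmd, hm, hlow⟩
    · right
      rw [max_eq_left hle] at hlow
      exact ⟨m, hmd, hm, hlow⟩
  have hfin : (bad0 A B X ε ∪ bad1 A B X ε).Finite := (bad0_fin A B X ε).union (bad1_fin A B X ε)
  have e1 : ((badZ A B X ε).ncard : ℝ) ≤ ((bad0 A B X ε).ncard : ℝ) + ((bad1 A B X ε).ncard : ℝ) := by
    have e2 := (Set.ncard_le_ncard hsub hfin).trans (Set.ncard_union_le _ _)
    exact_mod_cast e2
  have m0 : X ^ (1 - δ0) ≤ X ^ (1 - min δ0 δ1) :=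
    Real.rpow_le_rpow_of_exponent_le hX (by linarith [min_le_left δ0 δ1])
  have m1 : X ^ (1 - δ1) ≤ X ^ (1 - min δ0 δ1) :=
    Real.rpow_le_rpow_of_exponent_le hX (by linarith [min_le_right δ0 δ1])
  calc ((badZ A B X ε).ncard : ℝ) ≤ C0 * X ^ (1 - δ0) + C1 * X ^ (1 - δ1) :=
        e1.trans (add_le_add (h0 X hX) (h1 X hX))
    _ ≤ C0 * X ^ (1 - min δ0 δ1) + C1 * X ^ (1 - min δ0 δ1) :=
        add_le_add (mul_le_mul_of_nonneg_left m0 hC0.le) (mul_le_mul_of_nonneg_left m1 hC1.le)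
    _ = (C0 + C1) * X ^ (1 - min δ0 δ1) := by ring

end Pool.Agent.H80.PZ
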